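import Pool.Agent.Lib.MP_1a91b9_ntH.A.L1
import Pool.Agent.Lib.MP_1a91b9_ntE.D.Mat

/-!
# TwistDensity, phase E, part A, file MatE: the identity for the bordered matrices

`R` is a field of characteristic `2`. The matrix `BB` is the matrix `MM` of phase 1 with one more row
and one more column.
-/

set_option autoImplicit false

namespace Pool.Agent.Lib.MP_1a91b9_ntE

open Finset Pool.Agent.Lib.MP_1a91b9_ntH

noncomputable section

section Ring

variable {R : Type} [Field R] {ι : Type} [DecidableEq ι]

/-- The matrix of a system. -/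
def MM (s : ι → ι → R) (x : ι → R) (S : Finset ι) : Matrix S S R := fun i j =>
  if i = j then x i + ∑ k ∈ S.erase (i : ι), s i k else s i j

/-- (L1) for arbitrary data. -/
theorem L1_gen [CharP R 2] (s : ι → ι → R) (x y : ι → R) (S : Finset ι) :
    ∑ T ∈ S.powerset, (MM s x T).det * ∏ q ∈ S \ T, (y q + ∑ p ∈ T, s q p) =
      ∏ q ∈ S, (x q + y q) := by
  classical
  set v : S → Option (Option S) → R := fun i o => match o with
    | none => x i
    | some none => y i
    | some (some k) => s i k with hv
  have h := L1.main v
  have hr : ∏ i, (v i none + v i (some none)) = ∏ q ∈ S, (x q + y q) := by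
    rw [← prod_coe_sort S]
  rw [hr] at h
  rw [← h]
  refine sum_bij' (fun T _ => (univ.filter fun i : S => (i : ι) ∈ T))
    (fun T _ => T.map ⟨Subtype.val, Subtype.val_injective⟩) ?_ ?_ ?_ ?_ ?_
  · intro T _
    exact mem_univ _
  · intro T _
    rw [mem_powerset]
    intro x hx
    obtain ⟨y, _, rfl⟩ := mem_map.1 hx
    exact y.2
  · intro T hT
    ext x
    simp only [mem_map, mem_filter, mem_univ, true_and, Function.Embedding.coeFn_mk]
    constructor
    · rintro ⟨y, hy, rfl⟩
      exact hy
    · intro hx
      exact ⟨⟨x, (mem_powerset.1 hT) hx⟩, hx, rfl⟩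
  · intro T _
    ext x
    simp
  · intro T hT
    have hTS := mem_powerset.1 hT
    set T' : Finset S := univ.filter fun i : S => (i : ι) ∈ T with hT'
    have hmem : ∀ i : S, i ∈ T' ↔ (i : ι) ∈ T := by
      intro i
      simp [hT']
    rw [Matrix.twoBlockTriangular_det _ (fun i : S => (i : ι) ∈ T)]
    · congr 1
      · let e : T ≃ {i : S // (i : ι) ∈ T} :=
          ⟨fun x => ⟨⟨x, hTS x.2⟩, x.2⟩, fun x => ⟨x.1.1, x.2⟩, fun _ => rfl, fun _ => rfl⟩
        rw [← Matrix.det_submatrix_equiv_self e]
        congr 1
        refine Matrix.ext fun i j => ?_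
        change MM s x T i j = L1.rowMap T' (e i).1 (v (e i).1) (e j).1
        rw [L1.rowMap_apply, if_pos ((hmem _).2 (e i).2)]
        rw [MM]
        by_cases hij : i = j
        · subst hij
          rw [if_pos rfl, if_pos rfl]
          congr 1
          refine sum_bij' (fun k hk => (⟨k, hTS (mem_of_mem_erase hk)⟩ : S))
            (fun k _ => (k : ι)) ?_ ?_ ?_ ?_ ?_
          · intro k hk
            rw [mem_erase] at hk ⊢
            exact ⟨fun e => hk.1 (congrArg Subtype.val e), (hmem _).2 hk.2⟩
          · intro k hk
            rw [mem_erase] at hk ⊢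
            exact ⟨fun e => hk.1 (Subtype.ext e), (hmem _).1 hk.2⟩
          · intro _ _; rfl
          · intro _ _; rfl
          · intro _ _; rfl
        · have h1 : ¬ ((e j : {i : S // (i : ι) ∈ T}) : S) = e i := by
            intro he
            apply hij
            have h2 : (j : ι) = (i : ι) := congrArg (fun z : S => (z : ι)) he
            exact Subtype.ext h2.symm
          rw [if_neg hij, if_neg h1, if_pos ((hmem _).2 (e j).2)]
          rfl
      · have hd : Matrix.toSquareBlockProp (Matrix.of fun i => L1.rowMap T' i (v i))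
            (fun i : S => ¬ (i : ι) ∈ T) = Matrix.diagonal fun i =>
              (y i.1 + ∑ p ∈ T, s i.1 p) := by
          refine Matrix.ext fun i j => ?_
          change L1.rowMap T' i.1 (v i.1) j.1 = _
          rw [L1.rowMap_apply, if_neg fun h => i.2 ((hmem _).1 h)]
          by_cases hij : i = j
          · subst hij
            rw [if_pos rfl, Matrix.diagonal_apply_eq]
            congr 1
            refine (sum_bij' (fun k hk => (⟨k, hTS hk⟩ : S)) (fun k _ => (k : ι)) ?_ ?_ ?_ ?_ ?_).symm
            · intro k hk
              exact (hmem _).2 hk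
            · intro k hk
              exact (hmem _).1 hk
            · intro _ _; rfl
            · intro _ _; rfl
            · intro _ _; rfl
          · rw [Matrix.diagonal_apply_ne _ hij, if_neg fun e => hij (Subtype.ext e.symm)]
        rw [hd, Matrix.det_diagonal]
        refine prod_bij' (fun q hq => (⟨⟨q, (mem_sdiff.1 hq).1⟩, (mem_sdiff.1 hq).2⟩ :
            {i : S // ¬ (i : ι) ∈ T})) (fun q _ => (q.1 : ι)) ?_ ?_ ?_ ?_ ?_
        · intro _ _; exact mem_univ _
        · intro q _
          exact mem_sdiff.2 ⟨q.1.2, q.2⟩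
        · intro _ _; rfl
        · intro _ _; rfl
        · intro _ _; rfl
    · intro i hi j hj
      rw [Matrix.of_apply, L1.rowMap_apply, if_neg fun h => hi ((hmem _).1 h), if_neg]
      rintro rfl
      exact hi hj

/-- The summand. -/
def Fs (s : ι → ι → R) (x tau : ι → R) (D T : Finset ι) : R :=
  (MM s x T).det * ∏ q ∈ D \ T, (x q + tau q + ∑ p ∈ T, s q p)

theorem sum_Fs [CharP R 2] (s : ι → ι → R) (x tau : ι → R) (D : Finset ι) :
    ∑ T ∈ D.powerset, Fs s x tau D T = ∏ q ∈ D, tau q := by
  have h := L1_gen s x (fun q => x q + tau q) D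
  unfold Fs
  rw [h]
  exact prod_congr rfl fun q _ => CharTwo.add_cancel_left _ _

/-- The weighted sum. -/
def Psi (s : ι → ι → R) (be x tau : ι → R) (D : Finset ι) : R :=
  ∑ T ∈ D.powerset, (∑ p ∈ T, be p) * Fs s x tau D T

/-- The sum over the sets with the element `o`. -/
def P1 (s : ι → ι → R) (x tau : ι → R) (D : Finset ι) (o : ι) : R :=
  ∑ T ∈ D.powerset, if o ∈ T then Fs s x tau D T else 0

theorem Psi_eq (s : ι → ι → R) (be x tau : ι → R) (D : Finset ι) :
    Psi s be x tau D = ∑ o ∈ D, be o * P1 s x tau D o := by
  unfold Psi P1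
  simp only [mul_sum]
  rw [sum_comm]
  refine sum_congr rfl fun T hT => ?_
  rw [sum_mul]
  have h : ∀ o ∈ D, be o * (if o ∈ T then Fs s x tau D T else 0) =
      if o ∈ T then be o * Fs s x tau D T else 0 := fun o _ => by
    split_ifs
    · rfl
    · rw [mul_zero]
  rw [sum_congr rfl h, ← sum_filter]
  congr 1
  ext o
  rw [mem_filter]
  exact ⟨fun ho => ⟨(mem_powerset.1 hT) ho, ho⟩, fun ho => ho.2⟩

theorem P1_eq [CharP R 2] (s : ι → ι → R) (x tau : ι → R) {D : Finset ι} {o : ι} (ho : o ∈ D) :
    P1 s x tau D o = x o * ∏ q ∈ D.erase o, tau q + Psi s (s o) x tau (D.erase o) := by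
  obtain ⟨D', hD'⟩ : ∃ D', D' = D.erase o := ⟨_, rfl⟩
  have hoD : o ∉ D' := by
    rw [hD']
    exact notMem_erase o D
  have hD : D = insert o D' := by
    rw [hD', insert_erase ho]
  rw [← hD']
  have h0 := sum_Fs s x tau D
  rw [hD, sum_powerset_insert hoD, prod_insert hoD] at h0
  have h1 : P1 s x tau D o = ∑ T ∈ D'.powerset, Fs s x tau D (insert o T) := by
    unfold P1
    rw [hD, sum_powerset_insert hoD]
    have e1 : ∑ T ∈ D'.powerset, (if o ∈ T then Fs s x tau (insert o D') T else 0) = 0 :=
      sum_eq_zero fun T hT => if_neg fun h => hoD ((mem_powerset.1 hT) h)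
    rw [e1, zero_add]
    exact sum_congr rfl fun T _ => if_pos (mem_insert_self o T)
  have h2 : ∀ T ∈ D'.powerset, Fs s x tau (insert o D') T =
      (x o + tau o) * Fs s x tau D' T + (∑ p ∈ T, s o p) * Fs s x tau D' T := by
    intro T hT
    have hoT : o ∉ T := fun h => hoD ((mem_powerset.1 hT) h)
    unfold Fs
    have e : insert o D' \ T = insert o (D' \ T) := insert_sdiff_of_notMem _ hoT
    rw [e, prod_insert (fun h => hoD (mem_sdiff.1 h).1)]
    ring
  rw [sum_congr rfl h2, sum_add_distrib, ← mul_sum, sum_Fs] at h0
  rw [hD] at h1 ⊢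
  rw [h1]
  unfold Psi
  have h3 : ∀ a b c d e : R, (a + b) * c + d + e = b * c → e = a * c + d := by
    intro a b c d e h
    have h2 : (2 : R) = 0 := CharTwo.two_eq_zero
    linear_combination h - (a * c + d) * h2
  exact h3 _ _ _ _ _ h0

/-- (M1) -/
theorem Psi_add [CharP R 2] (s : ι → ι → R) (x x' tau : ι → R) :
    ∀ (n : ℕ) (D : Finset ι) (be : ι → R), D.card = n →
      Psi s be (fun q => x q + x' q) tau D = Psi s be x tau D + Psi s be x' tau D := by
  intro n
  induction n with
  | zero =>
    intro D be hD
    rw [card_eq_zero] at hD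
    subst hD
    simp [Psi]
  | succ n ih =>
    intro D be hD
    rw [Psi_eq, Psi_eq, Psi_eq, ← sum_add_distrib]
    refine sum_congr rfl fun o ho => ?_
    rw [P1_eq s _ tau ho, P1_eq s _ tau ho, P1_eq s _ tau ho, ih (D.erase o) (s o) (by
      rw [card_erase_of_mem ho, hD]
      rfl)]
    ring

/-- The bordered matrix. -/
def BB (s : ι → ι → R) (x a be : ι → R) (z : R) (S : Finset ι) :
    Matrix (Option S) (Option S) R := fun i j =>
  match i, j with
  | some i, some j => MM s x S i j
  | some i, none => a i
  | none, some j => be j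
  | none, none => z

theorem BB_row (s : ι → ι → R) (x a be : ι → R) (S : Finset ι) :
    ((BB s x a be 0 S).updateRow none (Pi.single none 1)).det = (MM s x S).det := by
  let e : S ⊕ Unit ≃ Option S := (Equiv.optionEquivSumPUnit S).symm
  rw [← Matrix.det_submatrix_equiv_self e]
  have h : ((BB s x a be 0 S).updateRow none (Pi.single none 1)).submatrix e e =
      Matrix.fromBlocks (MM s x S) (fun i _ => a i) 0 1 := by
    ext i j
    rcases i with i | i
    · rcases j with j | j
      · rfl
      · rfl
    · rcases j with j | j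
      · rfl
      · rfl
  rw [h, Matrix.det_fromBlocks_zero₂₁, Matrix.det_one, mul_one]

theorem BB_corner (s : ι → ι → R) (x a be : ι → R) (z : R) (S : Finset ι) :
    (BB s x a be z S).det = z * (MM s x S).det + (BB s x a be 0 S).det := by
  have h : BB s x a be z S = (BB s x a be 0 S).updateRow none
      (z • (Pi.single none 1 : Option S → R) + BB s x a be 0 S none) := by
    ext i j
    rcases i with _ | i
    · rw [Matrix.updateRow_self]
      rcases j with _ | j
      · simp [BB]
      · simp [BB]
    · rw [Matrix.updateRow_ne (Option.some_ne_none i)]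
      rcases j with _ | j
      · rfl
      · rfl
  rw [h, Matrix.det_updateRow_add, Matrix.det_updateRow_smul, BB_row, Matrix.updateRow_eq_self]

private theorem map_sdiff_some (D T : Finset ι) :
    (D \ T).map Function.Embedding.some =
      D.map Function.Embedding.some \ T.map Function.Embedding.some := by
  ext i
  simp only [mem_map, mem_sdiff]
  constructor
  · rintro ⟨y, ⟨h1, h2⟩, rfl⟩
    refine ⟨⟨y, h1, rfl⟩, ?_⟩
    rintro ⟨z, hz, h⟩
    rw [Function.Embedding.some.injective h] at hz
    exact h2 hz
  · rintro ⟨⟨y, h1, rfl⟩, h2⟩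
    exact ⟨y, ⟨h1, fun h => h2 ⟨y, h, rfl⟩⟩, rfl⟩

/-- the system with one more vertex -/
private def sx (s : ι → ι → R) (a be : ι → R) : Option ι → Option ι → R := fun i j =>
  match i, j with
  | some i, some j => s i j
  | some i, none => a i
  | none, some j => be j
  | none, none => 0

private def ox (x : ι → R) (z : R) : Option ι → R := fun i =>
  match i with
  | some i => x i
  | none => z

private theorem det_map (s : ι → ι → R) (x a be : ι → R) (z : R) (T : Finset ι) :
    (MM (sx s a be) (ox x z) (T.map Function.Embedding.some)).det = (MM s x T).det := by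
  let g : T → (T.map Function.Embedding.some : Finset (Option ι)) := fun i =>
    ⟨some (i : ι), mem_map_of_mem _ i.2⟩
  have hg : Function.Bijective g := by
    constructor
    · intro i j h
      have h1 : (some (i : ι)) = some (j : ι) := congrArg Subtype.val h
      rw [Option.some_inj] at h1
      exact Subtype.ext h1
    · rintro ⟨j, hj⟩
      obtain ⟨y, hy, h1⟩ := mem_map.1 hj
      exact ⟨⟨y, hy⟩, Subtype.ext h1⟩
  let e := Equiv.ofBijective g hg
  rw [← Matrix.det_submatrix_equiv_self e]
  congr 1
  ext i j
  rw [Matrix.submatrix_apply]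
  unfold MM
  have e1 : ((e i : (T.map Function.Embedding.some : Finset (Option ι))) : Option ι) =
      some (i : ι) := rfl
  have e2 : ((e j : (T.map Function.Embedding.some : Finset (Option ι))) : Option ι) =
      some (j : ι) := rfl
  by_cases h : i = j
  · subst h
    rw [if_pos rfl, if_pos rfl, e1]
    have e3 : (T.map Function.Embedding.some).erase (some (i : ι)) =
        (T.erase (i : ι)).map Function.Embedding.some := (map_erase _ _ _).symm
    rw [e3, sum_map]
    rfl
  · rw [if_neg h, if_neg (fun h1 => h (e.injective h1)), e1, e2]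
    rfl

private theorem det_ins [CharP R 2] (s : ι → ι → R) (x a be : ι → R) (T : Finset ι) :
    (MM (sx s a be) (ox (fun q => x q + a q) 0)
      (insert none (T.map Function.Embedding.some))).det =
        (BB s x a be (∑ p ∈ T, be p) T).det := by
  have hn : (none : Option ι) ∉ T.map Function.Embedding.some := by simp
  let g : Option T → (insert none (T.map Function.Embedding.some) : Finset (Option ι)) := fun i =>
    match i with
    | none => ⟨none, mem_insert_self _ _⟩
    | some i => ⟨some (i : ι), mem_insert_of_mem (mem_map_of_mem _ i.2)⟩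
  have hg : Function.Bijective g := by
    constructor
    · intro i j h
      rcases i with _ | i
      · rcases j with _ | j
        · rfl
        · exact absurd (congrArg Subtype.val h) (Option.some_ne_none _).symm
      · rcases j with _ | j
        · exact absurd (congrArg Subtype.val h) (Option.some_ne_none _)
        · have h1 : (some (i : ι)) = some (j : ι) := congrArg Subtype.val h
          rw [Option.some_inj] at h1
          rw [Subtype.ext h1]
    · rintro ⟨j, hj⟩
      rcases mem_insert.1 hj with h | h
      · exact ⟨none, Subtype.ext h.symm⟩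
      · obtain ⟨y, hy, h1⟩ := mem_map.1 h
        exact ⟨some ⟨y, hy⟩, Subtype.ext h1⟩
  let e := Equiv.ofBijective g hg
  rw [← Matrix.det_submatrix_equiv_self e]
  congr 1
  ext i j
  rw [Matrix.submatrix_apply]
  unfold MM
  rcases i with _ | i
  · rcases j with _ | j
    · rw [if_pos rfl]
      have e1 : ((e none : (insert none (T.map Function.Embedding.some) : Finset (Option ι))) :
        Option ι) = none := rfl
      rw [e1, erase_insert hn, sum_map]
      change 0 + ∑ p ∈ T, be p = ∑ p ∈ T, be p
      rw [zero_add]
    · have e1 : ((e none : (insert none (T.map Function.Embedding.some) : Finset (Option ι))) :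
        Option ι) = none := rfl
      have e2 : ((e (some j) : (insert none (T.map Function.Embedding.some) : Finset (Option ι))) :
        Option ι) = some (j : ι) := rfl
      rw [if_neg (fun h => absurd (e.injective h) (Option.some_ne_none j).symm), e1, e2]
      rfl
  · have e1 : ((e (some i) : (insert none (T.map Function.Embedding.some) : Finset (Option ι))) :
        Option ι) = some (i : ι) := rfl
    rcases j with _ | j
    · have e2 : ((e none : (insert none (T.map Function.Embedding.some) : Finset (Option ι))) :
        Option ι) = none := rfl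
      rw [if_neg (fun h => absurd (e.injective h) (Option.some_ne_none i)), e1, e2]
      rfl
    · have e2 : ((e (some j) : (insert none (T.map Function.Embedding.some) : Finset (Option ι))) :
        Option ι) = some (j : ι) := rfl
      by_cases h : i = j
      · subst h
        rw [if_pos rfl, e1]
        have e3 : (insert none (T.map Function.Embedding.some)).erase (some (i : ι)) =
            insert none ((T.erase (i : ι)).map Function.Embedding.some) := by
          rw [erase_insert_of_ne (Option.some_ne_none (i : ι)).symm]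
          congr 1
          exact (map_erase _ _ _).symm
        have hn' : (none : Option ι) ∉ (T.erase (i : ι)).map Function.Embedding.some := by simp
        rw [e3, sum_insert hn', sum_map]
        change x i + a i + (a i + ∑ k ∈ T.erase (i : ι), s i k) =
          if i = i then x i + ∑ k ∈ T.erase (i : ι), s i k else s i i
        rw [if_pos rfl]
        have h2 : (2 : R) = 0 := CharTwo.two_eq_zero
        linear_combination (a i) * h2
      · rw [if_neg (fun h1 => h (Option.some_injective _ (e.injective h1))), e1, e2]
        change s i j = if i = j then x i + ∑ k ∈ T.erase (i : ι), s i k else s i j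
        rw [if_neg h]

/-- (M2) -/
theorem sum_BB [CharP R 2] (s : ι → ι → R) (x a be tau : ι → R) (D : Finset ι) :
    ∑ S ∈ D.powerset, (BB s x a be 0 S).det * ∏ q ∈ D \ S, (x q + tau q + ∑ p ∈ S, s q p) =
      Psi s be a tau D := by
  have h0 := L1_gen (sx s a be) (ox (fun q => x q + a q) 0)
    (ox (fun q => x q + a q + tau q) 1) (insert none (D.map Function.Embedding.some))
  have hn : (none : Option ι) ∉ D.map Function.Embedding.some := by simp
  rw [sum_powerset_insert hn, prod_insert hn, prod_map] at h0
  have hp : (D.map Function.Embedding.some).powerset =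
      D.powerset.map (⟨fun T => T.map Function.Embedding.some, map_injective _⟩ :
        Finset ι ↪ Finset (Option ι)) := by
    ext T
    rw [mem_powerset, mem_map]
    constructor
    · intro h
      obtain ⟨u, hu, rfl⟩ := subset_map_iff.1 h
      exact ⟨u, mem_powerset.2 hu, rfl⟩
    · rintro ⟨u, hu, rfl⟩
      exact map_subset_map.2 (mem_powerset.1 hu)
  rw [hp, sum_map, sum_map] at h0
  have h1 : ∀ T ∈ D.powerset,
      (MM (sx s a be) (ox (fun q => x q + a q) 0) (T.map Function.Embedding.some)).det *
        ∏ q ∈ insert none (D.map Function.Embedding.some) \ T.map Function.Embedding.some,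
          (ox (fun q => x q + a q + tau q) 1 q +
            ∑ p ∈ T.map Function.Embedding.some, sx s a be q p) =
      Fs s (fun q => x q + a q) tau D T + (∑ p ∈ T, be p) * Fs s (fun q => x q + a q) tau D T := by
    intro T hT
    have e : insert none (D.map Function.Embedding.some) \ T.map Function.Embedding.some =
        insert none ((D \ T).map Function.Embedding.some) := by
      rw [insert_sdiff_of_notMem _ (by simp)]
      congr 1
      exact (map_sdiff_some _ _).symm
    have hn' : (none : Option ι) ∉ (D \ T).map Function.Embedding.some := by simp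
    rw [det_map, e, prod_insert hn', prod_map, sum_map]
    simp only [sum_map]
    unfold Fs
    change (MM s (fun q => x q + a q) T).det * ((1 + ∑ p ∈ T, be p) *
      ∏ q ∈ D \ T, (x q + a q + tau q + ∑ p ∈ T, s q p)) = _
    ring
  have h2 : ∀ T ∈ D.powerset,
      (MM (sx s a be) (ox (fun q => x q + a q) 0)
        (insert none (T.map Function.Embedding.some))).det *
        ∏ q ∈ insert none (D.map Function.Embedding.some) \
            insert none (T.map Function.Embedding.some),
          (ox (fun q => x q + a q + tau q) 1 q +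
            ∑ p ∈ insert none (T.map Function.Embedding.some), sx s a be q p) =
      (BB s x a be 0 T).det * ∏ q ∈ D \ T, (x q + tau q + ∑ p ∈ T, s q p) +
        (∑ p ∈ T, be p) * Fs s x tau D T := by
    intro T hT
    have e : insert none (D.map Function.Embedding.some) \
        insert none (T.map Function.Embedding.some) = (D \ T).map Function.Embedding.some := by
      rw [insert_sdiff_insert, sdiff_insert_of_notMem hn]
      exact (map_sdiff_some _ _).symm
    have hn' : (none : Option ι) ∉ T.map Function.Embedding.some := by simp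
    rw [det_ins, e, prod_map, BB_corner]
    simp only [sum_insert hn', sum_map]
    have e1 : ∀ q ∈ D \ T, (ox (fun q => x q + a q + tau q) 1 (Function.Embedding.some q) +
        (sx s a be (Function.Embedding.some q) none +
          ∑ p ∈ T, sx s a be (Function.Embedding.some q) (Function.Embedding.some p))) =
        x q + tau q + ∑ p ∈ T, s q p := by
      intro q _
      change x q + a q + tau q + (a q + ∑ p ∈ T, s q p) = _
      have h2 : (2 : R) = 0 := CharTwo.two_eq_zero
      linear_combination (a q) * h2
    rw [prod_congr rfl e1]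
    unfold Fs
    ring
  have h3 : (ox (fun q => x q + a q) 0 (none : Option ι) +
      ox (fun q => x q + a q + tau q) 1 none) *
      ∏ q ∈ D, (ox (fun q => x q + a q) 0 (Function.Embedding.some q) +
        ox (fun q => x q + a q + tau q) 1 (Function.Embedding.some q)) = ∏ q ∈ D, tau q := by
    change (0 + 1) * ∏ q ∈ D, (x q + a q + (x q + a q + tau q)) = _
    rw [zero_add, one_mul]
    exact prod_congr rfl fun q _ => CharTwo.add_cancel_left _ _
  rw [h3] at h0
  change (∑ T ∈ D.powerset,
      (MM (sx s a be) (ox (fun q => x q + a q) 0) (T.map Function.Embedding.some)).det *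
        ∏ q ∈ insert none (D.map Function.Embedding.some) \ T.map Function.Embedding.some,
          (ox (fun q => x q + a q + tau q) 1 q +
            ∑ p ∈ T.map Function.Embedding.some, sx s a be q p)) +
    (∑ T ∈ D.powerset,
      (MM (sx s a be) (ox (fun q => x q + a q) 0)
        (insert none (T.map Function.Embedding.some))).det *
        ∏ q ∈ insert none (D.map Function.Embedding.some) \
            insert none (T.map Function.Embedding.some),
          (ox (fun q => x q + a q + tau q) 1 q +
            ∑ p ∈ insert none (T.map Function.Embedding.some), sx s a be q p)) = _ at h0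
  rw [sum_congr rfl h1, sum_congr rfl h2, sum_add_distrib, sum_add_distrib, sum_Fs] at h0
  have h4 := Psi_add s x a tau D.card D be rfl
  have h5 : ∑ T ∈ D.powerset, (∑ p ∈ T, be p) * Fs s (fun q => x q + a q) tau D T =
    Psi s be (fun q => x q + a q) tau D := rfl
  have h6 : ∑ T ∈ D.powerset, (∑ p ∈ T, be p) * Fs s x tau D T = Psi s be x tau D := rfl
  rw [h5, h6, h4] at h0
  have h2' : (2 : R) = 0 := CharTwo.two_eq_zero
  linear_combination h0 - (Psi s be x tau D + Psi s be a tau D) * h2'

end Ring

section F4

variable {ι : Type} [DecidableEq ι]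

private theorem cj_of (x : ZMod 2) : F4.cj (F4.of x) = F4.of x := by
  revert x
  decide

private theorem cj_add (x y : F4) : F4.cj (x + y) = F4.cj x + F4.cj y := by
  revert x y
  decide

private theorem cj_mul (x y : F4) : F4.cj (x * y) = F4.cj x * F4.cj y := by
  revert x y
  decide

private theorem of_add (x y : ZMod 2) : F4.of (x + y) = F4.of x + F4.of y := by
  revert x y
  decide

private theorem cj_cj (x : F4) : F4.cj (F4.cj x) = x := by
  revert x
  decide

/-- the Frobenius -/
private def cjh : F4 →+* F4 where
  toFun := F4.cj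
  map_one' := rfl
  map_mul' := cj_mul
  map_zero' := rfl
  map_add' := cj_add

/-- the inclusion of the prime field -/
private def ofh : ZMod 2 →+ F4 where
  toFun := F4.of
  map_zero' := rfl
  map_add' := of_add

private theorem det_NE (D : DatE ι) (c : F4) (S : Finset ι) :
    (D.NE c S).det = c * (MM (fun q p => F4.of (D.s q p))
      (fun q => F4.cj (D.a q) + F4.of (F4.tr (c * D.a q)) + F4.of (D.g q)) S).det +
      (BB (fun q p => F4.of (D.s q p))
      (fun q => F4.cj (D.a q) + F4.of (F4.tr (c * D.a q)) + F4.of (D.g q)) D.a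
      (fun q => F4.of (F4.tr (D.a q) + D.g q)) 0 S).det := by
  rw [← BB_corner]
  let e : S ⊕ Unit ≃ Option S := (Equiv.optionEquivSumPUnit S).symm
  rw [← Matrix.det_submatrix_equiv_self e]
  congr 1
  refine Matrix.ext fun i j => ?_
  rcases i with i | i
  · rcases j with j | j
    · rfl
    · rfl
  · rcases j with j | j
    · rfl
    · rfl

private theorem cj_M (D : DatE ι) (S : Finset ι) :
    F4.cj (D.M S).det = (MM (fun q p => F4.of (D.s q p)) D.a S).det := by
  have h := cjh.map_det (D.M S)
  change F4.cj (D.M S).det = _ at h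
  rw [h]
  congr 1
  refine Matrix.ext fun i j => ?_
  change F4.cj (D.M S i j) = _
  unfold Dat.M MM
  split_ifs
  · rw [cj_add, cj_cj]
    congr 1
    have h1 := map_sum cjh (fun k => F4.of (D.s i k)) (S.erase (i : ι))
    change F4.cj (∑ k ∈ S.erase (i : ι), F4.of (D.s i k)) =
      ∑ k ∈ S.erase (i : ι), F4.cj (F4.of (D.s i k)) at h1
    rw [h1]
    exact sum_congr rfl fun k _ => cj_of _
  · exact cj_of _

/-- (M3) The identity for the even classes. -/
theorem sum_NE (D : DatE ι) (c : F4) (T : Finset ι) :
    ∑ S ∈ T.powerset, (D.NE c S).det * ∏ q ∈ T \ S,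
      (D.a q + F4.of (F4.tr (c * D.a q)) + F4.of (D.g q) + ∑ p ∈ S, F4.of (D.s q p)) =
      F4.cj (D.KAP T) + c * ∏ q ∈ T, F4.of (F4.tr (D.a q)) := by
  have hx : ∀ (S : Finset ι) (q : ι), D.a q + F4.of (F4.tr (c * D.a q)) + F4.of (D.g q) +
      ∑ p ∈ S, F4.of (D.s q p) = (F4.cj (D.a q) + F4.of (F4.tr (c * D.a q)) + F4.of (D.g q)) +
      F4.of (F4.tr (D.a q)) + ∑ p ∈ S, F4.of (D.s q p) := by
    intro S q
    have h : ∀ a : F4, a = F4.cj a + F4.of (F4.tr a) := by decide
    linear_combination h (D.a q)
  simp only [hx, det_NE, add_mul]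
  rw [sum_add_distrib, sum_BB]
  have h1 := sum_Fs (fun q p => F4.of (D.s q p))
    (fun q => F4.cj (D.a q) + F4.of (F4.tr (c * D.a q)) + F4.of (D.g q))
    (fun q => F4.of (F4.tr (D.a q))) T
  unfold Fs at h1
  simp only [mul_assoc]
  rw [← mul_sum, h1, add_comm]
  congr 1
  have h2 : F4.cj (D.KAP T) = ∑ S ∈ T.powerset,
      F4.cj (if ∑ q ∈ S, (F4.tr (D.a q) + D.g q) = 1 then
        (D.M S).det * ∏ q ∈ T \ S, (D.a q + ∑ p ∈ S, F4.of (D.s q p)) else 0) :=
    map_sum cjh _ _
  rw [h2]
  unfold Psi
  refine sum_congr rfl fun S _ => ?_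
  have h3 : ∑ p ∈ S, F4.of (F4.tr (D.a p) + D.g p) = F4.of (∑ p ∈ S, (F4.tr (D.a p) + D.g p)) :=
    (map_sum ofh _ _).symm
  rw [h3]
  have h4 : F4.cj (∏ q ∈ T \ S, (D.a q + ∑ p ∈ S, F4.of (D.s q p))) =
      ∏ q ∈ T \ S, (D.a q + F4.of (F4.tr (D.a q)) + ∑ p ∈ S, F4.of (D.s q p)) := by
    have h5 := map_prod cjh (fun q => D.a q + ∑ p ∈ S, F4.of (D.s q p)) (T \ S)
    change F4.cj _ = ∏ q ∈ T \ S, F4.cj (D.a q + ∑ p ∈ S, F4.of (D.s q p)) at h5
    rw [h5]
    refine prod_congr rfl fun q _ => ?_
    rw [cj_add]
    have h6 : F4.cj (∑ p ∈ S, F4.of (D.s q p)) = ∑ p ∈ S, F4.of (D.s q p) := by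
      have h7 := map_sum cjh (fun p => F4.of (D.s q p)) S
      change F4.cj _ = ∑ p ∈ S, F4.cj (F4.of (D.s q p)) at h7
      rw [h7]
      exact sum_congr rfl fun k _ => cj_of _
    rw [h6]
    have h : ∀ a : F4, F4.cj a = a + F4.of (F4.tr a) := by decide
    rw [h]
  obtain ⟨t, ht⟩ : ∃ t, t = ∑ p ∈ S, (F4.tr (D.a p) + D.g p) := ⟨_, rfl⟩
  rw [← ht]
  have h8 : t = 0 ∨ t = 1 := by
    clear ht
    revert t
    decide
  rcases h8 with h8 | h8
  · rw [h8, if_neg (by decide)]
    have h9 : F4.of 0 = 0 := rfl
    rw [h9, zero_mul]
    rfl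
  · rw [h8, if_pos rfl]
    have h9 : F4.of 1 = 1 := rfl
    rw [h9, one_mul, cj_mul, cj_M, h4]
    rfl

end F4

end

end Pool.Agent.Lib.MP_1a91b9_ntE
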