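import Pool.Agent.Lib.MP_1a91b9_ntE.A.Em
import Pool.Agent.Lib.MP_1a91b9_ntE.R.Two
import Pool.Agent.Lib.MP_1a91b9_ntH2.A.SumC

/-!
# TwistDensity, even case, part A, file SumE: the sign `sge`, the character `chie` of `2 dlc c S`,
and the representatives modulo `24 DD D`
-/

set_option autoImplicit false

namespace Pool.Agent.Lib.MP_1a91b9_ntE

open NumberField IsDedekindDomain Pool.Agent.Lib.MP_1a91b9_ntT Pool.Agent.Lib.MP_1a91b9_ntG
  Pool.Agent.Lib.MP_1a91b9_ntH Pool.Agent.Lib.MP_1a91b9_ntH2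

noncomputable section

/-! ### The symbol of `2` on the elements congruent to `1` modulo `2` -/

theorem SumE_Nz_odd {x : 𝓞 K} (h : (2 : 𝓞 K) ∣ x - 1) : Nz x % 2 = 1 := by
  obtain ⟨t, ht⟩ := h
  have e : x = ((1 + 2 * (cp t).1 : ℤ) : 𝓞 K) + ((2 * (cp t).2 : ℤ) : 𝓞 K) * wO := by
    have h2 := eq_cp t
    push_cast
    linear_combination ht + 2 * h2
  have h1 := Nz_coords (1 + 2 * (cp t).1) (2 * (cp t).2)
  rw [← e] at h1
  have h3 : (Nz x : ℤ) = 1 + 2 * (2 * (cp t).1 + 2 * (cp t).1 ^ 2 - (cp t).2 -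
      2 * (cp t).1 * (cp t).2 + 2 * (cp t).2 ^ 2) := by
    rw [h1]
    ring
  omega

theorem SumE_tw2_mul {x y : 𝓞 K} (hx : (2 : 𝓞 K) ∣ x - 1) (hy : (2 : 𝓞 K) ∣ y - 1) :
    tw2 (x * y) = tw2 x + tw2 y := by
  unfold tw2
  rw [Nz_mul]
  exact t8_mul (SumE_Nz_odd hx) (SumE_Nz_odd hy)

theorem SumE_tw2_neg (x : 𝓞 K) : tw2 (-x) = tw2 x := by
  have h : Nz (-x) = Nz x := by rw [← neg_one_mul, Nz_mul, Nz_neg_one, one_mul]
  unfold tw2
  rw [h]

theorem SumE_t8_add {n : ℕ} (hn : n % 2 = 1) (k : ℕ) : t8 (n + 4 * k) = t8 n + (k : ZMod 2) := by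
  have h1 : (n + 4 * k) % 8 = (n % 8 + 4 * (k % 2)) % 8 := by omega
  have h2 : n % 8 = 1 ∨ n % 8 = 3 ∨ n % 8 = 5 ∨ n % 8 = 7 := by omega
  have h3 : ((k : ℕ) : ZMod 2) = ((k % 2 : ℕ) : ZMod 2) := by rw [ZMod.natCast_mod]
  unfold t8
  rw [h1, h3]
  rcases h2 with h2 | h2 | h2 | h2 <;> rcases Nat.mod_two_eq_zero_or_one k with h4 | h4 <;>
    rw [h2, h4] <;> rfl

/-! ### The sign -/

/-- the sign of the class of `x` modulo `8` -/
def sge (c : F4) (x : 𝓞 K) : ℤ := sgc c x * sgz (tw2 x)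

theorem SumE_sge_cases (c : F4) (x : 𝓞 K) : sge c x = 1 ∨ sge c x = -1 := by
  rw [sge]
  rcases SumC_sgc_cases c x with h | h <;> rcases sgz_cases (tw2 x) with h1 | h1 <;> rw [h, h1] <;>
    norm_num

theorem SumE_sge_one (c : F4) : sge c 1 = 1 := by
  rw [sge, SumC_sgc_one, tw2_one]
  rfl

theorem SumE_sge_mul {c : F4} {x y : 𝓞 K} (hx : (2 : 𝓞 K) ∣ x - 1) (hy : (2 : 𝓞 K) ∣ y - 1) :
    sge c (x * y) = sge c x * sge c y := by
  rw [sge, SumC_sgc_mul hx hy, SumE_tw2_mul hx hy, sgz_add, sge, sge]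
  ring

theorem SumE_sge_congr {c : F4} {x y : 𝓞 K} (hx : (2 : 𝓞 K) ∣ x - 1) (h : (8 : 𝓞 K) ∣ x - y) :
    sge c x = sge c y := by
  rw [sge, SumC_sgc_congr hx ((show (4 : 𝓞 K) ∣ 8 from ⟨2, by norm_num⟩).trans h), tw2_congr h]
  rfl

/-! ### The character `chie` -/

/-- The quadratic character of `2 * dlc c S`, on the elements congruent to `1` modulo `2`. -/
def chie (c : F4) (S : Finset Pq) (x : 𝓞 K) : ℤ := chi S x * sge c x

theorem SumE_chie_eq (c : F4) (S : Finset Pq) (x : 𝓞 K) : chie c S x = chi S x * sge c x := rfl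

theorem SumE_chie_chic (c : F4) (S : Finset Pq) (x : 𝓞 K) :
    chie c S x = chic c S x * sgz (tw2 x) := by
  rw [SumE_chie_eq, SumC_chic_eq, sge, mul_assoc]

theorem SumE_chie_one (c : F4) (S : Finset Pq) : chie c S 1 = 1 := by
  rw [SumE_chie_eq, chi_one, SumE_sge_one, mul_one]

theorem SumE_chie_mul {c : F4} {S : Finset Pq} {x y : 𝓞 K} (hx : (2 : 𝓞 K) ∣ x - 1)
    (hy : (2 : 𝓞 K) ∣ y - 1) : chie c S (x * y) = chie c S x * chie c S y := by
  rw [SumE_chie_eq, SumE_chie_eq, SumE_chie_eq, chi_mul, SumE_sge_mul hx hy]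
  ring

theorem SumE_chie_congr {c : F4} {S : Finset Pq} {x y : 𝓞 K} (hx : (2 : 𝓞 K) ∣ x - 1)
    (h8 : (8 : 𝓞 K) ∣ x - y) (h : DD S ∣ x - y) : chie c S x = chie c S y := by
  rw [SumE_chie_eq, SumE_chie_eq, chi_congr h, SumE_sge_congr hx h8]

theorem SumE_chie_cases (c : F4) (S : Finset Pq) (x : 𝓞 K) :
    chie c S x = 0 ∨ chie c S x = 1 ∨ chie c S x = -1 := by
  rw [SumE_chie_eq]
  rcases chi_cases S x with h | h | h <;> rcases SumE_sge_cases c x with h1 | h1 <;> rw [h, h1] <;> simp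

theorem SumE_norm_chie (c : F4) (S : Finset Pq) (x : 𝓞 K) : ‖(chie c S x : ℂ)‖ ≤ 1 := by
  rcases SumE_chie_cases c S x with h | h | h <;> rw [h] <;> simp

theorem SumE_chie_eq_zero {c : F4} {S : Finset Pq} {x : 𝓞 K} :
    chie c S x = 0 ↔ ∃ p ∈ S, p.1 ∣ x := by
  rw [← chi_eq_zero, SumE_chie_eq, mul_eq_zero]
  constructor
  · rintro (h | h)
    · exact h
    · rcases SumE_sge_cases c x with h1 | h1 <;> rw [h1] at h <;> norm_num at h
  · exact fun h => Or.inl h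

theorem SumE_chie_coprime {c : F4} {S : Finset Pq} {x : 𝓞 K} :
    chie c S x = 0 ↔ ¬ IsCoprime x (DD S) := by
  rw [SumE_chie_eq_zero, ← chi_eq_zero, chi_coprime]

theorem SumE_chie_neg {c : F4} {S : Finset Pq} (h : (qd.A S + c).b ≠ 0) {a : 𝓞 K}
    (ha : (2 : 𝓞 K) ∣ a - 1) : chie c S (-a) = -chie c S a := by
  rw [SumE_chie_chic, SumC_chic_neg h ha, SumE_tw2_neg, SumE_chie_chic]
  ring

/-! ### The representatives modulo `24 DD D` -/

theorem SumE_cop_24 {a : 𝓞 K} (h : f0 ∣ a - 1) : IsCoprime a 24 := by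
  have e : (24 : 𝓞 K) = 12 * 2 := by norm_num
  rw [e]
  exact IsCoprime.mul_right (SumC_cop_twelve h) (SumC_cop_two h)

theorem SumE_cop_iff {a : 𝓞 K} (h : f0 ∣ a - 1) (D : Finset Pq) :
    IsCoprime a (24 * DD D) ↔ IsCoprime a (DD D) :=
  ⟨fun h1 => h1.of_isCoprime_of_dvd_right (dvd_mul_left _ _),
    fun h1 => IsCoprime.mul_right (SumE_cop_24 h) h1⟩

/-- representatives modulo `24 DD D` from the representatives modulo `12 DD D` -/
theorem repsE {D : Finset Pq} {ι : Type} {c : ι → 𝓞 K} (h : Reps (12 * DD D) c) :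
    Reps (24 * DD D) (fun p : ι × F4 => c p.1 + 12 * DD D * lft p.2) where
  ne := mul_ne_zero (by norm_num) (DD_ne D)
  dvd := ⟨4 * DD D, by ring⟩
  fx := by
    rintro ⟨i, x⟩
    have e : c i + 12 * DD D * lft x - 1 = (c i - 1) + 6 * (2 * DD D * lft x) := by ring
    change f0 ∣ c i + 12 * DD D * lft x - 1
    rw [e]
    exact dvd_add (h.fx i) (f0_dvd_six.mul_right _)
  cop := by
    rintro ⟨i, x⟩
    change IsCoprime (c i + 12 * DD D * lft x) (24 * DD D)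
    have e : c i + 12 * DD D * lft x - 1 = (c i - 1) + 6 * (2 * DD D * lft x) := by ring
    have h1 : f0 ∣ c i + 12 * DD D * lft x - 1 := by
      rw [e]
      exact dvd_add (h.fx i) (f0_dvd_six.mul_right _)
    rw [SumE_cop_iff h1]
    obtain ⟨p, q, hpq⟩ := (SumC_cop_iff (h.fx i) D).1 (h.cop i)
    exact ⟨p, q - p * 12 * lft x, by linear_combination hpq⟩
  ex := by
    intro a ha h1
    obtain ⟨i, e, he⟩ := h.ex a ((SumC_cop_iff h1 D).2 ((SumE_cop_iff h1 D).1 ha)) h1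
    have h2 : red e = red (lft (red e)) := (red_lft _).symm
    obtain ⟨t, ht⟩ := red_eq.1 h2
    exact ⟨(i, red e), t, by
      change a - (c i + 12 * DD D * lft (red e)) = _
      linear_combination he + 12 * DD D * ht⟩
  inj := by
    rintro ⟨i, x⟩ ⟨j, y⟩ ⟨t, ht⟩
    change c i + 12 * DD D * lft x - (c j + 12 * DD D * lft y) = _ at ht
    have h1 : i = j := h.inj i j ⟨2 * t - lft x + lft y, by linear_combination ht⟩
    subst h1
    have h2 : 12 * DD D * (lft x - lft y) = 12 * DD D * (2 * t) := by linear_combination ht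
    have h3 : lft x - lft y = 2 * t := mul_left_cancel₀ h.ne h2
    have h4 : red (lft x) = red (lft y) := red_eq.2 ⟨t, h3⟩
    rw [red_lft, red_lft] at h4
    rw [h4]

theorem SumE_qs {D : Finset Pq} {q : Pq} (hq : q ∈ D) (a e : 𝓞 K) :
    qs q (a + 12 * DD D * e) = qs q a := by
  have e1 : a + 12 * DD D * e = a + 6 * DD D * (2 * e) := by ring
  rw [e1, SumC_qs hq]

/-- the norm of a sum, modulo `8` -/
theorem SumE_Nz_add {a : 𝓞 K} (ha : (2 : 𝓞 K) ∣ a - 1) (e : 𝓞 K) :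
    ∃ k : ℕ, (Nz (a + 4 * e) % 8 = (Nz a + 4 * k) % 8) ∧ ((k : ℕ) : ZMod 2) = F4.tr (red e) := by
  obtain ⟨t, ht⟩ := ha
  have e1 : a = ((1 + 2 * (cp t).1 : ℤ) : 𝓞 K) + ((2 * (cp t).2 : ℤ) : 𝓞 K) * wO := by
    have h2 := eq_cp t
    push_cast
    linear_combination ht + 2 * h2
  have e2 : a + 4 * e = ((1 + 2 * (cp t).1 + 4 * (cp e).1 : ℤ) : 𝓞 K) +
      ((2 * (cp t).2 + 4 * (cp e).2 : ℤ) : 𝓞 K) * wO := by
    have h2 := eq_cp e
    push_cast at e1 ⊢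
    linear_combination e1 + 4 * h2
  have h1 := Nz_coords (1 + 2 * (cp t).1) (2 * (cp t).2)
  rw [← e1] at h1
  have h2 := Nz_coords (1 + 2 * (cp t).1 + 4 * (cp e).1) (2 * (cp t).2 + 4 * (cp e).2)
  rw [← e2] at h2
  refine ⟨(cp e).2.natAbs, ?_, ?_⟩
  · have h3 : (Nz (a + 4 * e) : ℤ) = Nz a + 8 * ((1 + 2 * (cp t).1) * (cp e).1 + 2 * (cp e).1 ^ 2 -
        (cp t).1 * (cp e).2 - (cp e).1 * (cp t).2 - 2 * (cp e).1 * (cp e).2 +
        2 * (cp t).2 * (cp e).2 + 2 * (cp e).2 ^ 2) - 4 * (cp e).2 := by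
      rw [h1, h2]
      ring
    omega
  · have h4 : F4.tr (red e) = (((cp e).2 : ℤ) : ZMod 2) := rfl
    have h6 : (((cp e).2.natAbs : ℤ) : ZMod 2) = (((cp e).2 : ℤ) : ZMod 2) := by
      have h7 := (ZMod.intCast_eq_intCast_iff_dvd_sub ((cp e).2.natAbs : ℤ) ((cp e).2) 2).2
      apply h7
      generalize (cp e).2 = n
      change (2 : ℤ) ∣ n - (n.natAbs : ℤ)
      omega
    rw [h4, ← h6, Int.cast_natCast]

/-- the change of the symbol of `2` -/
theorem SumE_tw2_add {a : 𝓞 K} (ha : (2 : 𝓞 K) ∣ a - 1) (e : 𝓞 K) :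
    tw2 (a + 4 * e) = tw2 a + F4.tr (red e) := by
  obtain ⟨k, h1, h2⟩ := SumE_Nz_add ha e
  unfold tw2
  rw [t8_congr h1, SumE_t8_add (SumE_Nz_odd ha), h2]

theorem SumE_red_three_DD (D : Finset Pq) (e : 𝓞 K) : red (3 * DD D * e) = red e := by
  obtain ⟨d, hd⟩ := DD_two D
  rw [red_eq]
  exact ⟨e + 3 * d * e, by linear_combination 3 * e * hd⟩

theorem SumE_sge {D : Finset Pq} (c : F4) {a : 𝓞 K} (ha : (2 : 𝓞 K) ∣ a - 1) (x : F4) :
    sge c (a + 12 * DD D * lft x) = sge c a * sgz (F4.tr x) := by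
  have e1 : a + 12 * DD D * lft x = a + 4 * (3 * DD D * lft x) := by ring
  have h1 : sgc c (a + 12 * DD D * lft x) = sgc c a := by
    refine (SumC_sgc_congr ha ?_).symm
    exact ⟨-(3 * DD D * lft x), by ring⟩
  rw [sge, h1, e1, SumE_tw2_add ha, SumE_red_three_DD, red_lft, sgz_add, sge]
  ring

end

end Pool.Agent.Lib.MP_1a91b9_ntE
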