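import Pool.Agent.Lib.MP_1a91b9_ntH2.A.EulC
import Pool.Agent.Lib.MP_1a91b9_ntE.A.SumE

/-!
# TwistDensity, even case, part A, file EulE: the L-series of the twists by `2 dlc c S` and the
averaging identity at `s = 1`
-/

set_option autoImplicit false

namespace Pool.Agent.Lib.MP_1a91b9_ntE

open NumberField IsDedekindDomain Pool.Agent.Lib.MP_1a91b9_ntT Pool.Agent.Lib.MP_1a91b9_ntG
  Pool.Agent.Lib.MP_1a91b9_ntH Pool.Agent.Lib.MP_1a91b9_ntH2
open Pool.Agent.Lib.MP_1a91b9_ntT.S4 (Lf)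

noncomputable section

/-- the coefficients of the L-series of `ψbar χ` -/
def pXe (c : F4) (S : Finset Pq) (I : Ideal (𝓞 K)) : ℂ :=
  psbC f0 K I * (chie c S (psK f0 I) : ℂ)

theorem pXe_neg {c : F4} {S : Finset Pq} {I : Ideal (𝓞 K)}
    (h : ¬ IsCoprime I (Ideal.span {f0})) : pXe c S I = 0 := by
  rw [pXe, psbC_self, psK_of_not_coprime _ h]
  simp [em]

theorem pXe_one (c : F4) (S : Finset Pq) : pXe c S 1 = 1 := by
  rw [pXe, psbC_one, psK_one, SumE_chie_one]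
  simp

theorem pXe_mul (c : F4) (S : Finset Pq) (I J : Ideal (𝓞 K)) :
    pXe c S (I * J) = pXe c S I * pXe c S J := by
  by_cases hI : IsCoprime I (Ideal.span {f0})
  · by_cases hJ : IsCoprime J (Ideal.span {f0})
    · have h1 := SumC_two_of_f0 (psK_of_coprime _ hI).1
      have h2 := SumC_two_of_f0 (psK_of_coprime _ hJ).1
      rw [pXe, psbC_mul, psK_mul, SumE_chie_mul h1 h2, pXe, pXe]
      push_cast
      ring
    · rw [pXe_neg hJ, mul_zero]
      exact pXe_neg fun h => hJ (IsCoprime.of_mul_left_right h)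
  · rw [pXe_neg hI, zero_mul]
    exact pXe_neg fun h => hI (IsCoprime.of_mul_left_left h)

theorem pXe_le (c : F4) (S : Finset Pq) (I : Ideal (𝓞 K)) :
    ‖pXe c S I‖ ≤ (Ideal.absNorm I : ℝ) ^ (1 / 2 : ℝ) := by
  have h1 := norm_psbC_le (f := f0) I
  have h2 := SumE_norm_chie c S (psK f0 I)
  rw [pXe, norm_mul]
  calc ‖psbC f0 K I‖ * ‖(chie c S (psK f0 I) : ℂ)‖ ≤ (Ideal.absNorm I : ℝ) ^ (1 / 2 : ℝ) * 1 :=
        mul_le_mul h1 h2 (norm_nonneg _) (by positivity)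
    _ = _ := mul_one _

theorem pXe_plc (c : F4) (S : Finset Pq) (q : Pq) :
    pXe c S (plc q).asIdeal = (starRingEnd ℂ) (em q.1) * (chie c S q.1 : ℂ) := by
  rw [pXe, psbC_plc, psK_plc]

theorem pXe_bad (c : F4) (S : Finset Pq) (v : HeightOneSpectrum (𝓞 K)) (h : f0 ∈ v.asIdeal) :
    pXe c S v.asIdeal = 0 := pXe_neg (Eul_not_coprime h)

/-! ### The restricted coefficients -/

open Classical in
/-- `chie c S` restricted to the elements congruent to `1` modulo `f0` and prime to `12 DD D` -/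
def EulXe (c : F4) (S D : Finset Pq) (a : 𝓞 K) : ℂ :=
  if f0 ∣ a - 1 ∧ IsCoprime a (24 * DD D) then (chie c S a : ℂ) else 0

theorem EulXe_pos {c : F4} {S D : Finset Pq} {a : 𝓞 K} (h0 : f0 ∣ a - 1)
    (h : IsCoprime a (24 * DD D)) : EulXe c S D a = (chie c S a : ℂ) := by
  unfold EulXe
  exact if_pos ⟨h0, h⟩

theorem EulXe_neg0 {c : F4} {S D : Finset Pq} {a : 𝓞 K} (h : ¬ f0 ∣ a - 1) :
    EulXe c S D a = 0 := by
  unfold EulXe
  exact if_neg fun h1 => h h1.1

theorem EulXe_neg {c : F4} {S D : Finset Pq} {a : 𝓞 K} (h : ¬ IsCoprime a (24 * DD D)) :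
    EulXe c S D a = 0 := by
  unfold EulXe
  exact if_neg fun h1 => h h1.2

theorem EulE_f0_dvd : f0 ∣ (24 : 𝓞 K) := f0_dvd_six.trans ⟨4, by norm_num⟩

theorem EulXe_congr {c : F4} {S D : Finset Pq} (hS : S ⊆ D) {a b : 𝓞 K}
    (h : 24 * DD D ∣ a - b) : EulXe c S D a = EulXe c S D b := by
  have hf : f0 ∣ a - b := (EulE_f0_dvd.mul_right _).trans h
  by_cases hb0 : f0 ∣ b - 1
  · have ha0 : f0 ∣ a - 1 := by
      have e : a - 1 = (a - b) + (b - 1) := by ring
      rw [e]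
      exact dvd_add hf hb0
    by_cases hb : IsCoprime b (24 * DD D)
    · have ha := Eul_cop h hb
      rw [EulXe_pos ha0 ha, EulXe_pos hb0 hb, SumE_chie_congr (SumC_two_of_f0 ha0)]
      · exact ((show (8 : 𝓞 K) ∣ 24 from ⟨3, by norm_num⟩).mul_right _).trans h
      · exact (Eul_DD_dvd hS).trans ((dvd_mul_left _ _).trans h)
    · have ha : ¬ IsCoprime a (24 * DD D) := by
        intro ha
        apply hb
        refine Eul_cop ?_ ha
        rw [← neg_sub, dvd_neg]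
        exact h
      rw [EulXe_neg ha, EulXe_neg hb]
  · have ha0 : ¬ f0 ∣ a - 1 := by
      intro ha0
      apply hb0
      have e : b - 1 = (a - 1) - (a - b) := by ring
      rw [e]
      exact dvd_sub ha0 hf
    rw [EulXe_neg0 ha0, EulXe_neg0 hb0]

theorem EulXe_one (c : F4) (S D : Finset Pq) : EulXe c S D 1 = 1 := by
  rw [EulXe_pos (by simp) isCoprime_one_left, SumE_chie_one]
  simp

theorem EulXe_mul (c : F4) (S D : Finset Pq) {a b : 𝓞 K} (ha0 : f0 ∣ a - 1) (hb0 : f0 ∣ b - 1) :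
    EulXe c S D (a * b) = EulXe c S D a * EulXe c S D b := by
  have hab : f0 ∣ a * b - 1 := by
    have e : a * b - 1 = (a - 1) * b + (b - 1) := by ring
    rw [e]
    exact dvd_add (ha0.mul_right _) hb0
  by_cases ha : IsCoprime a (24 * DD D)
  · by_cases hb : IsCoprime b (24 * DD D)
    · rw [EulXe_pos hab (IsCoprime.mul_left ha hb), EulXe_pos ha0 ha, EulXe_pos hb0 hb,
        SumE_chie_mul (SumC_two_of_f0 ha0) (SumC_two_of_f0 hb0)]
      push_cast
      ring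
    · rw [EulXe_neg hb, mul_zero, EulXe_neg]
      intro h
      exact hb (IsCoprime.of_mul_left_right h)
  · rw [EulXe_neg ha, zero_mul, EulXe_neg]
    intro h
    exact ha (IsCoprime.of_mul_left_left h)

theorem EulXe_le (c : F4) (S D : Finset Pq) (a : 𝓞 K) : ‖EulXe c S D a‖ ≤ 1 := by
  unfold EulXe
  split_ifs
  · exact SumE_norm_chie c S a
  · rw [norm_zero]
    exact zero_le_one

/-- the restricted coefficients -/
def EulGe (c : F4) (S D : Finset Pq) (I : Ideal (𝓞 K)) : ℂ :=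
  psbC f0 K I * EulXe c S D (psK f0 I)

theorem EulGe_neg {c : F4} {S D : Finset Pq} {I : Ideal (𝓞 K)}
    (h : ¬ IsCoprime I (Ideal.span {f0})) : EulGe c S D I = 0 := by
  rw [EulGe, psbC_self, psK_of_not_coprime _ h]
  simp [em]

theorem EulGe_self (c : F4) (S : Finset Pq) : EulGe c S S = pXe c S := by
  funext I
  by_cases hc : IsCoprime I (Ideal.span {f0})
  · have h0 := (psK_of_coprime _ hc).1
    rw [EulGe, pXe]
    by_cases ha : IsCoprime (psK f0 I) (24 * DD S)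
    · rw [EulXe_pos h0 ha]
    · have h1 : ¬ IsCoprime (psK f0 I) (DD S) := fun h => ha ((SumE_cop_iff h0 S).2 h)
      rw [EulXe_neg ha, SumE_chie_coprime.2 h1]
      simp
  · rw [EulGe_neg hc, pXe_neg hc]

theorem EulGe_one (c : F4) (S D : Finset Pq) : EulGe c S D 1 = 1 := by
  rw [EulGe, psbC_one, psK_one, EulXe_one, mul_one]

theorem EulGe_mul (c : F4) (S D : Finset Pq) (I J : Ideal (𝓞 K)) :
    EulGe c S D (I * J) = EulGe c S D I * EulGe c S D J := by
  by_cases hI : IsCoprime I (Ideal.span {f0})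
  · by_cases hJ : IsCoprime J (Ideal.span {f0})
    · have h1 := (psK_of_coprime _ hI).1
      have h2 := (psK_of_coprime _ hJ).1
      rw [EulGe, psbC_mul, psK_mul, EulXe_mul c S D h1 h2, EulGe, EulGe]
      ring
    · rw [EulGe_neg hJ, mul_zero]
      exact EulGe_neg fun h => hJ (IsCoprime.of_mul_left_right h)
  · rw [EulGe_neg hI, zero_mul]
    exact EulGe_neg fun h => hI (IsCoprime.of_mul_left_left h)

theorem EulGe_le (c : F4) (S D : Finset Pq) (I : Ideal (𝓞 K)) :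
    ‖EulGe c S D I‖ ≤ (Ideal.absNorm I : ℝ) ^ (1 / 2 : ℝ) := by
  have h1 := norm_psbC_le (f := f0) I
  have h2 := EulXe_le c S D (psK f0 I)
  rw [EulGe, norm_mul]
  calc ‖psbC f0 K I‖ * ‖EulXe c S D (psK f0 I)‖ ≤ (Ideal.absNorm I : ℝ) ^ (1 / 2 : ℝ) * 1 :=
        mul_le_mul h1 h2 (norm_nonneg _) (by positivity)
    _ = _ := mul_one _

/-- the continuation -/
theorem EulGe_exists (c : F4) {S D : Finset Pq} (hS : S ⊆ D) {ι : Type} [Fintype ι] {d : ι → 𝓞 K}
    (h : Reps (24 * DD D) d) : ∃ A : ℂ → ℂ, Differentiable ℂ A ∧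
      (∀ s : ℂ, 2 < s.re → A s = Lf (EulGe c S D) s) ∧
      A 1 = (em (24 * DD D))⁻¹ * ∑ i, (chie c S (d i) : ℂ) * E1 (em (d i) / em (24 * DD D)) := by
  obtain ⟨A, h1, h2, h3⟩ := exists_sum h (EulXe c S D) (fun a ha => EulXe_neg ha)
    (fun a b hab => EulXe_congr hS hab)
  refine ⟨A, h1, h2, ?_⟩
  rw [h3]
  have h4 : ∀ i, EulXe c S D (d i) = (chie c S (d i) : ℂ) := fun i =>
    EulXe_pos (h.fx i) (h.cop i)
  simp only [h4]

theorem exists_LSe (c : F4) (S : Finset Pq) : ∃ L : ℂ → ℂ, Differentiable ℂ L ∧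
    ∀ s : ℂ, 2 < s.re → L s = Lf (pXe c S) s := by
  obtain ⟨ι, _, d, h, -⟩ := exists_reps S
  obtain ⟨A, h1, h2, -⟩ := EulGe_exists c (subset_refl S) (repsE (repsC h))
  refine ⟨A, h1, fun s hs => ?_⟩
  rw [h2 s hs, EulGe_self]

/-- the entire continuation of the L-series of `ψbar χ` -/
def LSe (c : F4) (S : Finset Pq) : ℂ → ℂ := (exists_LSe c S).choose

theorem LSe_diff (c : F4) (S : Finset Pq) : Differentiable ℂ (LSe c S) :=
  (exists_LSe c S).choose_spec.1

theorem LSe_eq (c : F4) (S : Finset Pq) (s : ℂ) (hs : 2 < s.re) : LSe c S s = Lf (pXe c S) s :=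
  (exists_LSe c S).choose_spec.2 s hs

theorem EulGe_plc (c : F4) (S D : Finset Pq) (q : Pq) :
    EulGe c S D (plc q).asIdeal = (starRingEnd ℂ) (em q.1) * EulXe c S D q.1 := by
  rw [EulGe, psbC_plc, psK_plc]

theorem EulE_cop_iff {D : Finset Pq} {q : Pq} : IsCoprime q.1 (24 * DD D) ↔ q ∉ D := by
  rw [SumE_cop_iff (f0_dvd q), ← SumC_cop_iff' (f0_dvd q)]
  constructor
  · exact fun h1 h2 => Eul_not_cop h2 h1
  · intro h1
    by_contra h2
    exact h1 (Eul_mem h2)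

theorem EulGe_eq (c : F4) {S D : Finset Pq} (v : HeightOneSpectrum (𝓞 K))
    (hv : v ∉ (D \ S).map Eul_emb) : pXe c S v.asIdeal = EulGe c S D v.asIdeal := by
  rcases Eul_place v with h | ⟨q, rfl⟩
  · rw [pXe_bad c S v h, EulGe_neg (Eul_not_coprime h)]
  · rw [pXe_plc, EulGe_plc]
    by_cases hc : IsCoprime q.1 (24 * DD D)
    · rw [EulXe_pos (f0_dvd q) hc]
    · rw [EulXe_neg hc]
      have h1 : q ∈ D := by
        by_contra h1
        exact hc (EulE_cop_iff.2 h1)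
      have h2 : q ∈ S := by
        by_contra h2
        exact hv (Finset.mem_map_of_mem Eul_emb (Finset.mem_sdiff.2 ⟨h1, h2⟩))
      rw [SumE_chie_eq_zero.2 ⟨q, h2, dvd_rfl⟩]
      simp

theorem EulGe_zero (c : F4) {S D : Finset Pq} {v : HeightOneSpectrum (𝓞 K)}
    (hv : v ∈ (D \ S).map Eul_emb) : EulGe c S D v.asIdeal = 0 := by
  obtain ⟨q, hq, rfl⟩ := Finset.mem_map.1 hv
  change EulGe c S D (plc q).asIdeal = 0
  rw [EulGe_plc, EulXe_neg (fun h => EulE_cop_iff.1 h (Finset.mem_sdiff.1 hq).1), mul_zero]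

theorem euler_ide_gen (c : F4) {S D : Finset Pq} (hS : S ⊆ D) {ι : Type} [Fintype ι] {d : ι → 𝓞 K}
    (h : Reps (24 * DD D) d) :
    LSe c S 1 * ∏ q ∈ D \ S, (1 - (chie c S q.1 : ℂ) / em q.1) =
      (em (24 * DD D))⁻¹ * ∑ i, (chie c S (d i) : ℂ) * E1 (em (d i) / em (24 * DD D)) := by
  obtain ⟨A, h1, h2, h3⟩ := EulGe_exists c hS h
  have e : A = fun s => LSe c S s * ∏ v ∈ (D \ S).map Eul_emb, (1 - pXe c S v.asIdeal *
      (Ideal.absNorm v.asIdeal : ℂ) ^ (-s)) := by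
    refine S4.entire_eq h1 ((LSe_diff c S).mul (Eul_diff _ _)) fun s hs => ?_
    have h4 := S4.compare_Lf (pXe c S) (EulGe c S D) (pXe_one c S) (pXe_mul c S) (pXe_le c S)
      (EulGe_one c S D) (EulGe_mul c S D) (EulGe_le c S D) ((D \ S).map Eul_emb)
      (fun v hv => EulGe_eq c v hv) s hs
    rw [h2 s hs, LSe_eq c S s hs, h4]
    have h5 : ∏ v ∈ (D \ S).map Eul_emb, (1 - EulGe c S D v.asIdeal *
        (Ideal.absNorm v.asIdeal : ℂ) ^ (-s)) = 1 := by
      refine Finset.prod_eq_one fun v hv => ?_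
      rw [EulGe_zero c hv, zero_mul, sub_zero]
    rw [h5, mul_one]
  rw [← h3, e]
  change _ = LSe c S 1 * ∏ v ∈ (D \ S).map Eul_emb, (1 - pXe c S v.asIdeal *
      (Ideal.absNorm v.asIdeal : ℂ) ^ (-(1 : ℂ)))
  rw [Finset.prod_map]
  congr 1
  refine Finset.prod_congr rfl fun q _ => ?_
  change _ = 1 - pXe c S (plc q).asIdeal * (Ideal.absNorm (plc q).asIdeal : ℂ) ^ (-(1 : ℂ))
  rw [pXe_plc, Eul_absNorm_plc, Complex.cpow_neg_one]
  have h6 : em q.1 ≠ 0 := Eul_em_ne q.2.1.ne_zero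
  have h7 : (starRingEnd ℂ) (em q.1) ≠ 0 := (_root_.map_ne_zero _).2 h6
  field_simp

/-- the averaging identity over any system of representatives modulo `12 DD D` -/
theorem euler_sume_gen (c : F4) {D : Finset Pq} {ι : Type} [Fintype ι] {d : ι → 𝓞 K}
    (h : Reps (24 * DD D) d) :
    ∑ S ∈ D.powerset, LSe c S 1 * ∏ q ∈ D \ S, (1 - (chie c S q.1 : ℂ) / em q.1) =
      (em (24 * DD D))⁻¹ * ∑ i, ((∏ q ∈ D, (1 + qs q (d i)) : ℤ) : ℂ) * (sge c (d i) : ℂ) *
        E1 (em (d i) / em (24 * DD D)) := by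
  have h1 : ∑ S ∈ D.powerset, LSe c S 1 * ∏ q ∈ D \ S, (1 - (chie c S q.1 : ℂ) / em q.1) =
      ∑ S ∈ D.powerset, (em (24 * DD D))⁻¹ * ∑ i, (chie c S (d i) : ℂ) *
        E1 (em (d i) / em (24 * DD D)) :=
    Finset.sum_congr rfl fun S hS => euler_ide_gen c (Finset.mem_powerset.1 hS) h
  rw [h1, ← Finset.mul_sum, Finset.sum_comm]
  congr 1
  refine Finset.sum_congr rfl fun i _ => ?_
  rw [← Finset.sum_mul]
  congr 1
  rw [Finset.prod_one_add]
  push_cast
  rw [Finset.sum_mul]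
  refine Finset.sum_congr rfl fun S _ => ?_
  rw [SumE_chie_eq, chi]
  push_cast
  rfl

theorem EulE_em_24 : em (24 : 𝓞 K) = 24 := by
  have h3 : ((24 : 𝓞 K) : K) = 24 := map_ofNat (algebraMap (𝓞 K) K) 24
  rw [em, h3, map_ofNat embK 24]

theorem EulE_div (D : Finset Pq) (a e : 𝓞 K) : em (a + 12 * DD D * e) / em (24 * DD D) =
    em a / em (24 * DD D) + em e / 2 := by
  have h0 : em (DD D) ≠ 0 := Eul_em_ne (DD_ne D)
  have h24 : em (24 * DD D) = 24 * em (DD D) := by rw [EulC_em_mul, EulE_em_24]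
  have h12 : em (a + 12 * DD D * e) = em a + 12 * em (DD D) * em e := by
    rw [EulC_em_add, EulC_em_mul, EulC_em_mul, EulC_em_twelve]
  rw [h24, h12]
  field_simp
  ring

theorem EulE_div' (D : Finset Pq) (a e : 𝓞 K) : em (a + 6 * DD D * e) / em (24 * DD D) =
    em a / em (24 * DD D) + em e / 4 := by
  have h0 : em (DD D) ≠ 0 := Eul_em_ne (DD_ne D)
  have h24 : em (24 * DD D) = 24 * em (DD D) := by rw [EulC_em_mul, EulE_em_24]
  have h6 : em (a + 6 * DD D * e) = em a + 6 * em (DD D) * em e := by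
    rw [EulC_em_add, EulC_em_mul, EulC_em_mul, EulC_em_six]
  rw [h24, h6]
  field_simp
  ring

/-- the averaging identity over representatives modulo `12 DD D` -/
theorem euler_sume12 (c : F4) {D : Finset Pq} {ι : Type} [Fintype ι] {d : ι → 𝓞 K}
    (h : Reps (12 * DD D) d) :
    ∑ S ∈ D.powerset, LSe c S 1 * ∏ q ∈ D \ S, (1 - (chie c S q.1 : ℂ) / em q.1) =
      (em (24 * DD D))⁻¹ * ∑ j, ((∏ q ∈ D, (1 + qs q (d j)) : ℤ) : ℂ) * (sge c (d j) : ℂ) *
        FP 1 (em (d j) / em (24 * DD D)) := by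
  rw [euler_sume_gen c (repsE h), Fintype.sum_prod_type]
  congr 1
  refine Finset.sum_congr rfl fun j _ => ?_
  rw [FP, Finset.mul_sum]
  refine Finset.sum_congr rfl fun x _ => ?_
  change ((∏ q ∈ D, (1 + qs q (d j + 12 * DD D * lft x)) : ℤ) : ℂ) *
    (sge c (d j + 12 * DD D * lft x) : ℂ) * E1 (em (d j + 12 * DD D * lft x) / em (24 * DD D)) = _
  have e1 : ∏ q ∈ D, (1 + qs q (d j + 12 * DD D * lft x)) = ∏ q ∈ D, (1 + qs q (d j)) :=
    Finset.prod_congr rfl fun q hq => by rw [SumE_qs hq]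
  rw [e1, EulE_div, SumE_sge c (SumC_two_of_f0 (h.fx j)), one_mul]
  push_cast
  ring

/-- **(A1), (A2)**: the averaging identity at `s = 1` -/
theorem euler_sume (c : F4) {D : Finset Pq} {ι : Type} [Fintype ι] {a : ι → 𝓞 K}
    (h : Reps (6 * DD D) a) :
    ∑ S ∈ D.powerset, LSe c S 1 * ∏ q ∈ D \ S, (1 - (chie c S q.1 : ℂ) / em q.1) =
      (em (24 * DD D))⁻¹ * ∑ i, ((∏ q ∈ D, (1 + qs q (a i)) : ℤ) : ℂ) *
        ∑ x : F4, (sge c (a i + 6 * DD D * lft x) : ℂ) *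
          FP 1 (em (a i) / em (24 * DD D) + em (lft x) / 4) := by
  rw [euler_sume12 c (repsC h), Fintype.sum_prod_type]
  congr 1
  refine Finset.sum_congr rfl fun j _ => ?_
  rw [Finset.mul_sum]
  refine Finset.sum_congr rfl fun x _ => ?_
  change ((∏ q ∈ D, (1 + qs q (a j + 6 * DD D * lft x)) : ℤ) : ℂ) *
    (sge c (a j + 6 * DD D * lft x) : ℂ) * FP 1 (em (a j + 6 * DD D * lft x) / em (24 * DD D)) = _
  have e1 : ∏ q ∈ D, (1 + qs q (a j + 6 * DD D * lft x)) = ∏ q ∈ D, (1 + qs q (a j)) :=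
    Finset.prod_congr rfl fun q hq => by rw [SumC_qs hq]
  rw [e1, EulE_div']
  ring

/-- the identity for one `S` over representatives modulo `12 DD D` -/
theorem euler_ide12 {c : F4} {S D : Finset Pq} (hS : S ⊆ D) {ι : Type} [Fintype ι] {d : ι → 𝓞 K}
    (h : Reps (12 * DD D) d) :
    LSe c S 1 * ∏ q ∈ D \ S, (1 - (chie c S q.1 : ℂ) / em q.1) =
      (em (24 * DD D))⁻¹ * ∑ j, (chie c S (d j) : ℂ) * FP 1 (em (d j) / em (24 * DD D)) := by
  rw [euler_ide_gen c hS (repsE h), Fintype.sum_prod_type]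
  congr 1
  refine Finset.sum_congr rfl fun j _ => ?_
  rw [FP, Finset.mul_sum]
  refine Finset.sum_congr rfl fun x _ => ?_
  change (chie c S (d j + 12 * DD D * lft x) : ℂ) *
    E1 (em (d j + 12 * DD D * lft x) / em (24 * DD D)) = _
  have e1 : chi S (d j + 12 * DD D * lft x) = chi S (d j) := by
    apply chi_congr
    have e2 : d j + 12 * DD D * lft x - d j = DD D * (12 * lft x) := by ring
    rw [e2]
    exact (Eul_DD_dvd hS).mul_right _
  rw [SumE_chie_eq, e1, EulE_div, SumE_sge c (SumC_two_of_f0 (h.fx j)), SumE_chie_eq, one_mul]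
  push_cast
  ring

/-- the identity for one `S` -/
theorem euler_ide {c : F4} {S D : Finset Pq} (hS : S ⊆ D) {ι : Type} [Fintype ι] {a : ι → 𝓞 K}
    (h : Reps (6 * DD D) a) :
    LSe c S 1 * ∏ q ∈ D \ S, (1 - (chie c S q.1 : ℂ) / em q.1) =
      (em (24 * DD D))⁻¹ * ∑ i, (chi S (a i) : ℂ) *
        ∑ x : F4, (sge c (a i + 6 * DD D * lft x) : ℂ) *
          FP 1 (em (a i) / em (24 * DD D) + em (lft x) / 4) := by
  rw [euler_ide12 hS (repsC h), Fintype.sum_prod_type]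
  congr 1
  refine Finset.sum_congr rfl fun j _ => ?_
  rw [Finset.mul_sum]
  refine Finset.sum_congr rfl fun x _ => ?_
  change (chie c S (a j + 6 * DD D * lft x) : ℂ) * FP 1 (em (a j + 6 * DD D * lft x) / em (24 * DD D)) = _
  have e1 : chi S (a j + 6 * DD D * lft x) = chi S (a j) := by
    apply chi_congr
    have e2 : a j + 6 * DD D * lft x - a j = DD D * (6 * lft x) := by ring
    rw [e2]
    exact (Eul_DD_dvd hS).mul_right _
  rw [SumE_chie_eq, e1, EulE_div']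
  push_cast
  ring

end

end Pool.Agent.Lib.MP_1a91b9_ntE
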