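import Pool.Agent.Lib.MP_1a91b9_ntE.A.RhsE
import Pool.Agent.Lib.MP_1a91b9_ntH2.A.IndC

/-!
# TwistDensity, even case, part A, file IndE: the residue class of the normalised value
-/

set_option autoImplicit false

namespace Pool.Agent.Lib.MP_1a91b9_ntE

open NumberField IsDedekindDomain Pool.Agent.Lib.MP_1a91b9_ntT Pool.Agent.Lib.MP_1a91b9_ntG
  Pool.Agent.Lib.MP_1a91b9_ntH Pool.Agent.Lib.MP_1a91b9_ntH2

noncomputable section

/-- the normalised value -/
def nuE (c : F4) (S : Finset Pq) : ℂ := LSe c S 1 * em (24 * DD S) / (NNE c * 2 ^ S.card)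

private theorem IndE_em_add (x y : 𝓞 K) : em (x + y) = em x + em y := by
  simp [em]

private theorem IndE_em_mul (x y : 𝓞 K) : em (x * y) = em x * em y := by
  simp [em]

private theorem IndE_em_one : em 1 = 1 := by
  simp [em]

private theorem IndE_em_two : em 2 = 2 := by exact_mod_cast Res_em_int 2

private theorem IndE_em_ne {x : 𝓞 K} (hx : x ≠ 0) : em x ≠ 0 := by
  rw [em, Ne, map_eq_zero]
  intro h
  exact hx (RingOfIntegers.ext h)

private theorem IndE_em_prod {α : Type} (T : Finset α) (f : α → 𝓞 K) :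
    em (∏ q ∈ T, f q) = ∏ q ∈ T, em (f q) := by
  classical
  induction T using Finset.induction_on with
  | empty => rw [Finset.prod_empty, Finset.prod_empty, IndE_em_one]
  | insert a T ha ih => rw [Finset.prod_insert ha, Finset.prod_insert ha, IndE_em_mul, ih]

/-- the symbol of the character `chie` at a prime -/
theorem chie_qE {c : F4} {S : Finset Pq} {q : Pq} (h : q ∉ S) :
    ∃ n : ℤ, chie c S q.1 = 1 - 2 * n ∧
      (n : F4) = F4.of (F4.tr (c * qE.a q)) + F4.of (qE.g q) + ∑ p ∈ S, F4.of (qE.s q p) := by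
  obtain ⟨n, hn, hn'⟩ := chic_qd (c := c) h
  obtain ⟨m, hm, hm'⟩ := sgz_eq (tw2 q.1)
  refine ⟨n + m - 2 * n * m, ?_, ?_⟩
  · rw [SumE_chie_chic, hn, hm]
    ring
  · have e2 : (m : F4) = F4.of (m : ZMod 2) := by
      have e1 : ((m : 𝓞 K) : 𝓞 K) = (m : 𝓞 K) + ((0 : ℤ) : 𝓞 K) * wO := by push_cast; ring
      have e2 := congrArg red e1
      rw [red_coord, map_intCast] at e2
      rw [e2]
      simp [F4.of]
    have h2 : (2 : F4) = 0 := by decide
    have h3 : qE.g q = tw2 q.1 := rfl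
    have h4 : qE.a q = qd.a q := rfl
    have h5 : ∀ p, qE.s q p = qd.s q p := fun _ => rfl
    simp only [h3, h4, h5]
    push_cast
    rw [h2, hn', e2, hm']
    ring

/-- the Euler factors -/
theorem IndE_factor {A : ValuationSubring ℂ} (c : F4) {S : Finset Pq} {q : Pq}
    (hq : q ∉ S) :
    Rs A ((em q.1 - (chie c S q.1 : ℂ)) / 2)
      (qE.a q + F4.of (F4.tr (c * qE.a q)) + F4.of (qE.g q) + ∑ p ∈ S, F4.of (qE.s q p)) := by
  obtain ⟨n, hn, hn'⟩ := chie_qE (c := c) hq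
  have h2 : (2 : 𝓞 K) ∣ q.1 - 1 := (dvd_mul_right _ _).trans (f0_dvd q)
  have h3 : em q.1 = 1 + 2 * em (half q.1) := by
    have h4 := congrArg em (half_spec h2)
    rw [IndE_em_add, IndE_em_mul, IndE_em_one, IndE_em_two] at h4
    exact h4
  have e : (em q.1 - (chie c S q.1 : ℂ)) / 2 = em (half q.1) + (n : ℂ) := by
    rw [hn, h3]
    push_cast
    ring
  rw [e]
  have h6 := (Rs.of (A := A) (half q.1)).add (Rs.int (A := A) n)
  rw [hn', ← add_assoc, ← add_assoc] at h6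
  exact h6

theorem IndE_sdiff {D S : Finset Pq} (h : S ⊆ D) :
    em (24 * DD D) = em (24 * DD S) * ∏ q ∈ D \ S, em q.1 := by
  have h1 : (∏ q ∈ D \ S, q.1) * DD S = DD D := Finset.prod_sdiff (f := fun q : Pq => q.1) h
  rw [← h1, mul_comm (∏ q ∈ D \ S, q.1), ← mul_assoc, IndE_em_mul, IndE_em_prod]

/-- the averaging identity, normalised -/
theorem euler_nuE (c : F4) {D : Finset Pq} {ι : Type} [Fintype ι] {v : ι → 𝓞 K}
    (h : Reps (6 * DD D) v) (h8 : ∀ i, (8 : 𝓞 K) ∣ v i - 3 * DD D) :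
    ∑ S ∈ D.powerset, nuE c S * ∏ q ∈ D \ S, ((em q.1 - (chie c S q.1 : ℂ)) / 2) =
      (sge c (3 * DD D) : ℂ) * ∑ i, WE (fun _ => 1) D (v i) * (PhE c (rhoE D (v i)) / NNE c) := by
  have hN := NNE_ne c
  have hE : em (24 * DD D) ≠ 0 := IndE_em_ne (mul_ne_zero (by norm_num) (DD_ne D))
  have h2 : (2 : ℂ) ^ D.card ≠ 0 := pow_ne_zero _ (by norm_num)
  have h1 : em (24 * DD D) / (NNE c * 2 ^ D.card) * (∑ S ∈ D.powerset, LSe c S 1 *
      ∏ q ∈ D \ S, (1 - (chie c S q.1 : ℂ) / em q.1)) =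
      em (24 * DD D) / (NNE c * 2 ^ D.card) * ((em (24 * DD D))⁻¹ * (sge c (3 * DD D) : ℂ) *
        ∑ i, ((∏ q ∈ D, (1 + qs q (v i)) : ℤ) : ℂ) * PhE c (rhoE D (v i))) := by
    rw [euler_rho c h h8]
  rw [Finset.mul_sum] at h1
  have e1 : ∀ S ∈ D.powerset, em (24 * DD D) / (NNE c * 2 ^ D.card) * (LSe c S 1 *
      ∏ q ∈ D \ S, (1 - (chie c S q.1 : ℂ) / em q.1)) =
      nuE c S * ∏ q ∈ D \ S, ((em q.1 - (chie c S q.1 : ℂ)) / 2) := by
    intro S hS
    rw [Finset.mem_powerset] at hS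
    have h3 : D.card = S.card + (D \ S).card := by
      rw [Finset.card_sdiff_of_subset hS]
      have := Finset.card_le_card hS
      omega
    have h4 : ∏ q ∈ D \ S, em q.1 ≠ 0 := Finset.prod_ne_zero_iff.2 fun q _ => IndE_em_ne q.2.1.ne_zero
    have h5 : ∏ q ∈ D \ S, (1 - (chie c S q.1 : ℂ) / em q.1) =
        (∏ q ∈ D \ S, (em q.1 - (chie c S q.1 : ℂ))) / ∏ q ∈ D \ S, em q.1 := by
      rw [← Finset.prod_div_distrib]
      refine Finset.prod_congr rfl fun q _ => ?_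
      have h6 := IndE_em_ne q.2.1.ne_zero
      field_simp
    rw [h5, IndE_sdiff hS, Finset.prod_div_distrib, Finset.prod_const, nuE, h3, pow_add]
    have h7 : (2 : ℂ) ^ S.card ≠ 0 := pow_ne_zero _ (by norm_num)
    have h8 : (2 : ℂ) ^ (D \ S).card ≠ 0 := pow_ne_zero _ (by norm_num)
    field_simp
  rw [Finset.sum_congr rfl e1] at h1
  rw [h1]
  have e2 : ∀ i, WE (fun _ => 1) D (v i) = ((∏ q ∈ D, (1 + qs q (v i)) : ℤ) : ℂ) / 2 ^ D.card := by
    intro i
    rw [WE, Finset.prod_div_distrib, Finset.prod_const]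
    push_cast
    simp only [one_mul]
  have e3 : ∀ i, WE (fun _ => 1) D (v i) * (PhE c (rhoE D (v i)) / NNE c) =
      ((NNE c * 2 ^ D.card)⁻¹) * (((∏ q ∈ D, (1 + qs q (v i)) : ℤ) : ℂ) * PhE c (rhoE D (v i))) := by
    intro i
    rw [e2]
    field_simp
  rw [Finset.sum_congr rfl fun i _ => e3 i, ← Finset.mul_sum]
  field_simp

/-- **The residue class of the normalised value is the determinant.** -/
theorem nuE_res {A : ValuationSubring ℂ} (hA : Two A) (c : F4) (D : Finset Pq) :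
    Rs A (nuE c D) (qE.NE c D).det := by
  classical
  induction D using Finset.strongInduction with
  | H D ih =>
  obtain ⟨ι, hι, v, hv, h8⟩ := exists_reps8 D
  have hN := euler_nuE c hv h8
  have hs : Rs A (sge c (3 * DD D) : ℂ) 1 := by
    have h1 := Rs.int (A := A) (sge c (3 * DD D))
    have h2 : ((sge c (3 * DD D) : ℤ) : F4) = 1 := by
      rcases SumE_sge_cases c (3 * DD D) with h | h
      · rw [h]; norm_num
      · rw [h]
        push_cast
        decide
    rwa [h2] at h1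
  have hR := hs.mul (rhs_res hA c hv h8)
  rw [one_mul, ← hN] at hR
  have hD : D ∈ D.powerset := Finset.mem_powerset_self D
  have hL := sum_NE qE c D
  rw [← Finset.add_sum_erase _ _ hD, Finset.sdiff_self, Finset.prod_empty, mul_one] at hR hL
  have hS : Rs A (∑ S ∈ D.powerset.erase D, nuE c S *
      ∏ q ∈ D \ S, ((em q.1 - (chie c S q.1 : ℂ)) / 2))
      (∑ S ∈ D.powerset.erase D, (qE.NE c S).det * ∏ q ∈ D \ S,
        (qE.a q + F4.of (F4.tr (c * qE.a q)) + F4.of (qE.g q) + ∑ p ∈ S, F4.of (qE.s q p))) := by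
    refine Rs.sum _ fun S hS => ?_
    rw [Finset.mem_erase, Finset.mem_powerset] at hS
    refine (ih S (Finset.ssubset_iff_subset_ne.2 ⟨hS.2, hS.1⟩)).mul (Rs.prod _ fun q hq => ?_)
    exact IndE_factor c (Finset.mem_sdiff.1 hq).2
  have h := hR.sub hS
  rw [add_sub_cancel_right, ← hL, add_sub_cancel_right] at h
  exact h

theorem LSe_ne {c : F4} {S : Finset Pq} (h : (qE.NE c S).det ≠ 0) : LSe c S 1 ≠ 0 := by
  obtain ⟨A, hA⟩ := s3_exists
  have h1 := (nuE_res hA c S).unit hA h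
  intro h0
  rw [nuE, h0, zero_mul, zero_div, map_zero] at h1
  exact zero_ne_one h1

end

end Pool.Agent.Lib.MP_1a91b9_ntE
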