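import Pool.Agent.Lib.MP_1a91b9_ntE.A.LocG
import Pool.Agent.Lib.MP_1a91b9_ntE.A.SumE

/-!
# TwistDensity, phase E, part A, file LocE: the Euler factors of `y² = x³ + δ³`, `δ = 2 dlc c S`
-/

set_option autoImplicit false

namespace Pool.Agent.Lib.MP_1a91b9_ntE

open NumberField IsDedekindDomain Polynomial Pool.Agent.Lib.MP_1a91b9_ntT
  Pool.Agent.Lib.MP_1a91b9_ntG Pool.Agent.Lib.MP_1a91b9_nt Pool.Agent.Lib.MP_1a91b9_ntH
  Pool.Agent.Lib.MP_1a91b9_ntH2

noncomputable section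

/-- `y² = x³ + δ³`, `δ = 2 dlc c S` -/
def WdE (c : F4) (S : Finset Pq) : WeierstrassCurve K :=
  ⟨0, 0, 0, 0, ((2 * dlc c S : 𝓞 K) : K) ^ 3⟩

theorem WdE_eq (c : F4) (S : Finset Pq) : WdE c S = Wg (2 * dlc c S) := rfl

/-- `dlc c S` is prime to `2`. -/
private theorem locE_odd (c : F4) (S : Finset Pq) : (2 : 𝓞 K) ∣ dlc c S - 1 := by
  obtain ⟨y, hy⟩ := DD_two S
  have h1 : (2 : 𝓞 K) ∣ (if (qd.A S + c).b = 0 then (1 : 𝓞 K) else s3) - 1 := by
    split_ifs
    · rw [sub_self]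
      exact dvd_zero _
    · exact ⟨wO, by rw [s3]; ring⟩
  have h2 : (2 : 𝓞 K) ∣ (if (qd.A S + c).a = 0 then (1 : 𝓞 K) else -1) - 1 := by
    split_ifs
    · rw [sub_self]
      exact dvd_zero _
    · exact ⟨-1, by ring⟩
  obtain ⟨y1, hy1⟩ := h1
  obtain ⟨y2, hy2⟩ := h2
  rw [dlc, eq_add_of_sub_eq hy, eq_add_of_sub_eq hy1, eq_add_of_sub_eq hy2]
  exact ⟨y + y1 + y2 + 2 * y * y1 + 2 * y * y2 + 2 * y1 * y2 + 4 * y * y1 * y2, by ring⟩

private theorem locE_sgn (c : F4) (S : Finset Pq) :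
    (if (qd.A S + c).a = 0 then (1 : 𝓞 K) else -1) ^ 2 = 1 := by
  split_ifs <;> ring

/-- the places of additive reduction -/
theorem loc_bade (c : F4) (S : Finset Pq) (v : HeightOneSpectrum (𝓞 K))
    (h : (2 : 𝓞 K) ∈ v.asIdeal ∨ (∃ q ∈ S, v = plc q) ∨ (s3 ∈ v.asIdeal ∧ (qd.A S + c).b = 0)) :
    locPoly (WdE c S) v = 1 := by
  have hpr := v.isPrime
  rcases h with h | ⟨q, hq, rfl⟩ | ⟨h, hb⟩
  · -- the place above 2
    refine loc_bad_gen (2 * dlc c S) v 2 (-27 * dlc c S ^ 6) 10 two_ne_zero (locB_two v h) (by ring) ?_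
      (by norm_num)
    intro hm
    rcases hpr.mem_or_mem hm with h1 | h1
    · have h2 : (27 : 𝓞 K) ∈ v.asIdeal := by
        have h3 := (Ideal.neg_mem_iff _).2 h1
        rwa [neg_neg] at h3
      exact locB_one v h2 h (c := 13) (by norm_num)
    · have h2 := hpr.mem_of_pow_mem _ h1
      obtain ⟨y, hy⟩ := locE_odd c S
      exact locB_one v h2 h (c := y) hy
  · -- a prime in `S`
    have hE : DD S = q.1 * DD (S.erase q) := by
      rw [DD, DD, Finset.mul_prod_erase _ _ hq]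
    have h6 := six_notMem q
    have hs : s3 ∉ (plc q).asIdeal := by
      intro h1
      apply h6
      have e : (6 : 𝓞 K) = s3 * (-2 * s3) := by linear_combination (2 : 𝓞 K) * s3_sq
      rw [e]
      exact Ideal.mul_mem_right _ _ h1
    refine loc_bad_gen (2 * dlc c S) (plc q) q.1 (-27648 * ((if (qd.A S + c).b = 0 then 1 else s3) *
      (if (qd.A S + c).a = 0 then 1 else -1) * DD (S.erase q)) ^ 6) 6 q.2.1.ne_zero rfl ?_ ?_
      (by norm_num)
    · rw [dlc, hE]
      ring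
    · intro hm
      rcases hpr.mem_or_mem hm with h1 | h1
      · apply h6
        have h2 : (27648 : 𝓞 K) ∈ (plc q).asIdeal := by
          have h3 := (Ideal.neg_mem_iff _).2 h1
          rwa [neg_neg] at h3
        refine hpr.mem_of_pow_mem 10 ?_
        have e : (6 : 𝓞 K) ^ 10 = 27648 * 2187 := by norm_num
        rw [e]
        exact Ideal.mul_mem_right _ _ h2
      · have h2 := hpr.mem_of_pow_mem _ h1
        rcases hpr.mem_or_mem h2 with h3 | h3
        · rcases hpr.mem_or_mem h3 with h4 | h4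
          · split_ifs at h4
            · exact hpr.ne_top ((Ideal.eq_top_iff_one _).2 h4)
            · exact hs h4
          · have h5 := Ideal.pow_mem_of_mem _ h4 2 (by norm_num)
            rw [locE_sgn] at h5
            exact hpr.ne_top ((Ideal.eq_top_iff_one _).2 h5)
        · rw [mem_plc, DD, Prime.dvd_finsetProd_iff q.2.1] at h3
          obtain ⟨p, hp, hqp⟩ := h3
          exact Pq_ndvd (Finset.ne_of_mem_erase hp).symm hqp
  · -- the place above 3
    have hdl : dlc c S ^ 2 = DD S ^ 2 := by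
      rw [dlc, if_pos hb, one_mul, mul_pow, locE_sgn, one_mul]
    have h3 : (3 : 𝓞 K) ∈ v.asIdeal := by
      rw [three_eq]
      exact (Ideal.neg_mem_iff _).2 (Ideal.pow_mem_of_mem _ h 2 (by norm_num))
    refine loc_bad_gen (2 * dlc c S) v s3 (1024 * dlc c S ^ 6) 6 s3_ne (loc3_s3 v h) ?_ ?_ (by norm_num)
    · have e : s3 ^ 6 = -27 := by
        have e1 : s3 ^ 6 = (s3 ^ 2) ^ 3 := by ring
        rw [e1, s3_sq]
        norm_num
      rw [e]
      ring
    · intro hm
      rcases hpr.mem_or_mem hm with h1 | h1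
      · exact locB_one v h1 h3 (c := 341) (by norm_num)
      · have e : dlc c S ^ 6 = (DD S ^ 2) ^ 3 := by
          rw [← hdl]
          ring
        rw [e] at h1
        have h2 := hpr.mem_of_pow_mem _ (hpr.mem_of_pow_mem _ h1)
        obtain ⟨y, hy⟩ := DD_f0 S
        exact locB_one v h2 h (c := 2 * y) (by rw [hy, f0]; ring)

/-- the place above `3` if `√-3` divides `δ = 2 dlc c S` -/
theorem loc_threee (c : F4) (S : Finset Pq) (v : HeightOneSpectrum (𝓞 K)) (h : s3 ∈ v.asIdeal)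
    (h' : (qd.A S + c).b ≠ 0) (x : ℂ) : aeval x (locPoly (WdE c S) v) = 1 + 3 * x ^ 2 := by
  refine loc_three_gen (2 * dlc c S) (2 * ((if (qd.A S + c).a = 0 then 1 else -1) * DD S)) v h ?_ ?_ x
  · rw [dlc, if_neg h']
    ring
  · obtain ⟨z, hz⟩ := DD_f0 S
    have e0 : ((if (qd.A S + c).a = 0 then (1 : 𝓞 K) else -1)) ^ 2 = 1 := by
      split_ifs <;> ring
    have e : (2 * ((if (qd.A S + c).a = 0 then (1 : 𝓞 K) else -1) * DD S)) ^ 2 - 1 =
        s3 * (4 * (2 * z * (DD S + 1)) - s3) := by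
      rw [mul_pow, mul_pow, e0, one_mul]
      rw [f0] at hz
      linear_combination 4 * (DD S + 1) * hz + s3_sq
    rw [e]
    exact Ideal.mul_mem_right _ _ h

/-- the symbol of `2 dlc c S` -/
theorem qs_dle (c : F4) (S : Finset Pq) (q : Pq) : qs q (2 * dlc c S) = chie c S q.1 := by
  rw [qs_mul, qs_two, qs_dlc, SumE_chie_chic, mul_comm]

/-- the good places of `WdE c S` -/
theorem loc_goode (c : F4) (S : Finset Pq) (q : Pq) (hq : q ∉ S) (x : ℂ) :
    aeval x (locPoly (WdE c S) (plc q)) =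
      (1 - em q.1 * (chie c S q.1 : ℂ) * x) *
        (1 - (starRingEnd ℂ) (em q.1) * (chie c S q.1 : ℂ) * x) := by
  have hchi := qs_dle c S q
  have hne : chie c S q.1 ≠ 0 := by
    intro h
    obtain ⟨p, hp, hpq⟩ := SumE_chie_eq_zero.1 h
    exact Pq_ndvd (p := p) (q := q) (fun e => hq (by rw [← e]; exact hp)) hpq
  have hdl : ¬ q.1 ∣ 2 * dlc c S := by
    intro h
    apply hne
    rw [← hchi]
    exact qs_eq_zero.2 h
  have h := loc_gen (2 * dlc c S) q hdl x
  rw [hchi] at h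
  exact h

end

end Pool.Agent.Lib.MP_1a91b9_ntE
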