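import Pool.Agent.Lib.MP_1a91b9_ntH2.A.LocG
import Pool.Agent.Lib.MP_1a91b9_ntH.A.LocB
import Pool.Agent.Lib.MP_1a91b9_ntT3.CU.BadV

/-!
# TwistDensity, phase E, part A, file LocG: the Euler factors of `y² = x³ + δ³` for an arbitrary `δ`

`loc_gen` (phase 2) is the factor at the places prime to `6 δ`; here the places of additive reduction, and the place
above `3` if `√-3` divides `δ` exactly.
-/

set_option autoImplicit false

namespace Pool.Agent.Lib.MP_1a91b9_ntE

open NumberField IsDedekindDomain Polynomial Pool.Agent.Lib.MP_1a91b9_ntT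
  Pool.Agent.Lib.MP_1a91b9_ntG Pool.Agent.Lib.MP_1a91b9_nt Pool.Agent.Lib.MP_1a91b9_ntH WithZero

noncomputable section

/-- `y² = x³ + δ³` -/
def Wg (δ : 𝓞 K) : WeierstrassCurve K := ⟨0, 0, 0, 0, ((δ : 𝓞 K) : K) ^ 3⟩

theorem Wg_c4 (δ : 𝓞 K) : (Wg δ).c₄ = 0 := by
  simp only [Wg, WeierstrassCurve.c₄, WeierstrassCurve.b₂, WeierstrassCurve.b₄]
  ring

theorem Wg_delta (δ : 𝓞 K) : (Wg δ).Δ = ((-432 * δ ^ 6 : 𝓞 K) : K) := by
  have e : ((-432 * δ ^ 6 : 𝓞 K) : K) = -432 * ((δ : 𝓞 K) : K) ^ 6 := by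
    change algebraMap (𝓞 K) K (-432 * δ ^ 6) = -432 * (algebraMap (𝓞 K) K δ) ^ 6
    rw [map_mul, map_pow, map_neg, map_ofNat]
  rw [e]
  simp only [Wg, WeierstrassCurve.Δ, WeierstrassCurve.b₂, WeierstrassCurve.b₄, WeierstrassCurve.b₆,
    WeierstrassCurve.b₈]
  ring

/-- the valuation of an element exactly divisible by the `n`-th power of a generator of the place -/
private theorem locB_val (v : HeightOneSpectrum (𝓞 K)) (p x y : 𝓞 K) (n : ℕ) (hp : p ≠ 0)
    (hv : v.asIdeal = Ideal.span {p}) (hx : x = p ^ n * y) (hy : y ∉ v.asIdeal) :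
    v.valuation K ((x : 𝓞 K) : K) = exp (-(n : ℤ)) := by
  have e : v.valuation K ((x : 𝓞 K) : K) = v.intValuation x := v.valuation_of_algebraMap (K := K) x
  rw [e, hx, map_mul, map_pow, HeightOneSpectrum.intValuation_eq_one_iff.2 hy, mul_one,
    v.intValuation_singleton hp hv, ← exp_nsmul]
  congr 1
  rw [nsmul_eq_mul]
  ring

private theorem locB_pow (γ : ℤᵐ⁰) (n : ℕ) (hn : ¬ (12 : ℤ) ∣ n) : γ ^ 12 ≠ exp (-(n : ℤ)) := by
  intro h
  have h0 : γ ≠ 0 := by
    rintro rfl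
    rw [zero_pow (by norm_num)] at h
    exact exp_ne_zero h.symm
  obtain ⟨k, rfl⟩ : ∃ k : ℤ, γ = exp k := ⟨log γ, (exp_log h0).symm⟩
  rw [← exp_nsmul] at h
  have h1 := exp_injective h
  rw [nsmul_eq_mul] at h1
  apply hn
  refine ⟨-k, ?_⟩
  push_cast at h1
  linarith

/-- a place at which the exponent of the discriminant is not divisible by `12` -/
theorem loc_bad_gen (δ : 𝓞 K) (v : HeightOneSpectrum (𝓞 K)) (p y : 𝓞 K) (n : ℕ) (hp : p ≠ 0)
    (hv : v.asIdeal = Ideal.span {p}) (hx : -432 * δ ^ 6 = p ^ n * y) (hy : y ∉ v.asIdeal)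
    (hn : ¬ (12 : ℤ) ∣ n) : locPoly (Wg δ) v = 1 := by
  refine Pool.Agent.Lib.MP_1a91b9_ntT3.CU.locPoly_add (Wg δ) (Wg_c4 δ) v fun γ hγ => ?_
  rw [Wg_delta, locB_val v p _ y n hp hv hx hy] at hγ
  exact locB_pow γ n hn hγ

theorem locB_one (v : HeightOneSpectrum (𝓞 K)) {x a : 𝓞 K} (hx : x ∈ v.asIdeal)
    (ha : a ∈ v.asIdeal) {c : 𝓞 K} (h : x - 1 = a * c) : False := by
  have h1 : (1 : 𝓞 K) ∈ v.asIdeal := by
    have e : (1 : 𝓞 K) = x - a * c := by linear_combination -h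
    rw [e]
    exact Ideal.sub_mem _ hx (Ideal.mul_mem_right _ _ ha)
  exact v.isPrime.ne_top ((Ideal.eq_top_iff_one _).2 h1)

theorem locB_two (v : HeightOneSpectrum (𝓞 K)) (h : (2 : 𝓞 K) ∈ v.asIdeal) :
    v.asIdeal = Ideal.span {2} := by
  refine le_antisymm (fun x hx => ?_) ((Ideal.span_singleton_le_iff_mem _).2 h)
  rw [Ideal.mem_span_singleton]
  by_contra hc
  have h1 : red x ≠ 0 := fun h1 => hc (red_eq_zero.1 h1)
  have h2 : ∀ y : F4, y ≠ 0 → y ^ 3 = 1 := by decide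
  have h3 : red (x ^ 3) = red 1 := by rw [map_pow, h2 _ h1, map_one]
  obtain ⟨y, hy⟩ := red_eq.1 h3
  exact locB_one v (Ideal.pow_mem_of_mem _ hx 3 (by norm_num)) h hy

theorem loc3_s3 (v : HeightOneSpectrum (𝓞 K)) (h : s3 ∈ v.asIdeal) :
    v.asIdeal = Ideal.span {s3} := by
  have h1 : ∀ x c : 𝓞 K, x ∈ v.asIdeal → x - 1 = s3 * c → False := by
    intro x c hx hc
    have h1 : (1 : 𝓞 K) ∈ v.asIdeal := by
      have e : (1 : 𝓞 K) = x - s3 * c := by linear_combination -hc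
      rw [e]
      exact Ideal.sub_mem _ hx (Ideal.mul_mem_right _ _ h)
    exact v.isPrime.ne_top ((Ideal.eq_top_iff_one _).2 h1)
  refine le_antisymm (fun x hx => ?_) ((Ideal.span_singleton_le_iff_mem _).2 h)
  rw [Ideal.mem_span_singleton]
  rcases exists_mod_s3 x with h2 | ⟨c, h2⟩ | ⟨c, h2⟩
  · exact h2
  · exact (h1 x c hx h2).elim
  · exact (h1 (-x) (-c) ((Ideal.neg_mem_iff _).2 hx) (by linear_combination -h2)).elim

private theorem loc3_nrm (v : HeightOneSpectrum (𝓞 K)) (h : v.asIdeal = Ideal.span {s3}) :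
    nrm v = 3 := by
  rw [nrm_eq, h, Ideal.absNorm_span_singleton]
  have e : s3 = ((1 : ℤ) : 𝓞 K) + ((2 : ℤ) : 𝓞 K) * wO := by
    rw [s3]
    push_cast
    ring
  have h1 := Nz_coords 1 2
  rw [← e] at h1
  change Nz s3 = 3
  have h2 : (Nz s3 : ℤ) = 3 := by
    rw [h1]
    norm_num
  exact_mod_cast h2

private theorem loc3_card {k : Type*} [Field k] [Finite k] (hk : Nat.card k = 3) :
    Nat.card (WeierstrassCurve.toAffine (⟨0, 0, 0, -1, 0⟩ : WeierstrassCurve k)).Point = 4 := by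
  classical
  have := Fintype.ofFinite k
  have hk' : Fintype.card k = 3 := by rw [← Nat.card_eq_fintype_card, hk]
  have h3 : (3 : k) = 0 := by
    have h := FiniteField.cast_card_eq_zero k
    rw [hk'] at h
    exact_mod_cast h
  have hx : ∀ x : k, x ^ 3 = x := by
    intro x
    have h := FiniteField.pow_card x
    rwa [hk'] at h
  set W : WeierstrassCurve k := ⟨0, 0, 0, -1, 0⟩ with hW
  have hD : W.Δ ≠ 0 := by
    have e : W.Δ = 1 := by
      simp only [hW, WeierstrassCurve.Δ, WeierstrassCurve.b₂, WeierstrassCurve.b₄,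
        WeierstrassCurve.b₆, WeierstrassCurve.b₈]
      linear_combination 21 * h3
    rw [e]
    exact one_ne_zero
  have hE : W.IsElliptic := ⟨isUnit_iff_ne_zero.mpr hD⟩
  have hns : ∀ p : k × k, W.toAffine.Nonsingular p.1 p.2 ↔ p.2 = 0 := by
    intro p
    rw [← WeierstrassCurve.Affine.equation_iff_nonsingular, WeierstrassCurve.Affine.equation_iff]
    simp only [hW, WeierstrassCurve.toAffine]
    have h1 := hx p.1
    constructor
    · intro h
      have h2 : p.2 ^ 2 = 0 := by linear_combination h + h1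
      exact pow_eq_zero_iff two_ne_zero |>.1 h2
    · intro h
      rw [h]
      linear_combination -h1
  rw [Nat.card_congr (pointEquivOption _), Finite.card_option]
  have e2 : Nat.card {p : k × k // W.toAffine.Nonsingular p.1 p.2} = 3 := by
    rw [← hk]
    refine Nat.card_congr ⟨fun p => p.1.1, fun x => ⟨(x, 0), (hns _).2 rfl⟩, ?_, fun _ => rfl⟩
    rintro ⟨⟨a, b⟩, h⟩
    have h1 : b = 0 := (hns _).1 h
    subst h1
    rfl
  rw [e2]

/-- the place above `3` if `δ = √-3 D`, `D = ± 1` modulo `√-3` -/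
theorem loc_three_gen (δ D : 𝓞 K) (v : HeightOneSpectrum (𝓞 K)) (h : s3 ∈ v.asIdeal)
    (hD : δ = s3 * D) (hD2 : D ^ 2 - 1 ∈ v.asIdeal) (x : ℂ) :
    aeval x (locPoly (Wg δ) v) = 1 + 3 * x ^ 2 := by
  have hv := loc3_s3 v h
  have hn := loc3_nrm v hv
  have hD0 : D ∉ v.asIdeal := by
    intro hm
    apply v.isPrime.ne_top
    rw [Ideal.eq_top_iff_one]
    have e : (1 : 𝓞 K) = D ^ 2 - (D ^ 2 - 1) := by ring
    rw [e]
    exact Ideal.sub_mem _ (Ideal.pow_mem_of_mem _ hm 2 (by norm_num)) hD2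
  have h2 : (2 : 𝓞 K) ∉ v.asIdeal := by
    intro hm
    apply v.isPrime.ne_top
    rw [Ideal.eq_top_iff_one]
    have e : (1 : 𝓞 K) = -1 * 2 + s3 * (-s3) := by linear_combination s3_sq
    rw [e]
    exact Ideal.add_mem _ (Ideal.mul_mem_left _ _ hm) (Ideal.mul_mem_right _ _ h)
  set σ : K := algebraMap (𝓞 K) K s3 with hσ
  set d : K := algebraMap (𝓞 K) K D with hd
  have hσ2 : σ ^ 2 = -3 := by
    rw [hσ, ← map_pow, s3_sq, map_neg, map_ofNat]
  have hσ0 : σ ≠ 0 := by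
    intro h0
    rw [h0] at hσ2
    norm_num at hσ2
  have hdl : ((δ : 𝓞 K) : K) = σ * d := by
    rw [hD, hσ, hd, ← map_mul]
  let C : WeierstrassCurve.VariableChange K := ⟨Units.mk0 σ hσ0, -(σ * d), 0, 0⟩
  let W₀ : WeierstrassCurve (𝓞 K) := ⟨0, s3 * D, 0, -D ^ 2, 0⟩
  have h3 : (3 : K) = -σ ^ 2 := by linear_combination hσ2
  have hC : C • Wg δ = W₀.map (algebraMap (𝓞 K) K) := by
    rw [WeierstrassCurve.variableChange_def]
    have e1 : (C.u⁻¹ : Kˣ).val = σ⁻¹ := rfl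
    ext
    · simp [C, W₀, Wg]
    · simp only [C, W₀, Wg, WeierstrassCurve.map, map_mul, ← hσ, ← hd, Units.val_inv_eq_inv_val,
        Units.val_mk0, h3]
      field_simp
      ring
    · simp [C, W₀, Wg]
    · simp only [C, W₀, Wg, WeierstrassCurve.map, map_mul, map_neg, map_pow, ← hd,
        Units.val_inv_eq_inv_val, Units.val_mk0, h3]
      field_simp
      ring
    · simp only [C, W₀, Wg, WeierstrassCurve.map, map_zero, hdl]
      ring
  have hΔ : W₀.Δ = 16 * D ^ 6 := by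
    simp only [W₀, WeierstrassCurve.Δ, WeierstrassCurve.b₂, WeierstrassCurve.b₄,
      WeierstrassCurve.b₆, WeierstrassCurve.b₈]
    linear_combination (16 * D ^ 6) * s3_sq
  have hmodel : locPoly ((Wg δ).baseChange K) v = _ :=
    locPoly_of_model (F := K) (K := K) (Wg δ) C W₀ hC v (by
      rw [hΔ]
      intro hmem
      change algebraMap (𝓞 K) (𝓞 K) (16 * D ^ 6) ∈ v.asIdeal at hmem
      rw [Algebra.algebraMap_self, RingHom.id_apply] at hmem
      rcases v.isPrime.mem_or_mem hmem with h4 | h4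
      · have e : (16 : 𝓞 K) = 2 ^ 4 := by norm_num
        rw [e] at h4
        exact h2 (v.isPrime.mem_of_pow_mem _ h4)
      · exact hD0 (v.isPrime.mem_of_pow_mem _ h4))
  have hbc : (Wg δ).baseChange K = Wg δ := WeierstrassCurve.map_id _
  rw [hbc] at hmodel
  have hker : ∀ y : 𝓞 K, y ∈ v.asIdeal → redMap K v y = 0 := by
    intro y hy
    rw [← RingHom.mem_ker, redMap_ker]
    exact hy
  have hred : W₀.map (redMap K v) = ⟨0, 0, 0, -1, 0⟩ := by
    have r1 : redMap K v (s3 * D) = 0 := hker _ (Ideal.mul_mem_right _ _ h)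
    have r2 : redMap K v (-D ^ 2) = -1 := by
      have r3 := hker _ hD2
      rw [map_sub, map_one] at r3
      rw [map_neg, sub_eq_zero.1 r3]
    simp only [W₀, WeierstrassCurve.map, map_zero, r1, r2]
  have hfin : Finite (IsLocalRing.ResidueField (v.adicCompletionIntegers K)) := finite_residue v
  have hcard : Nat.card (W₀.map (redMap K v)).toAffine.Point = 4 := by
    rw [hred]
    exact loc3_card hn
  have e : (((3 : ℕ) : ℤ) + 1 - ((4 : ℕ) : ℤ)) = 0 := by norm_num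
  rw [hmodel, hcard, hn, e, Polynomial.C_0, zero_mul, sub_zero, map_add, map_one, map_mul, map_pow,
    aeval_C, aeval_X]
  norm_num

end

end Pool.Agent.Lib.MP_1a91b9_ntE
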