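import Pool.Agent.Lib.MP_1a91b9_ntE.A.PntE
import Pool.Agent.Lib.MP_1a91b9_ntE.D.Mat
import Pool.Agent.Lib.MP_1a91b9_ntE.R.Two
import Pool.Agent.Lib.MP_1a91b9_ntH.A.Ind
import Pool.Agent.Lib.MP_1a91b9_ntH.A.RatZ

/-!
# Phase E (`2 ∣ δ`), part A, file OneE: phase 1 with signs (step E7)

The values of phase 1, with the signs of `-2`, and `1 / Y = 1 - 2 yy` modulo `4`, give the residue of
`∑ (W₁ + W₂) yy`.
-/

set_option autoImplicit false

namespace Pool.Agent.Lib.MP_1a91b9_ntE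

open NumberField Pool.Agent.Lib.MP_1a91b9_ntT
open Pool.Agent.Lib.MP_1a91b9_ntH hiding zt

noncomputable section

/-! ### The rotation -/

theorem qs_wO (q : Pq) : qs q wO = 1 := by
  have h := RatA_chi_wO {q}
  rwa [chi, Finset.prod_singleton] at h

/-- the rotation formula for general weights -/
theorem sum_E1_W {S : Finset Pq} {ι : Type} [Fintype ι] {c : ι → 𝓞 K}
    (h : Reps (6 * DD S) c) (w : 𝓞 K → ℂ) (hw1 : ∀ x y, DD S ∣ x - y → w x = w y)
    (hw2 : ∀ x, w (wO * x) = w x) :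
    ∑ i, w (c i) * E1 (em (c i) / em (6 * DD S)) =
      Om * ep * ∑ i, w (c i) / S3.Y (em (c i) / em (6 * DD S) - 1 / 2) := by
  have hν := RatA_six S
  have hν' := RatA_ne hν
  have hQ : ∀ i, 2 * (em (c i) / em (6 * DD S) - 1 / 2) ∉ PP.lattice := fun i =>
    RatA_notMem (h.cop i)
  obtain ⟨d, hd⟩ := DD_two S
  -- the multiplier
  have hu : IsCoprime (wO + 3 * DD S * (1 - wO)) (6 * DD S) := by
    have h1 : IsCoprime (wO + 3 * DD S * (1 - wO)) (3 * DD S) := by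
      refine ⟨wO ^ 2, 1 - wO ^ 2 * (1 - wO) - 1, ?_⟩
      linear_combination (wO - 1) * wO_quad
    have h2 : IsCoprime (wO + 3 * DD S * (1 - wO)) (2 : 𝓞 K) := by
      refine ⟨1, -(1 - wO) * (1 + 3 * d), ?_⟩
      linear_combination 3 * (1 - wO) * hd
    have e : (6 * DD S : 𝓞 K) = 2 * (3 * DD S) := by ring
    rw [e]
    exact h2.mul_right h1
  have huf : f0 ∣ wO + 3 * DD S * (1 - wO) - 1 := by
    rw [f0]
    refine s3_odd.mul_dvd ?_ ?_
    · refine ⟨(1 - wO) * (1 + 3 * d), ?_⟩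
      linear_combination 3 * (1 - wO) * hd
    · have h1 : s3 ∣ wO - 1 := ⟨1 + wO, by rw [s3]; linear_combination -2 * wO_quad⟩
      have e : wO + 3 * DD S * (1 - wO) - 1 = (wO - 1) * (1 - 3 * DD S) := by ring
      rw [e]
      exact h1.mul_right _
  obtain ⟨σ, hσ⟩ := h.perm hu huf
  have hchi : ∀ i, w (c (σ i)) = w (c i) := by
    intro i
    have h1 : DD S ∣ c (σ i) - wO * c i := by
      have h2 : DD S ∣ (wO + 3 * DD S * (1 - wO)) * c i - c (σ i) :=
        (dvd_mul_left _ _).trans (hσ i)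
      have h3 : DD S ∣ DD S * (3 * (1 - wO) * c i) := dvd_mul_right _ _
      have h4 := dvd_sub h3 h2
      rwa [show DD S * (3 * (1 - wO) * c i) - ((wO + 3 * DD S * (1 - wO)) * c i - c (σ i)) =
        c (σ i) - wO * c i by ring] at h4
    rw [hw1 _ _ h1, hw2]
  have hlat : ∀ i, (em (c (σ i)) / em (6 * DD S) - 1 / 2) -
      zt * (em (c i) / em (6 * DD S) - 1 / 2) ∈ PP.lattice := by
    intro i
    obtain ⟨k, hk⟩ : (2 : 𝓞 K) ∣ c i - 1 := (dvd_mul_right _ _).trans (h.fx i)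
    have h1 := RatA_lat hν (hσ i)
    have e1 : em ((wO + 3 * DD S * (1 - wO)) * c i) / em (6 * DD S) =
        zt * (em (c i) / em (6 * DD S)) + (1 - zt) / 2 + em ((1 - wO) * k) := by
      have e2 : c i = 1 + ((2 : ℕ) : 𝓞 K) * k := by push_cast; linear_combination hk
      have e3 : em (6 * DD S) = 6 * em (DD S) := by
        have e : (6 * DD S : 𝓞 K) = ((6 : ℕ) : 𝓞 K) * DD S := by push_cast; ring
        rw [e, RatA_mul, RatA_ofNat]
        norm_num
      have e4 : em (3 * DD S) = 3 * em (DD S) := by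
        have e : (3 * DD S : 𝓞 K) = ((3 : ℕ) : 𝓞 K) * DD S := by push_cast; ring
        rw [e, RatA_mul, RatA_ofNat]
        norm_num
      have hD := RatA_ne (DD_ne S)
      rw [RatA_mul, RatA_add, RatA_mul (3 * DD S), RatA_mul (1 - wO), RatA_sub, RatA_one, RatA_wO, e3,
        e4]
      have e5 : em (c i) = 1 + 2 * em k := by
        rw [e2, RatA_add, RatA_mul, RatA_one, RatA_ofNat]
        norm_num
      rw [e5]
      field_simp
      ring
    rw [e1] at h1
    have h2 := sub_mem (RatA_mem ((1 - wO) * k)) h1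
    have e : em ((1 - wO) * k) - (zt * (em (c i) / em (6 * DD S)) + (1 - zt) / 2 +
        em ((1 - wO) * k) - em (c (σ i)) / em (6 * DD S)) =
        (em (c (σ i)) / em (6 * DD S) - 1 / 2) -
      zt * (em (c i) / em (6 * DD S) - 1 / 2) := by ring
    rwa [e] at h2
  have hz3 := S3.zt_cube
  have hE : ∀ i, E1 (em (c (σ i)) / em (6 * DD S)) =
      zt ^ 2 * E1 (zt ^ 2 * (1 / 2) + (em (c i) / em (6 * DD S) - 1 / 2)) := by
    intro i
    rw [← s3_zt]
    have e : em (c (σ i)) / em (6 * DD S) =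
        zt * (zt ^ 2 * (1 / 2) + (em (c i) / em (6 * DD S) - 1 / 2)) +
          ((em (c (σ i)) / em (6 * DD S) - 1 / 2) -
            zt * (em (c i) / em (6 * DD S) - 1 / 2)) := by
      linear_combination (-1 / 2 : ℂ) * hz3
    conv_lhs => rw [e]
    rw [S3.E1_add (hlat i)]
  have hE2 : ∀ i, E1 (em (c (σ (σ i))) / em (6 * DD S)) =
      zt * E1 (zt * (1 / 2) + (em (c i) / em (6 * DD S) - 1 / 2)) := by
    intro i
    have e0 : zt * E1 (zt * (1 / 2) + (em (c i) / em (6 * DD S) - 1 / 2)) =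
        E1 (zt * (zt * (zt * (1 / 2) + (em (c i) / em (6 * DD S) - 1 / 2)))) := by
      rw [s3_zt, s3_zt]
      linear_combination -(zt * E1 (zt * (1 / 2) + (em (c i) / em (6 * DD S) - 1 / 2))) * hz3
    rw [e0]
    have e : em (c (σ (σ i))) / em (6 * DD S) =
        zt * (zt * (zt * (1 / 2) + (em (c i) / em (6 * DD S) - 1 / 2))) +
          (((em (c (σ (σ i))) / em (6 * DD S) - 1 / 2) -
            zt * (em (c (σ i)) / em (6 * DD S) - 1 / 2)) +
            zt * ((em (c (σ i)) / em (6 * DD S) - 1 / 2) -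
            zt * (em (c i) / em (6 * DD S) - 1 / 2))) := by
      linear_combination (-1 / 2 : ℂ) * hz3
    conv_lhs => rw [e]
    rw [S3.E1_add (add_mem (hlat (σ i)) (S3.zt_mul_mem.2 (hlat i)))]
  -- the three forms of the sum
  have g0 : ∑ i, w (c i) * E1 (em (c i) / em (6 * DD S)) =
      ∑ i, w (c i) * E1 (1 / 2 + (em (c i) / em (6 * DD S) - 1 / 2)) := by
    refine Finset.sum_congr rfl fun i _ => ?_
    congr 2
    ring
  have g1 : ∑ i, w (c i) * E1 (em (c i) / em (6 * DD S)) =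
      ∑ i, w (c i) *
        (zt ^ 2 * E1 (zt ^ 2 * (1 / 2) + (em (c i) / em (6 * DD S) - 1 / 2))) := by
    rw [← Equiv.sum_comp σ]
    refine Finset.sum_congr rfl fun i _ => ?_
    rw [hchi, hE]
  have g2 : ∑ i, w (c i) * E1 (em (c i) / em (6 * DD S)) =
      ∑ i, w (c i) *
        (zt * E1 (zt * (1 / 2) + (em (c i) / em (6 * DD S) - 1 / 2))) := by
    rw [← Equiv.sum_comp σ, ← Equiv.sum_comp σ]
    refine Finset.sum_congr rfl fun i _ => ?_
    rw [hchi, hchi, hE2]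
  have g3 : 3 * ∑ i, w (c i) * E1 (em (c i) / em (6 * DD S)) =
      3 * (Om * ep * ∑ i, w (c i) / S3.Y (em (c i) / em (6 * DD S) - 1 / 2)) := by
    have e : 3 * ∑ i, w (c i) * E1 (em (c i) / em (6 * DD S)) =
        ∑ i, w (c i) * E1 (1 / 2 + (em (c i) / em (6 * DD S) - 1 / 2)) +
        ∑ i, w (c i) *
          (zt * E1 (zt * (1 / 2) + (em (c i) / em (6 * DD S) - 1 / 2))) +
        ∑ i, w (c i) *
          (zt ^ 2 * E1 (zt ^ 2 * (1 / 2) + (em (c i) / em (6 * DD S) - 1 / 2))) := by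
      rw [← g0, ← g1, ← g2]
      ring
    rw [e, ← Finset.sum_add_distrib, ← Finset.sum_add_distrib, Finset.mul_sum, Finset.mul_sum]
    refine Finset.sum_congr rfl fun i _ => ?_
    have h1 := RatZ_three (hQ i)
    rw [← mul_add, ← mul_add, h1, ← RatA_ep]
    ring
  exact mul_left_cancel₀ (by norm_num) g3

/-- the rotation formula for the weights of this part -/
theorem sum_E1_WE (e : Pq → ℤ) {D : Finset Pq} {ι : Type} [Fintype ι] {c : ι → 𝓞 K}
    (h : Reps (6 * DD D) c) :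
    ∑ i, WE e D (c i) * E1 (em (c i) / em (6 * DD D)) =
      Om * ep * ∑ i, WE e D (c i) / S3.Y (em (c i) / em (6 * DD D) - 1 / 2) := by
  refine sum_E1_W h (WE e D) (fun x y hxy => WE_congr e hxy) fun x => ?_
  rw [WE, WE]
  refine Finset.prod_congr rfl fun q _ => ?_
  rw [qs_mul, qs_wO, one_mul]

/-! ### The identity with signs -/

/-- the Euler factor divided by `2` -/
def fac (S : Finset Pq) (q : Pq) : ℂ := (1 - (chi S q.1 : ℂ) / em q.1) / 2

theorem em_ne {x : 𝓞 K} (hx : x ≠ 0) : em x ≠ 0 := RatA_ne hx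

/-- the identity of phase 1 with signs -/
theorem sum_nu (e : Pq → ℤ) {D : Finset Pq} {ι : Type} [Fintype ι] {c : ι → 𝓞 K}
    (h : Reps (6 * DD D) c) :
    ∑ S ∈ D.powerset, ((∏ q ∈ S, e q : ℤ) : ℂ) * (nu S * ∏ q ∈ D \ S, fac S q) =
      (em (DD D))⁻¹ * ∑ i, WE e D (c i) / S3.Y (em (c i) / em (6 * DD D) - 1 / 2) := by
  have hOm := s3_Om
  have hep := ep_ne
  have h2D := em_ne (DD_ne D)
  have e2 : em (6 * DD D) = 6 * em (DD D) := by
    have e : (6 * DD D : 𝓞 K) = ((6 : ℕ) : 𝓞 K) * DD D := by push_cast; ring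
    rw [e, RatA_mul, RatA_ofNat]
    norm_num
  have e1 : ∀ S ∈ D.powerset, ((∏ q ∈ S, e q : ℤ) : ℂ) * (nu S * ∏ q ∈ D \ S, fac S q) =
      (em (DD D))⁻¹ * ((Om * ep)⁻¹ * ∑ i, (((∏ q ∈ S, e q : ℤ) : ℂ) * (chi S (c i) : ℂ) /
        2 ^ D.card) * E1 (em (c i) / em (6 * DD D))) := by
    intro S hS
    have hS' := Finset.mem_powerset.1 hS
    have h0 := euler_id hS' h
    have h3 : D.card = S.card + (D \ S).card := by
      rw [Finset.card_sdiff_of_subset hS']
      have := Finset.card_le_card hS'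
      omega
    have h4 : (2 : ℂ) ^ S.card ≠ 0 := pow_ne_zero _ (by norm_num)
    have h5 : (2 : ℂ) ^ (D \ S).card ≠ 0 := pow_ne_zero _ (by norm_num)
    have h6 : nu S * ∏ q ∈ D \ S, fac S q = 6 / (Om * ep * 2 ^ D.card) *
        (LS S 1 * ∏ q ∈ D \ S, (1 - (chi S q.1 : ℂ) / em q.1)) := by
      simp only [fac]
      rw [Finset.prod_div_distrib, Finset.prod_const, nu, h3, pow_add]
      field_simp
    rw [h6, h0, e2]
    have h7 : ∑ i, (((∏ q ∈ S, e q : ℤ) : ℂ) * (chi S (c i) : ℂ) / 2 ^ D.card) *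
        E1 (em (c i) / (6 * em (DD D))) = ((∏ q ∈ S, e q : ℤ) : ℂ) / 2 ^ D.card *
        ∑ i, (chi S (c i) : ℂ) * E1 (em (c i) / (6 * em (DD D))) := by
      rw [Finset.mul_sum]
      refine Finset.sum_congr rfl fun i _ => ?_
      ring
    rw [h7]
    have h8 : (2 : ℂ) ^ D.card ≠ 0 := pow_ne_zero _ (by norm_num)
    field_simp
  rw [Finset.sum_congr rfl e1, ← Finset.mul_sum, ← Finset.mul_sum, Finset.sum_comm]
  congr 1
  have e3 : ∀ i, ∑ S ∈ D.powerset, (((∏ q ∈ S, e q : ℤ) : ℂ) * (chi S (c i) : ℂ) / 2 ^ D.card) *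
      E1 (em (c i) / em (6 * DD D)) = WE e D (c i) * E1 (em (c i) / em (6 * DD D)) := by
    intro i
    rw [← Finset.sum_mul, ← Finset.sum_div]
    congr 1
    rw [WE, Finset.prod_div_distrib, Finset.prod_const]
    congr 1
    have h1 : ∏ q ∈ D, ((1 + e q * qs q (c i) : ℤ) : ℂ) =
        ((∏ q ∈ D, (1 + e q * qs q (c i)) : ℤ) : ℂ) := by
      push_cast
      rfl
    rw [h1, Finset.prod_one_add]
    push_cast
    refine Finset.sum_congr rfl fun S _ => ?_
    rw [Finset.prod_mul_distrib, chi]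
    push_cast
    rfl
  rw [Finset.sum_congr rfl fun i _ => e3 i, sum_E1_WE e h, ← mul_assoc,
    inv_mul_cancel₀ (mul_ne_zero hOm hep), one_mul]

/-! ### The residue -/

theorem fac_res {A : ValuationSubring ℂ} (hA : Two A) {S : Finset Pq} {q : Pq} (hq : q ∉ S) :
    Rs A (fac S q) (qd.a q + ∑ p ∈ S, F4.of (qd.s q p)) := by
  obtain ⟨n, hn, hn'⟩ := chi_qd hq
  have h2 : (2 : 𝓞 K) ∣ q.1 - 1 := (dvd_mul_right _ _).trans (f0_dvd q)
  have h0 : em q.1 ≠ 0 := em_ne q.2.1.ne_zero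
  have h3 : em q.1 = 1 + 2 * em (half q.1) := by
    have h4 := congrArg em (half_spec h2)
    have h5 : (1 + 2 * half q.1 : 𝓞 K) = 1 + ((2 : ℕ) : 𝓞 K) * half q.1 := by push_cast; ring
    rw [h5, RatA_add, RatA_mul, RatA_one, RatA_ofNat] at h4
    rw [h4]
    norm_num
  have e : fac S q = (em (half q.1) + (n : ℂ)) * (em q.1)⁻¹ := by
    have h5 : (chi S q.1 : ℂ) = 1 - 2 * (n : ℂ) := by
      rw [hn]
      push_cast
      ring
    rw [fac, h5]
    field_simp
    rw [h3]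
    ring
  have hi : Rs A (em q.1)⁻¹ 1 := by
    have h1 : red q.1 = 1 := by
      rw [← map_one red, red_eq]
      exact h2
    have h2 := Rs.of (A := A) q.1
    rw [h1] at h2
    exact h2.inv hA
  rw [e]
  have h6 := ((Rs.of (A := A) (half q.1)).add (Rs.int (A := A) n)).mul hi
  rw [hn', mul_one] at h6
  exact h6

theorem sgz_sum (S : Finset Pq) (b : Pq → ZMod 2) : ∏ q ∈ S, sgz (b q) = sgz (∑ q ∈ S, b q) := by
  classical
  induction S using Finset.induction_on with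
  | empty =>
    rw [Finset.prod_empty, Finset.sum_empty]
    rfl
  | insert q S hq ih =>
    rw [Finset.prod_insert hq, Finset.sum_insert hq, ih]
    have h : ∀ x y : ZMod 2, sgz x * sgz y = sgz (x + y) := by decide
    exact h _ _

/-- **step E7** -/
theorem oneE {A : ValuationSubring ℂ} (hA : Two A) {D : Finset Pq} {ι : Type} [Fintype ι]
    {v : ι → 𝓞 K} (hv : Reps (6 * DD D) v) (b : Pq → ZMod 2) (hb : ∀ q, e2 q = sgz (b q)) :
    Rs A (∑ i, (WE (fun _ => 1) D (v i) + WE e2 D (v i)) *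
      yy (em (v i) / em (6 * DD D) - 1 / 2))
      (∑ S ∈ D.powerset, if ∑ q ∈ S, b q = 1 then
        (qd.M S).det * ∏ q ∈ D \ S, (qd.a q + ∑ p ∈ S, F4.of (qd.s q p)) else 0) := by
  classical
  -- the points
  have h3D : (3 * DD D : 𝓞 K) ≠ 0 := mul_ne_zero (by norm_num) (DD_ne D)
  have h3D' := RatA_ne h3D
  have e6 : em (6 * DD D) = 2 * em (3 * DD D) := by
    have e : (6 * DD D : 𝓞 K) = ((2 : ℕ) : 𝓞 K) * (3 * DD D) := by push_cast; ring
    rw [e, RatA_mul, RatA_ofNat]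
    norm_num
  have hQ2 : ∀ i, 2 * (em (v i) / em (6 * DD D) - 1 / 2) ∉ PP.lattice := fun i =>
    RatA_notMem (hv.cop i)
  have hQ0 : ∀ i, em (v i) / em (6 * DD D) - 1 / 2 ∉ PP.lattice := fun i h =>
    hQ2 i (by exact_mod_cast S3.mul_int_mem h 2)
  have hQO : ∀ i, Od (em (v i) / em (6 * DD D) - 1 / 2) := by
    intro i
    obtain ⟨k, hk⟩ : (2 : 𝓞 K) ∣ v i - 1 := (dvd_mul_right _ _).trans (hv.fx i)
    obtain ⟨l, hl⟩ := DD_two D
    have hm : IsCoprime (3 * DD D : 𝓞 K) 2 := by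
      refine IsCoprime.mul_left ⟨1, -1, by norm_num⟩ ⟨1, -l, by linear_combination hl⟩
    obtain ⟨n, hn, hnz⟩ := Half_odd hm (z := em (v i) / em (6 * DD D) - 1 / 2) ⟨k - 3 * l - 1, by
      have e1 : v i = 3 * DD D + ((2 : ℕ) : 𝓞 K) * (k - 3 * l - 1) := by
        push_cast
        linear_combination hk - 3 * hl
      have e2 : em (v i) = em (3 * DD D) + 2 * em (k - 3 * l - 1) := by
        conv_lhs => rw [e1]
        rw [RatA_add, RatA_mul ((2 : ℕ) : 𝓞 K), RatA_ofNat]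
        norm_num
      rw [e6, e2]
      field_simp
      ring⟩
    exact ⟨n, hn, hnz⟩
  have w1 : ∀ i, WE (fun _ => 1) D (v i) = 0 ∨ WE (fun _ => 1) D (v i) = 1 := fun i =>
    WE_cases (fun _ _ => Or.inl rfl) fun q hq => not_dvd_of_reps hv i hq
  have w2 : ∀ i, WE e2 D (v i) = 0 ∨ WE e2 D (v i) = 1 := fun i =>
    WE_cases (fun q _ => e2_cases q) fun q hq => not_dvd_of_reps hv i hq
  have w1m : ∀ i, WE (fun _ => 1) D (v i) ∈ A := fun i => by
    rcases w1 i with h | h <;> rw [h]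
    · exact zero_mem A
    · exact one_mem A
  have w2m : ∀ i, WE e2 D (v i) ∈ A := fun i => by
    rcases w2 i with h | h <;> rw [h]
    · exact zero_mem A
    · exact one_mem A
  have qm : ∀ i, yy (em (v i) / em (6 * DD D) - 1 / 2) ∈ A := fun i => yy_mem hA (hQO i) (hQ0 i)
  obtain ⟨σ, hσ⟩ := exists_perm hv
  have hsum : ∑ i, WE (fun _ => 1) D (v i) = ∑ i, WE e2 D (v i) := by
    rw [← Equiv.sum_comp σ (fun i => WE e2 D (v i))]
    exact Finset.sum_congr rfl fun i _ => (hσ i).1.symm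
  -- the difference of the two identities
  have a1 := sum_nu (fun _ => 1) hv
  have a2 := sum_nu e2 hv
  have hsg : ∀ S : Finset Pq, ((∏ q ∈ S, (1 : ℤ) : ℤ) : ℂ) - ((∏ q ∈ S, e2 q : ℤ) : ℂ) =
      2 * (((if ∑ q ∈ S, b q = 1 then 1 else 0 : ℤ)) : ℂ) := by
    intro S
    rw [Finset.prod_const_one, Finset.prod_congr rfl fun q _ => hb q, sgz_sum]
    have h : ∀ x : ZMod 2, (1 : ℤ) - sgz x = 2 * (if x = 1 then 1 else 0) := by decide
    have h1 := h (∑ q ∈ S, b q)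
    exact_mod_cast congrArg (fun z : ℤ => (z : ℂ)) h1
  have a3 : ∑ S ∈ D.powerset, (((if ∑ q ∈ S, b q = 1 then 1 else 0 : ℤ)) : ℂ) *
      (nu S * ∏ q ∈ D \ S, fac S q) =
      -((em (DD D))⁻¹ * ∑ i, (WE (fun _ => 1) D (v i) - WE e2 D (v i)) *
        (yy (em (v i) / em (6 * DD D) - 1 / 2) *
          (S3.Y (em (v i) / em (6 * DD D) - 1 / 2))⁻¹)) := by
    have b1 : 2 * ∑ S ∈ D.powerset, (((if ∑ q ∈ S, b q = 1 then 1 else 0 : ℤ)) : ℂ) *
        (nu S * ∏ q ∈ D \ S, fac S q) =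
        ∑ S ∈ D.powerset, ((∏ q ∈ S, (1 : ℤ) : ℤ) : ℂ) * (nu S * ∏ q ∈ D \ S, fac S q) -
        ∑ S ∈ D.powerset, ((∏ q ∈ S, e2 q : ℤ) : ℂ) * (nu S * ∏ q ∈ D \ S, fac S q) := by
      rw [← Finset.sum_sub_distrib, Finset.mul_sum]
      refine Finset.sum_congr rfl fun S _ => ?_
      rw [← sub_mul, hsg S]
      ring
    have b2 : ∀ i, WE (fun _ => 1) D (v i) / S3.Y (em (v i) / em (6 * DD D) - 1 / 2) -
        WE e2 D (v i) / S3.Y (em (v i) / em (6 * DD D) - 1 / 2) =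
        (WE (fun _ => 1) D (v i) - WE e2 D (v i)) - 2 *
          ((WE (fun _ => 1) D (v i) - WE e2 D (v i)) *
            (yy (em (v i) / em (6 * DD D) - 1 / 2) *
              (S3.Y (em (v i) / em (6 * DD D) - 1 / 2))⁻¹)) := by
      intro i
      have hY := Rq.Y_ne (hQ2 i)
      rw [yy]
      generalize S3.Y (em (v i) / em (6 * DD D) - 1 / 2) = t at hY ⊢
      field_simp
      ring
    have b3 : ∑ i, WE (fun _ => 1) D (v i) / S3.Y (em (v i) / em (6 * DD D) - 1 / 2) -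
        ∑ i, WE e2 D (v i) / S3.Y (em (v i) / em (6 * DD D) - 1 / 2) =
        -2 * ∑ i, (WE (fun _ => 1) D (v i) - WE e2 D (v i)) *
            (yy (em (v i) / em (6 * DD D) - 1 / 2) *
              (S3.Y (em (v i) / em (6 * DD D) - 1 / 2))⁻¹) := by
      rw [← Finset.sum_sub_distrib, Finset.sum_congr rfl fun i _ => b2 i, Finset.sum_sub_distrib,
        Finset.sum_sub_distrib, hsum, sub_self, zero_sub, ← Finset.mul_sum]
      ring
    rw [a1, a2, ← mul_sub, b3] at b1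
    have two : (2 : ℂ) ≠ 0 := two_ne_zero
    apply mul_left_cancel₀ two
    rw [b1]
    ring
  -- the residue of the left side
  have r1 : Rs A (∑ S ∈ D.powerset, (((if ∑ q ∈ S, b q = 1 then 1 else 0 : ℤ)) : ℂ) *
      (nu S * ∏ q ∈ D \ S, fac S q))
      (∑ S ∈ D.powerset, if ∑ q ∈ S, b q = 1 then
        (qd.M S).det * ∏ q ∈ D \ S, (qd.a q + ∑ p ∈ S, F4.of (qd.s q p)) else 0) := by
    refine Rs.sum _ fun S hS => ?_
    have h1 := (Rs.int (A := A) (if ∑ q ∈ S, b q = 1 then 1 else 0)).mul ((nu_res hA S).mul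
      (Rs.prod (A := A) (D \ S) (z := fun q => fac S q)
        (y := fun q => qd.a q + ∑ p ∈ S, F4.of (qd.s q p)) fun q hq =>
          fac_res hA (Finset.mem_sdiff.1 hq).2))
    refine cast ?_ h1
    congr 1
    split_ifs
    · rw [Int.cast_one, one_mul]
    · rw [Int.cast_zero, zero_mul]
  -- comparison
  refine Rs.congr r1 ?_
  rw [a3]
  have hDm : Rs A (em (DD D))⁻¹ 1 := by
    have h1 : red (DD D) = 1 := by
      rw [← map_one red, red_eq]
      exact DD_two D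
    have h2 := Rs.of (A := A) (DD D)
    rw [h1] at h2
    exact h2.inv hA
  have c1 : Cg A (em (DD D))⁻¹ 1 := by
    rw [← map_one red] at hDm
    have := Cg.of_rs hDm hA
    rwa [Res_em_one] at this
  have c2 : ∀ i, Cg A (S3.Y (em (v i) / em (6 * DD D) - 1 / 2))⁻¹ 1 := by
    intro i
    have h1 : Rs A (S3.Y (em (v i) / em (6 * DD D) - 1 / 2)) 1 := by
      refine Rs.congr Rs.one ?_
      have e : S3.Y (em (v i) / em (6 * DD D) - 1 / 2) - 1 =
          2 * yy (em (v i) / em (6 * DD D) - 1 / 2) := by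
        rw [yy]
        ring
      rw [e, map_mul]
      exact mul_lt_one_of_lt_of_le (S3.v_two_lt hA) (vle (qm i))
    have h2 := h1.inv hA
    rw [← map_one red] at h2
    have := Cg.of_rs h2 hA
    rwa [Res_em_one] at this
  have c3 : Cg A (∑ i, (WE (fun _ => 1) D (v i) - WE e2 D (v i)) *
      (yy (em (v i) / em (6 * DD D) - 1 / 2) *
        (S3.Y (em (v i) / em (6 * DD D) - 1 / 2))⁻¹))
      (∑ i, (WE (fun _ => 1) D (v i) - WE e2 D (v i)) *
        yy (em (v i) / em (6 * DD D) - 1 / 2)) := by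
    refine Cg.sum _ fun i _ => (Cg.refl (sub_mem (w1m i) (w2m i))).mul ?_
    have h1 := (Cg.refl (qm i)).mul (c2 i)
    rwa [mul_one] at h1
  have c4 := c1.mul c3
  rw [one_mul] at c4
  have c5 : Cg A (∑ i, (WE (fun _ => 1) D (v i) + WE e2 D (v i)) *
      yy (em (v i) / em (6 * DD D) - 1 / 2))
      (-∑ i, (WE (fun _ => 1) D (v i) - WE e2 D (v i)) *
        yy (em (v i) / em (6 * DD D) - 1 / 2)) := by
    refine Cg.two hA (c := -∑ i, WE (fun _ => 1) D (v i) *
      yy (em (v i) / em (6 * DD D) - 1 / 2)) (sum_mem fun i _ => mul_mem (add_mem (w1m i) (w2m i))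
      (qm i)) (neg_mem (sum_mem fun i _ => mul_mem (w1m i) (qm i))) ?_
    simp only [add_mul, sub_mul, Finset.sum_add_distrib, Finset.sum_sub_distrib]
    ring
  have c6 : Cg A (-∑ i, (WE (fun _ => 1) D (v i) - WE e2 D (v i)) *
        yy (em (v i) / em (6 * DD D) - 1 / 2))
      (-((em (DD D))⁻¹ * ∑ i, (WE (fun _ => 1) D (v i) - WE e2 D (v i)) *
        (yy (em (v i) / em (6 * DD D) - 1 / 2) *
          (S3.Y (em (v i) / em (6 * DD D) - 1 / 2))⁻¹))) := by
    have n1 : (-1 : ℂ) ∈ A := neg_mem (one_mem A)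
    have h1 := (Cg.refl n1).mul c4.symm
    rwa [neg_one_mul, neg_one_mul] at h1
  exact (c5.trans c6).2.2

/-- the symbol of `-2` -/
theorem e2_eq (q : Pq) : e2 q = sgz (F4.tr (qE.a q) + qE.g q) := by
  have e : (-2 : 𝓞 K) = -1 * 2 := by ring
  rw [e2, e, qs_mul, qs_neg_one, qs_two]
  have h : ∀ x y : ZMod 2, sgz x * sgz y = sgz (x + y) := by decide
  exact h _ _

/-- **step E7** -/
theorem oneE_KAP {A : ValuationSubring ℂ} (hA : Two A) {D : Finset Pq} {ι : Type} [Fintype ι]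
    {v : ι → 𝓞 K} (hv : Reps (6 * DD D) v) :
    Rs A (∑ i, (WE (fun _ => 1) D (v i) + WE e2 D (v i)) *
      yy (em (v i) / em (6 * DD D) - 1 / 2)) (qE.KAP D) :=
  oneE hA hv _ e2_eq

/-- **steps E6 and E7** -/
theorem pntE_KAP {A : ValuationSubring ℂ} (hA : Two A) {D : Finset Pq} {ι : Type} [Fintype ι]
    {v : ι → 𝓞 K} (hv : Reps (6 * DD D) v) {P r : ι → ℂ}
    (hP : ∀ i, ∃ n : ℕ, Odd n ∧ (n : ℂ) * P i ∈ PP.lattice)
    (hP4 : ∀ i, 4 * P i - em (v i) / em (3 * DD D) ∈ PP.lattice)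
    (hr : ∀ i, A.valuation (r i ^ 2 - S3.X (P i)) < 1) :
    Rs A (∑ i, WE (fun _ => 1) D (v i) * (r i * S3.X (P i) + S3.X (P i) ^ 3))
      (F4.cj (qE.KAP D)) :=
  pntE hA hv hP hP4 hr (oneE_KAP hA hv)

end

end Pool.Agent.Lib.MP_1a91b9_ntE
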