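import Pool.Agent.Lib.MP_1a91b9_ntE.A.EulE
import Pool.Agent.Lib.MP_1a91b9_ntH2.A.Quarter
import Pool.Agent.Lib.MP_1a91b9_ntH.A.Rep

/-!
# TwistDensity, even case, part A, file RhoE (E2): the averaging identity in the form
`∑ W(v) Φ_c(ρ)`, `8 ρ = v / (3 D)`
-/

set_option autoImplicit false

namespace Pool.Agent.Lib.MP_1a91b9_ntE

open NumberField IsDedekindDomain Pool.Agent.Lib.MP_1a91b9_ntT Pool.Agent.Lib.MP_1a91b9_ntG
  Pool.Agent.Lib.MP_1a91b9_ntH Pool.Agent.Lib.MP_1a91b9_ntH2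

noncomputable section

/-! ### Periodicity of `FP` -/

theorem FP_add (c : F4) {l : ℂ} (hl : l ∈ PP.lattice) (P : ℂ) : FP c (P + l) = FP c P := by
  rw [FP, FP]
  refine Finset.sum_congr rfl fun x _ => ?_
  have e : P + l + em (lft x) / 2 = P + em (lft x) / 2 + l := by ring
  rw [e, S3.E1_add hl]

theorem em_mem (a : 𝓞 K) : em a ∈ PP.lattice := Half_mem_iff.2 ⟨a, rfl⟩

theorem lft_add (x y : F4) : ∃ t : 𝓞 K, lft x + lft y = lft (x + y) + 2 * t := by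
  have h : red (lft x + lft y) = red (lft (x + y)) := by rw [map_add, red_lft, red_lft, red_lft]
  obtain ⟨t, ht⟩ := red_eq.1 h
  exact ⟨t, by linear_combination ht⟩

/-- translation of `FP c` by a point of order two -/
theorem FP_half (c y : F4) (P : ℂ) :
    FP c (P + em (lft y) / 2) = (sgz (F4.tr (c * y)) : ℂ) * FP c P := by
  have h2 : ∀ x : F4, E1 (P + em (lft y) / 2 + em (lft x) / 2) = E1 (P + em (lft (x + y)) / 2) := by
    intro x
    obtain ⟨t, ht⟩ := lft_add x y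
    have e : P + em (lft y) / 2 + em (lft x) / 2 = P + em (lft (x + y)) / 2 + em t := by
      have h3 : em (lft x) + em (lft y) = em (lft (x + y)) + 2 * em t := by
        rw [← EulC_em_add, ht, EulC_em_add, EulC_em_mul]
        congr 2
        exact Res_em_int 2
      linear_combination h3 / 2
    rw [e, S3.E1_add (em_mem t)]
  have h4 : FP c P = ∑ x : F4, (sgz (F4.tr (c * (x + y))) : ℂ) * E1 (P + em (lft (x + y)) / 2) :=
    (Equiv.sum_comp (Equiv.addRight y)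
      (fun x : F4 => (sgz (F4.tr (c * x)) : ℂ) * E1 (P + em (lft x) / 2))).symm
  rw [h4, FP, Finset.mul_sum]
  refine Finset.sum_congr rfl fun x _ => ?_
  rw [h2, mul_add, SumC_F4_tr_add, sgz_add]
  rcases sgz_cases (F4.tr (c * y)) with h5 | h5 <;> rw [h5] <;> push_cast <;> ring

/-! ### The representatives congruent to `3 DD D` modulo `8` -/

theorem exists_yb (D : Finset Pq) : ∃ x y : 𝓞 K, 3 * DD D * x + 8 * y = 1 := by
  have h : IsCoprime (3 * DD D) (8 : 𝓞 K) := by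
    have e : (8 : 𝓞 K) = 2 ^ 3 := by norm_num
    rw [e]
    refine IsCoprime.pow_right ?_
    obtain ⟨d, hd⟩ := DD_two D
    exact ⟨1, -(1 + 3 * d), by linear_combination 3 * hd⟩
  obtain ⟨x, y, hxy⟩ := h
  exact ⟨x, y, by linear_combination hxy⟩

def xbE (D : Finset Pq) : 𝓞 K := (exists_yb D).choose

def ybE (D : Finset Pq) : 𝓞 K := (exists_yb D).choose_spec.choose

theorem xbE_ybE (D : Finset Pq) : 3 * DD D * xbE D + 8 * ybE D = 1 :=
  (exists_yb D).choose_spec.choose_spec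

/-- the point `ρ` with `8 ρ = v / (3 D)` -/
def rhoE (D : Finset Pq) (v : 𝓞 K) : ℂ := em (v * ybE D) / em (3 * DD D)

/-- a change of representatives -/
theorem Reps_shift {D : Finset Pq} {ι : Type} {c : ι → 𝓞 K} (h : Reps (6 * DD D) c) (e : ι → 𝓞 K) :
    Reps (6 * DD D) (fun i => c i + 6 * DD D * e i) where
  ne := h.ne
  dvd := h.dvd
  fx := by
    intro i
    have e1 : c i + 6 * DD D * e i - 1 = (c i - 1) + 6 * (DD D * e i) := by ring
    rw [e1]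
    exact dvd_add (h.fx i) (f0_dvd_six.mul_right _)
  cop := by
    intro i
    obtain ⟨p, q, hpq⟩ := h.cop i
    exact ⟨p, q - p * e i, by linear_combination hpq⟩
  ex := by
    intro a ha h1
    obtain ⟨i, t, ht⟩ := h.ex a ha h1
    exact ⟨i, t - e i, by linear_combination ht⟩
  inj := by
    rintro i j ⟨t, ht⟩
    exact h.inj i j ⟨t - e i + e j, by linear_combination ht⟩

theorem Rho_shift {D : Finset Pq} {a : 𝓞 K} (ha : (2 : 𝓞 K) ∣ a - 1) :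
    ∃ e : 𝓞 K, (8 : 𝓞 K) ∣ a + 6 * DD D * e - 3 * DD D := by
  obtain ⟨t, ht⟩ := ha
  obtain ⟨d, hd⟩ := DD_two D
  have h := xbE_ybE D
  refine ⟨xbE D * (1 + 3 * d - t), ?_⟩
  have e1 : a + 6 * DD D * (xbE D * (1 + 3 * d - t)) - 3 * DD D =
      8 * (-(2 * ybE D * (1 + 3 * d - t))) := by
    linear_combination ht - 3 * hd + 2 * (1 + 3 * d - t) * h
  rw [e1]
  exact dvd_mul_right _ _

/-- representatives modulo `6 DD D` congruent to `3 DD D` modulo `8` -/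
theorem exists_reps8 (D : Finset Pq) : ∃ (ι : Type) (_ : Fintype ι) (v : ι → 𝓞 K),
    Reps (6 * DD D) v ∧ (∀ i, (8 : 𝓞 K) ∣ v i - 3 * DD D) := by
  obtain ⟨ι, hι, c, h, -⟩ := exists_reps D
  have h1 : ∀ i, ∃ e : 𝓞 K, (8 : 𝓞 K) ∣ c i + 6 * DD D * e - 3 * DD D := fun i =>
    Rho_shift (SumC_two_of_f0 (h.fx i))
  choose e he using h1
  exact ⟨ι, hι, fun i => c i + 6 * DD D * e i, Reps_shift h e, he⟩

/-! ### The function `Φ_c` -/

/-- `Φ_c(ρ)` -/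
def PhE (c : F4) (r : ℂ) : ℂ :=
  ∑ x : F4, (sge c (1 + 2 * lft x) : ℂ) * FP 1 (r + em (1 + 2 * lft x) / 8)

theorem Rho_em_three_ne (D : Finset Pq) : em (3 * DD D) ≠ 0 :=
  Eul_em_ne (mul_ne_zero (by norm_num) (DD_ne D))

theorem Rho_em_8 : em (8 : 𝓞 K) = 8 := by exact_mod_cast Res_em_int 8

theorem Rho_em_2 : em (2 : 𝓞 K) = 2 := by exact_mod_cast Res_em_int 2

theorem Rho_em_3 : em (3 : 𝓞 K) = 3 := by exact_mod_cast Res_em_int 3

/-- `8 ρ = v / (3 D)` modulo the lattice -/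
theorem rhoE_eight (D : Finset Pq) (v : 𝓞 K) :
    8 * rhoE D v = em v / em (3 * DD D) - em (v * xbE D) := by
  have h0 := Rho_em_three_ne D
  have h1 : em (3 * DD D) * em (xbE D) + 8 * em (ybE D) = 1 := by
    have h2 : em (3 * DD D * xbE D + 8 * ybE D) = 1 := by rw [xbE_ybE, Res_em_one]
    rw [EulC_em_add, EulC_em_mul, EulC_em_mul (8 : 𝓞 K), Rho_em_8] at h2
    exact h2
  rw [rhoE, EulC_em_mul, EulC_em_mul v, eq_sub_iff_add_eq]
  field_simp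
  linear_combination em v * h1

theorem Rho_point {D : Finset Pq} {v : 𝓞 K} (h8 : (8 : 𝓞 K) ∣ v - 3 * DD D) :
    ∃ t : 𝓞 K, em v / em (24 * DD D) = rhoE D v + 1 / 8 + em t := by
  obtain ⟨s, hs⟩ := h8
  have h := xbE_ybE D
  refine ⟨s * xbE D - ybE D, ?_⟩
  have h0 := Rho_em_three_ne D
  have e24 : em (24 * DD D) = 8 * em (3 * DD D) := by
    have e : (24 : 𝓞 K) * DD D = 8 * (3 * DD D) := by ring
    rw [e, EulC_em_mul, Rho_em_8]
  have h1 : v * xbE D = 1 + 8 * (s * xbE D - ybE D) := by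
    linear_combination xbE D * hs + h
  have h2 := rhoE_eight D v
  rw [h1, EulC_em_add, EulC_em_mul (8 : 𝓞 K), Res_em_one, Rho_em_8] at h2
  have h3 : em v / em (24 * DD D) = em v / em (3 * DD D) / 8 := by
    rw [e24]
    field_simp
  rw [h3]
  linear_combination -h2 / 8

/-- the inner sum -/
theorem Rho_inner (c : F4) {D : Finset Pq} {v : 𝓞 K} (h8 : (8 : 𝓞 K) ∣ v - 3 * DD D) :
    ∑ x : F4, (sge c (v + 6 * DD D * lft x) : ℂ) * FP 1 (em v / em (24 * DD D) + em (lft x) / 4) =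
      (sge c (3 * DD D) : ℂ) * PhE c (rhoE D v) := by
  obtain ⟨t, ht⟩ := Rho_point h8
  obtain ⟨s, hs⟩ := h8
  obtain ⟨d, hd⟩ := DD_two D
  have h3 : (2 : 𝓞 K) ∣ 3 * DD D - 1 := ⟨1 + 3 * d, by linear_combination 3 * hd⟩
  rw [PhE, Finset.mul_sum]
  refine Finset.sum_congr rfl fun x _ => ?_
  have h4 : (2 : 𝓞 K) ∣ 1 + 2 * lft x - 1 := ⟨lft x, by ring⟩
  have e1 : sge c (v + 6 * DD D * lft x) = sge c (3 * DD D) * sge c (1 + 2 * lft x) := by
    rw [← SumE_sge_mul h3 h4]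
    refine SumE_sge_congr ?_ ?_
    · exact ⟨1 + 3 * d + 4 * s + 3 * DD D * lft x, by linear_combination hs + 3 * hd⟩
    · exact ⟨s, by linear_combination hs⟩
  have e2 : em v / em (24 * DD D) + em (lft x) / 4 = rhoE D v + em (1 + 2 * lft x) / 8 + em t := by
    rw [ht, EulC_em_add, EulC_em_mul, Res_em_one, Rho_em_2]
    ring
  rw [e1, e2, FP_add 1 (em_mem t)]
  push_cast
  ring

/-- **(E2)**: the averaging identity -/
theorem euler_rho (c : F4) {D : Finset Pq} {ι : Type} [Fintype ι] {v : ι → 𝓞 K}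
    (h : Reps (6 * DD D) v) (h8 : ∀ i, (8 : 𝓞 K) ∣ v i - 3 * DD D) :
    ∑ S ∈ D.powerset, LSe c S 1 * ∏ q ∈ D \ S, (1 - (chie c S q.1 : ℂ) / em q.1) =
      (em (24 * DD D))⁻¹ * (sge c (3 * DD D) : ℂ) *
        ∑ i, ((∏ q ∈ D, (1 + qs q (v i)) : ℤ) : ℂ) * PhE c (rhoE D (v i)) := by
  rw [euler_sume c h, mul_assoc]
  congr 1
  rw [Finset.mul_sum]
  refine Finset.sum_congr rfl fun i _ => ?_
  rw [Rho_inner c (h8 i)]
  ring

/-- the identity for one `S` -/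
theorem euler_rho_one {c : F4} {S D : Finset Pq} (hS : S ⊆ D) {ι : Type} [Fintype ι] {v : ι → 𝓞 K}
    (h : Reps (6 * DD D) v) (h8 : ∀ i, (8 : 𝓞 K) ∣ v i - 3 * DD D) :
    LSe c S 1 * ∏ q ∈ D \ S, (1 - (chie c S q.1 : ℂ) / em q.1) =
      (em (24 * DD D))⁻¹ * (sge c (3 * DD D) : ℂ) *
        ∑ i, (chi S (v i) : ℂ) * PhE c (rhoE D (v i)) := by
  rw [euler_ide hS h, mul_assoc]
  congr 1
  rw [Finset.mul_sum]
  refine Finset.sum_congr rfl fun i _ => ?_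
  rw [Rho_inner c (h8 i)]
  ring

/-! ### The four terms -/

theorem Rho_sge_neg (c : F4) {x : 𝓞 K} (hx : (2 : 𝓞 K) ∣ x - 1) :
    sge c (-x) = sgz (F4.tr c) * sge c x := by
  have h1 : (2 : 𝓞 K) ∣ (-1 : 𝓞 K) - 1 := ⟨-1, by ring⟩
  rw [← neg_one_mul, SumE_sge_mul h1 hx]
  congr 1
  have h2 : tw2 (-1 : 𝓞 K) = 0 := by rw [SumE_tw2_neg, tw2_one]
  rw [sge, sgc, SumC_red_half_neg_one, mul_one, h2, sgz_zero, mul_one]

theorem Rho_sge_s3 (c : F4) : sge c s3 = -sgz (F4.tr (c * F4.w)) := by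
  have h1 : tw2 s3 = 1 := by
    unfold tw2
    rw [show Nz s3 = 3 from Nz_s3]
    rfl
  rw [sge, sgc, h1, sgz_one, half_s3, red_w]
  ring

/-- the change of the sign modulo `4` -/
theorem Rho_sge_add {c : F4} {a : 𝓞 K} (ha : (2 : 𝓞 K) ∣ a - 1) (e : 𝓞 K) :
    sge c (a + 4 * e) = sge c a * sgz (F4.tr (red e)) := by
  have h1 : sgc c (a + 4 * e) = sgc c a := (SumC_sgc_congr ha ⟨-e, by ring⟩).symm
  rw [sge, h1, SumE_tw2_add ha, sgz_add, sge]
  ring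

theorem Rho_lft_0 : lft 0 = 0 := by
  have h1 : (0 : F4).a.val = 0 := by decide
  have h2 : (0 : F4).b.val = 0 := by decide
  rw [lft, h1, h2]
  push_cast
  ring

theorem Rho_lft_1 : lft 1 = 1 := by
  have h1 : (1 : F4).a.val = 1 := by decide
  have h2 : (1 : F4).b.val = 0 := by decide
  rw [lft, h1, h2]
  push_cast
  ring

theorem Rho_lft_w : lft ⟨0, 1⟩ = wO := by
  have h1 : (⟨0, 1⟩ : F4).a.val = 0 := by decide
  have h2 : (⟨0, 1⟩ : F4).b.val = 1 := by decide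
  rw [lft, h1, h2]
  push_cast
  ring

theorem Rho_lft_v : lft ⟨1, 1⟩ = 1 + wO := by
  have h1 : (⟨1, 1⟩ : F4).a.val = 1 := by decide
  rw [lft, h1]
  push_cast
  ring

theorem Rho_s3_two : (2 : 𝓞 K) ∣ s3 - 1 := ⟨wO, by rw [s3]; ring⟩

/-- the four terms of `Φ_c` -/
theorem PhE_eq (c : F4) (r : ℂ) : PhE c r = FP 1 (r + 1 / 8) + (sgz (F4.tr c) : ℂ) * FP 1 (r - 1 / 8) -
    (sgz (F4.tr (c * F4.w)) : ℂ) * (FP 1 (r + em s3 / 8) +
      (sgz (F4.tr c) : ℂ) * FP 1 (r - em s3 / 8)) := by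
  have h21 : (2 : 𝓞 K) ∣ (1 : 𝓞 K) - 1 := by simp
  have h22 : (2 : 𝓞 K) ∣ (-1 : 𝓞 K) - 1 := ⟨-1, by ring⟩
  have h23 : (2 : 𝓞 K) ∣ -s3 - 1 := ⟨-wO - 1, by rw [s3]; ring⟩
  have n1 : em (-1 : 𝓞 K) = -1 := by
    have := Res_em_int (-1)
    push_cast at this
    exact this
  have n2 : em (-s3) = -em s3 := by rw [← neg_one_mul, EulC_em_mul, n1]; ring
  -- the signs
  have s0 : sge c (1 + 2 * lft 0) = 1 := by rw [Rho_lft_0, mul_zero, add_zero, SumE_sge_one]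
  have s1 : sge c (1 + 2 * lft 1) = sgz (F4.tr c) := by
    have e : (1 : 𝓞 K) + 2 * lft 1 = -1 + 4 * 1 := by rw [Rho_lft_1]; ring
    have h1 : sgz (F4.tr (red 1)) = 1 := by rw [map_one]; decide
    rw [e, Rho_sge_add h22, Rho_sge_neg c h21, SumE_sge_one, h1]
    ring
  have s2 : sge c (1 + 2 * lft ⟨0, 1⟩) = -sgz (F4.tr (c * F4.w)) := by
    have e : (1 : 𝓞 K) + 2 * lft ⟨0, 1⟩ = s3 := by rw [Rho_lft_w, s3]
    rw [e, Rho_sge_s3]
  have s4 : sge c (1 + 2 * lft ⟨1, 1⟩) = sgz (F4.tr c) * sgz (F4.tr (c * F4.w)) := by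
    have e : (1 : 𝓞 K) + 2 * lft ⟨1, 1⟩ = -s3 + 4 * (1 + wO) := by rw [Rho_lft_v, s3]; ring
    have h1 : sgz (F4.tr (red (1 + wO))) = -1 := by rw [map_add, map_one, red_w]; decide
    rw [e, Rho_sge_add h23, Rho_sge_neg c Rho_s3_two, Rho_sge_s3, h1]
    ring
  -- the points
  have t0 : FP 1 (r + em (1 + 2 * lft 0) / 8) = FP 1 (r + 1 / 8) := by
    rw [Rho_lft_0, mul_zero, add_zero, Res_em_one]
  have t1 : FP 1 (r + em (1 + 2 * lft 1) / 8) = FP 1 (r - 1 / 8) := by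
    have e : r + em (1 + 2 * lft 1) / 8 = r - 1 / 8 + em (lft 1) / 2 := by
      rw [EulC_em_add, EulC_em_mul, Res_em_one, Rho_em_2, Rho_lft_1, Res_em_one]
      ring
    have h1 : sgz (F4.tr ((1 : F4) * 1)) = 1 := by decide
    rw [e, FP_half, h1]
    push_cast
    ring
  have t2 : FP 1 (r + em (1 + 2 * lft ⟨0, 1⟩) / 8) = FP 1 (r + em s3 / 8) := by
    have e : (1 : 𝓞 K) + 2 * lft ⟨0, 1⟩ = s3 := by rw [Rho_lft_w, s3]
    rw [e]
  have t4 : FP 1 (r + em (1 + 2 * lft ⟨1, 1⟩) / 8) = -FP 1 (r - em s3 / 8) := by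
    have e : r + em (1 + 2 * lft ⟨1, 1⟩) / 8 = r - em s3 / 8 + em (lft ⟨1, 1⟩) / 2 := by
      have e2 : em (1 + 2 * lft ⟨1, 1⟩) = -em s3 + 4 * em (lft ⟨1, 1⟩) := by
        have e3 : (1 : 𝓞 K) + 2 * lft ⟨1, 1⟩ = -s3 + 4 * lft ⟨1, 1⟩ := by rw [Rho_lft_v, s3]; ring
        have e4 : em (4 : 𝓞 K) = 4 := by exact_mod_cast Res_em_int 4
        rw [e3, EulC_em_add, EulC_em_mul, n2, e4]
      rw [e2]
      ring
    have h1 : sgz (F4.tr ((1 : F4) * ⟨1, 1⟩)) = -1 := by decide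
    rw [e, FP_half, h1]
    push_cast
    ring
  rw [PhE, Quarter_sum, s0, s1, s2, s4, t0, t1, t2, t4]
  push_cast
  ring

/-! ### The order of the points `ρ` -/

theorem rhoE_mul (D : Finset Pq) (v : 𝓞 K) : em (3 * DD D) * rhoE D v = em (v * ybE D) := by
  rw [rhoE]
  field_simp [Rho_em_three_ne D]

theorem Rho_cop_two (D : Finset Pq) : IsCoprime (3 * DD D) (2 : 𝓞 K) := by
  obtain ⟨d, hd⟩ := DD_two D
  exact ⟨1, -(1 + 3 * d), by linear_combination 3 * hd⟩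

theorem rhoE_odd (D : Finset Pq) (v : 𝓞 K) : ∃ n : ℕ, Odd n ∧ (n : ℂ) * rhoE D v ∈ PP.lattice :=
  Half_odd (Rho_cop_two D) ⟨v * ybE D, (rhoE_mul D v).symm⟩

theorem rhoE_notMem (D : Finset Pq) {v : 𝓞 K} (h : f0 ∣ v - 1) : rhoE D v ∉ PP.lattice := by
  intro hc
  obtain ⟨t, ht⟩ := Half_mem_iff.1 hc
  have h1 : v * ybE D = 3 * DD D * t := by
    apply Half_em_inj
    rw [← rhoE_mul, ← ht, ← EulC_em_mul]
  have hs : IsCoprime s3 v := by
    obtain ⟨u, hu⟩ := (dvd_mul_left s3 (2 : 𝓞 K)).trans h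
    exact ⟨-u, 1, by linear_combination hu⟩
  have hy : IsCoprime s3 (ybE D) := by
    have h2 := xbE_ybE D
    exact ⟨-s3 * DD D * xbE D, 8, by linear_combination h2 - DD D * xbE D * s3_sq⟩
  have h3 : s3 ∣ v * ybE D := by
    rw [h1]
    exact ⟨-s3 * DD D * t, by linear_combination DD D * t * s3_sq⟩
  exact s3_not_isUnit (IsCoprime.isUnit_of_dvd' (hs.mul_right hy) dvd_rfl h3)

theorem Rho_two_pow {z : ℂ} (hz : ∃ n : ℕ, Odd n ∧ (n : ℂ) * z ∈ PP.lattice) (hz0 : z ∉ PP.lattice)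
    (k : ℕ) : 2 ^ k * z ∉ PP.lattice := by
  intro hc
  obtain ⟨n, hn, h⟩ := hz
  apply hz0
  have h1 : Nat.Coprime n (2 ^ k) := (Nat.coprime_two_right.2 hn).pow_right k
  have h2 : IsCoprime (n : ℤ) ((2 ^ k : ℕ) : ℤ) := Nat.isCoprime_iff_coprime.2 h1
  obtain ⟨a, b, hab⟩ := h2
  have h3 : (a : ℂ) * n + (b : ℂ) * 2 ^ k = 1 := by exact_mod_cast hab
  have e : z = ((a : ℤ) : ℂ) * ((n : ℂ) * z) + ((b : ℤ) : ℂ) * (2 ^ k * z) := by
    linear_combination -z * h3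
  rw [e]
  exact add_mem (S3.mul_int_mem h a) (S3.mul_int_mem hc b)

/-- no multiple of `ρ` by a power of two is a period -/
theorem rhoE_two_pow (D : Finset Pq) {v : 𝓞 K} (h : f0 ∣ v - 1) (k : ℕ) :
    2 ^ k * rhoE D v ∉ PP.lattice :=
  Rho_two_pow (rhoE_odd D v) (rhoE_notMem D h) k

end

end Pool.Agent.Lib.MP_1a91b9_ntE
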