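import Pool.Agent.Lib.MP_1a91b9_ntE.A.PhiE0
import Pool.Agent.Lib.MP_1a91b9_ntE.A.RhoE

/-!
# TwistDensity, even case, part A, file PhiE: the closed form of the square of `PhE` (E3)
-/

set_option autoImplicit false

namespace Pool.Agent.Lib.MP_1a91b9_ntE

open NumberField IsDedekindDomain Pool.Agent.Lib.MP_1a91b9_ntT Pool.Agent.Lib.MP_1a91b9_ntG
  Pool.Agent.Lib.MP_1a91b9_ntH Pool.Agent.Lib.MP_1a91b9_ntH2

noncomputable section

theorem PhiE_em_s3 : em s3 = 1 + 2 * MP_1a91b9_ntT.zt := by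
  have h := emb_coords 1 2
  have e : (((1 : ℤ) : 𝓞 K) + ((2 : ℤ) : 𝓞 K) * wO) = s3 := by
    rw [s3]
    push_cast
    ring
  rw [e] at h
  refine h.trans ?_
  push_cast
  ring

theorem phiE_sq (c : F4) {z : ℂ} {n : ℕ} (hn : Odd n) (hnz : (n : ℂ) * (2 * z) ∈ PP.lattice)
    (hz : 2 * z ∉ PP.lattice) :
    (PhE c z / (2 * Om)) ^ 2 * DEe (S3.X (2 * z)) ^ 2 =
      CEs c * uE c (S3.X (2 * z)) * (S3.X (2 * z) + vpE * chE' c) ^ 2 := by
  have h := phiE_four c hn hnz hz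
  rw [PhE_eq, PhiE_em_s3]
  exact h

end

end Pool.Agent.Lib.MP_1a91b9_ntE
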