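import Pool.Agent.Lib.MP_1a91b9_ntH2.A.Quarter

/-!
# TwistDensity, even case, part A, file PhiE0: the addition formula of `FP 1` and the closed form (E3)
-/

set_option autoImplicit false

namespace Pool.Agent.Lib.MP_1a91b9_ntE

open NumberField IsDedekindDomain Pool.Agent.Lib.MP_1a91b9_ntT Pool.Agent.Lib.MP_1a91b9_ntG
  Pool.Agent.Lib.MP_1a91b9_ntH Pool.Agent.Lib.MP_1a91b9_ntH2

noncomputable section

/-! ### The polynomial identities -/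

theorem PhiE_alg1 {w : ℂ} (hw : w ^ 2 + w + 1 = 0) (a x v : ℂ) :
    ((x - w * a) * (v - w * a) - 3 * (w ^ 2 * a ^ 2)) * ((x - w ^ 2 * a) * (v - w ^ 2 * a) - 3 * (w * a ^ 2)) =
      x ^ 2 * v ^ 2 + a * (x + v) * (x * v) + 2 * a ^ 2 * (x * v) + a ^ 2 * (x + v) ^ 2 -
        2 * a ^ 3 * (x + v) + 4 * a ^ 4 := by
  linear_combination (-2*a^4*w^4 - a^3*v*w^3 - a^3*w^3*x + 2*a^4*w^3 + a^2*v*w^2*x + 3*a^3*v*w^2 + 3*a^3*w^2*x +
    a^2*v*w*x + a^2*v^2*w + a^2*w*x^2 - 2*a^3*v*w - 2*a^3*w*x + 4*a^4*w - a*v*x^2 - a*v^2*x - 4*a^2*v*x -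
    a^2*v^2 - a^2*x^2 + 2*a^3*v + 2*a^3*x - 4*a^4) * hw

theorem PhiE_alg2 {w : ℂ} (hw : w ^ 2 + w + 1 = 0) (a x v : ℂ) :
    w ^ 2 * (x - w ^ 2 * a) * ((x - w ^ 2 * a) * (v - w ^ 2 * a) - 3 * (w * a ^ 2)) +
      w * (x - w * a) * ((x - w * a) * (v - w * a) - 3 * (w ^ 2 * a ^ 2)) =
      -x ^ 2 * v + a * (x + v) * x - 4 * a ^ 2 * x + a * x * v + 2 * a ^ 2 * (x + v) - 2 * a ^ 3 := by
  linear_combination (-a^3*w^6 + a^3*w^5 + a^2*v*w^4 + 2*a^2*w^4*x - a^2*v*w^3 - 2*a^2*w^3*x + 2*a^3*w^3 -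
    2*a*v*w^2*x - a*w^2*x^2 + 2*a*v*w*x + a*w*x^2 + 2*a^2*v*w - 2*a^2*w*x - 2*a^3*w - 2*a*v*x - a*x^2 -
    2*a^2*v + 2*a^2*x + 2*a^3 + v*x^2) * hw

theorem PhiE_core {w : ℂ} (hw : w ^ 2 + w + 1 = 0) {a x v y V U U' D0 D1 D2 D3 P Q R : ℂ}
    (hy : y ^ 2 = 4 * (x ^ 3 - a ^ 3)) (hV : V ^ 2 = 4 * (v ^ 3 - a ^ 3)) (hy0 : y ≠ 0) (hV0 : V ≠ 0)
    (hU : U * y = 2 * (3 * a ^ 2 - (x - a) ^ 2)) (hU' : U' * V = 2 * (3 * a ^ 2 - (v - a) ^ 2))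
    (h0 : D0 * (x - v) = y)
    (h1 : D1 * ((x - a) * ((x - a) * (v - a) - 3 * a ^ 2)) = 3 * a ^ 2 * y)
    (h2 : D2 * ((x - w * a) * ((x - w * a) * (v - w * a) - 3 * (w ^ 2 * a ^ 2))) = 3 * (w ^ 2 * a ^ 2) * y)
    (h3 : D3 * ((x - w ^ 2 * a) * ((x - w ^ 2 * a) * (v - w ^ 2 * a) - 3 * (w * a ^ 2))) = 3 * (w * a ^ 2) * y)
    (hP : P * y ^ 2 = x ^ 4 + 8 * a ^ 3 * x) (hQ : Q * V ^ 2 = v ^ 4 + 8 * a ^ 3 * v)
    (hR : R * V = -V ^ 2 + 6 * v ^ 2 * (v - Q)) :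
    (2 * U + D0 + D1 - D2 - D3) * U' * (Q - P) = -2 * U * R := by
  have hf : y ^ 2 = 4 * ((x - a) * ((x - w * a) * (x - w ^ 2 * a))) := by
    linear_combination hy + 4 * (x - a) * a * (x * 1 - a * (w - 1)) * hw
  have e1 : x - a ≠ 0 := by
    intro h
    rw [h] at hf
    exact pow_ne_zero 2 hy0 (by rw [hf]; ring)
  have e2 : x - w * a ≠ 0 := by
    intro h
    rw [h] at hf
    exact pow_ne_zero 2 hy0 (by rw [hf]; ring)
  have e3 : x - w ^ 2 * a ≠ 0 := by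
    intro h
    rw [h] at hf
    exact pow_ne_zero 2 hy0 (by rw [hf]; ring)
  have hB := PhiE_alg1 hw a x v
  have hC := PhiE_alg2 hw a x v
  generalize hA1 : (x - a) * (v - a) - 3 * a ^ 2 = A1 at *
  generalize hA2 : (x - w * a) * (v - w * a) - 3 * (w ^ 2 * a ^ 2) = A2 at *
  generalize hA3 : (x - w ^ 2 * a) * (v - w ^ 2 * a) - 3 * (w * a ^ 2) = A3 at *
  have k1 : y * D1 * A1 = 12 * a ^ 2 * ((x - w * a) * (x - w ^ 2 * a)) := by
    apply mul_left_cancel₀ e1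
    linear_combination y * h1 + 3 * a ^ 2 * hf
  have k2 : y * D2 * A2 = 12 * (w ^ 2 * a ^ 2) * ((x - a) * (x - w ^ 2 * a)) := by
    apply mul_left_cancel₀ e2
    linear_combination y * h2 + 3 * (w ^ 2 * a ^ 2) * hf
  have k3 : y * D3 * A3 = 12 * (w * a ^ 2) * ((x - a) * (x - w * a)) := by
    apply mul_left_cancel₀ e3
    linear_combination y * h3 + 3 * (w * a ^ 2) * hf
  have hxx : (x - w * a) * (x - w ^ 2 * a) = x ^ 2 + a * x + a ^ 2 := by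
    linear_combination (-a * x + a ^ 2 * (w - 1)) * hw
  have hN : y * (2 * U + D0 + D1 - D2 - D3) * ((x - v) * (A1 * (A2 * A3))) =
      4 * (x ^ 2 - 2 * a * x - 2 * a ^ 2) * (x ^ 3 - a ^ 3) *
        (v ^ 4 + 2 * a * v ^ 3 + 6 * a ^ 2 * v ^ 2 - 4 * a ^ 3 * v + 4 * a ^ 4) := by
    have s1 : y * (2 * U + D0 + D1 - D2 - D3) * ((x - v) * (A1 * (A2 * A3))) =
        4 * (3 * a ^ 2 - (x - a) ^ 2) * ((x - v) * (A1 * (A2 * A3))) +
          4 * (x ^ 3 - a ^ 3) * (A1 * (A2 * A3)) +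
          12 * a ^ 2 * (x - v) * ((x ^ 2 + a * x + a ^ 2) * (A2 * A3) -
            (x - a) * A1 * (w ^ 2 * (x - w ^ 2 * a) * A3 + w * (x - w * a) * A2)) := by
      linear_combination 2 * ((x - v) * (A1 * (A2 * A3))) * hU + y * (A1 * (A2 * A3)) * h0 +
        (A1 * (A2 * A3)) * hy + (x - v) * (A2 * A3) * k1 - (x - v) * (A1 * A3) * k2 -
        (x - v) * (A1 * A2) * k3 + 12 * a ^ 2 * (x - v) * (A2 * A3) * hxx
    rw [s1, hB, hC, ← hA1]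
    ring
  have hD : y ^ 2 * V ^ 2 * (Q - P) = -4 * ((x - v) * (A1 * (A2 * A3))) := by
    rw [hB, ← hA1]
    linear_combination y ^ 2 * hQ - V ^ 2 * hP + (v ^ 4 + 8 * a ^ 3 * v) * hy - (x ^ 4 + 8 * a ^ 3 * x) * hV
  generalize A1 * (A2 * A3) = A at hN hD
  have hne : y * V * (y ^ 2 * V ^ 2) ≠ 0 :=
    mul_ne_zero (mul_ne_zero hy0 hV0) (mul_ne_zero (pow_ne_zero 2 hy0) (pow_ne_zero 2 hV0))
  apply mul_left_cancel₀ hne
  generalize 2 * U + D0 + D1 - D2 - D3 = S at hN ⊢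
  linear_combination (U' * V) * (y * S) * hD - 4 * (U' * V) * hN -
    16 * (x ^ 2 - 2 * a * x - 2 * a ^ 2) * (x ^ 3 - a ^ 3) *
        (v ^ 4 + 2 * a * v ^ 3 + 6 * a ^ 2 * v ^ 2 - 4 * a ^ 3 * v + 4 * a ^ 4) * hU' +
    2 * (R * V) * (y ^ 2 * V ^ 2) * hU + 4 * (3 * a ^ 2 - (x - a) ^ 2) * (y ^ 2 * V ^ 2) * hR -
    24 * (3 * a ^ 2 - (x - a) ^ 2) * y ^ 2 * v ^ 2 * hQ +
    4 * (3 * a ^ 2 - (x - a) ^ 2) * y ^ 2 * (-(V ^ 2 + 4 * (v ^ 3 - a ^ 3)) + 6 * v ^ 3) * hV +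
    8 * (3 * a ^ 2 - (x - a) ^ 2) * (v ^ 6 - 20 * a ^ 3 * v ^ 3 - 8 * a ^ 6) * hy

/-! ### The function `FP 1` -/

theorem PhiE_FP (z : ℂ) : FP 1 z = E1 z + E1 (z + 1 / 2) - E1 (z + zt / 2) - E1 (z + (1 + zt) / 2) := by
  have s0 : sgz (F4.tr ((1 : F4) * 0)) = 1 := by decide
  have s1 : sgz (F4.tr ((1 : F4) * 1)) = 1 := by decide
  have s2 : sgz (F4.tr ((1 : F4) * ⟨0, 1⟩)) = -1 := by decide
  have s3 : sgz (F4.tr ((1 : F4) * ⟨1, 1⟩)) = -1 := by decide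
  rw [Quarter_FP, s0, s1, s2, s3]
  push_cast
  ring

theorem PhiE_neg (z : ℂ) : FP 1 (-z) = -FP 1 z := by
  have m1 := S3.one_mem
  have m2 := S3.zt_mem
  have m3 : 1 + zt ∈ PP.lattice := add_mem m1 m2
  have h1 : E1 (-z + 1 / 2) = -E1 (z + 1 / 2) := by
    rw [← E1_odd, show -z + 1 / 2 = -(z + 1 / 2) + 1 by ring, S3.E1_add m1]
  have h2 : E1 (-z + zt / 2) = -E1 (z + zt / 2) := by
    rw [← E1_odd, show -z + zt / 2 = -(z + zt / 2) + zt by ring, S3.E1_add m2]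
  have h3 : E1 (-z + (1 + zt) / 2) = -E1 (z + (1 + zt) / 2) := by
    rw [← E1_odd, show -z + (1 + zt) / 2 = -(z + (1 + zt) / 2) + (1 + zt) by ring, S3.E1_add m3]
  rw [PhiE_FP, PhiE_FP, h1, h2, h3, E1_odd]
  ring

theorem PhiE_two_half : 2 * (1 / 2 : ℂ) ∈ PP.lattice := by
  rw [show 2 * (1 / 2 : ℂ) = 1 by norm_num]
  exact S3.one_mem

theorem PhiE_two_zt : 2 * (zt / 2) ∈ PP.lattice := by
  rw [show 2 * (zt / 2) = zt by ring]
  exact S3.zt_mem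

theorem PhiE_two_zt2 : 2 * ((1 + zt) / 2) ∈ PP.lattice := by
  rw [show 2 * ((1 + zt) / 2) = 1 + zt by ring]
  exact add_mem S3.one_mem S3.zt_mem

/-- `FP 1` as a function on the curve -/
theorem PhiE_U {z : ℂ} (hz : 2 * z ∉ PP.lattice) :
    FP 1 z / Om * S3.Y z = 2 * (3 * Quarter_a ^ 2 - (S3.X z - Quarter_a) ^ 2) := by
  have hO := Om_ne_zero
  have hY := Quarter_Y_ne hz
  have hY2 := S3.Y_sq (S3.notMem_of_two_mul hz)
  have h1 := Quarter_chord PhiE_two_half Half_notMem hz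
  have h2 := Quarter_chord PhiE_two_zt Quarter_zt_half hz
  have h3 := Quarter_chord PhiE_two_zt2 Quarter_zt2_half hz
  rw [show S3.X (1 / 2) = Quarter_a from rfl] at h1
  rw [Quarter_X1] at h2
  rw [Quarter_X2] at h3
  have he := Quarter_a_eq
  set e := Quarter_a with hee
  set x := S3.X z with hx
  set y := S3.Y z with hy
  set f1 := (E1 (z + 1 / 2) - E1 z) / Om with hf1
  set f2 := (E1 (z + zt / 2) - E1 z) / Om with hf2
  set f3 := (E1 (z + (1 + zt) / 2) - E1 z) / Om with hf3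
  have e0 : FP 1 z / Om = f1 - f2 - f3 := by
    rw [PhiE_FP, hf1, hf2, hf3]
    field_simp
    ring
  rw [e0]
  have hq := S3.zt_quad
  have hc := S3.zt_cube
  have hy2 : y ^ 2 = 4 * ((x - e) * (x - zt * e) * (x - zt ^ 2 * e)) := by
    linear_combination hY2 + he + 4 * e * (x ^ 2 - x * zt * e) * hq + 4 * e ^ 3 * hc
  have hf : 2 * ((x - e) * (x - zt * e) * (x - zt ^ 2 * e)) * (f1 - f2 - f3) =
      y * (-(x - e) ^ 2 + 3 * e ^ 2) := by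
    linear_combination (x - zt * e) * (x - zt ^ 2 * e) * h1 - (x - e) * (x - zt ^ 2 * e) * h2 -
      (x - e) * (x - zt * e) * h3 + y * e ^ 2 * (-hq + hc)
  apply mul_left_cancel₀ hY
  linear_combination 2 * hf + (f1 - f2 - f3) * hy2

theorem PhiE_E1_half {T : ℂ} (hT : 2 * T ∈ PP.lattice) : E1 T = 0 := by
  have h5 := S3.E1_add hT (-T)
  rw [show -T + 2 * T = T by ring, E1_odd] at h5
  have h6 : 2 * E1 T = 0 := by linear_combination h5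
  simpa using h6

theorem PhiE_add_half {z T : ℂ} (hz : 2 * z ∉ PP.lattice) (hT : 2 * T ∈ PP.lattice) :
    2 * (z + T) ∉ PP.lattice := by
  intro h
  apply hz
  have h1 := sub_mem h hT
  rwa [show 2 * (z + T) - 2 * T = 2 * z by ring] at h1

/-- translation by a point of order two -/
theorem PhiE_tr {z T e : ℂ} (hT : 2 * T ∈ PP.lattice) (hT0 : T ∉ PP.lattice) (hX : S3.X T = e)
    (he : 4 * e ^ 3 + 1 = 0) (hz : 2 * z ∉ PP.lattice) :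
    (S3.X z - e) * (S3.X (z + T) - e) = 3 * e ^ 2 ∧
      S3.Y (z + T) * (S3.X z - e) ^ 2 = -3 * e ^ 2 * S3.Y z := by
  have hO := Om_ne_zero
  have hz0 := S3.notMem_of_two_mul hz
  have hz1 := S3.notMem_of_two_mul (PhiE_add_half hz hT)
  have h1 := Rq.sq hz0 hT0 hz1
  have h2 := Quarter_chord hT hT0 hz
  have h2' := Quarter_chord hT hT0 (PhiE_add_half hz hT)
  have h3 := S3.Y_sq hz0
  have hY := Quarter_Y_ne hz
  have hE := PhiE_E1_half hT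
  have hE2 : E1 (z + T + T) = E1 z := by
    rw [show z + T + T = z + 2 * T by ring, S3.E1_add hT]
  rw [Rq.ev, Rq.ev, Rq.ev, hE, zero_div, sub_zero, ← sub_div, hX] at h1
  rw [hX] at h2 h2'
  rw [hE2] at h2'
  set x := S3.X z with hx
  set y := S3.Y z with hy
  set f := (E1 (z + T) - E1 z) / Om with hf
  have hf' : (E1 z - E1 (z + T)) / Om = -f := by
    rw [hf]
    ring
  rw [hf'] at h2'
  have hxa : x - e ≠ 0 := by
    intro h
    rw [h] at h2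
    apply hY
    rw [← h2]
    ring
  have h4 : 4 * (x - e) ^ 2 * f ^ 2 = 4 * x ^ 3 + 1 := by
    rw [← h3, ← h2]
    ring
  have h5 : 4 * (x - e) * ((x - e) * (S3.X (z + T) - e)) = 4 * (x - e) * (3 * e ^ 2) := by
    linear_combination h4 - 4 * (x - e) ^ 2 * h1 + he
  have h6 := mul_left_cancel₀ (mul_ne_zero (by norm_num) hxa) h5
  refine ⟨h6, ?_⟩
  linear_combination -(x - e) ^ 2 * h2' - 2 * (x - e) * f * h6 - 3 * e ^ 2 * h2

/-- the sum over `± n` -/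
theorem PhiE_pm {T n : ℂ} (hT : 2 * T ∉ PP.lattice) (hn : n ∉ PP.lattice) (h1 : n - T ∉ PP.lattice)
    (h2 : n + T ∉ PP.lattice) :
    ((E1 (T + n) + E1 (T - n) - 2 * E1 T) / Om) * (S3.X T - S3.X n) = S3.Y T := by
  have hO := Om_ne_zero
  have h := S3.sig hT hn h1 h2
  have e1 : E1 (n - T) = -E1 (T - n) := by
    rw [← E1_odd, neg_sub]
  have e2 : n + T = T + n := add_comm _ _
  rw [e1, e2] at h
  have h3 : PP.weierstrassP T = Om ^ 2 * S3.X T := by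
    rw [S3.X]
    field_simp
  have h4 : PP.weierstrassP n = Om ^ 2 * S3.X n := by
    rw [S3.X]
    field_simp
  have h5 : PP.derivWeierstrassP T = Om ^ 3 * S3.Y T := by
    rw [S3.Y]
    field_simp
  rw [h3, h4, h5] at h
  have h7 : Om ^ 2 ≠ 0 := pow_ne_zero _ hO
  have h8 : (E1 (T + n) + E1 (T - n) - 2 * E1 T) * (S3.X T - S3.X n) = Om * S3.Y T := by
    apply mul_left_cancel₀ h7
    linear_combination h
  rw [div_mul_eq_mul_div, h8]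
  field_simp

theorem PhiE_D {r n T e : ℂ} (hT : 2 * T ∈ PP.lattice) (hT0 : T ∉ PP.lattice) (hX : S3.X T = e)
    (he : 4 * e ^ 3 + 1 = 0) (hr : 2 * r ∉ PP.lattice) (hn : n ∉ PP.lattice) (h1 : 2 * (r + n) ∉ PP.lattice)
    (h2 : 2 * (r - n) ∉ PP.lattice) :
    ((E1 (r + T + n) + E1 (r + T - n) - 2 * E1 (r + T)) / Om) *
      ((S3.X r - e) * ((S3.X r - e) * (S3.X n - e) - 3 * e ^ 2)) = 3 * e ^ 2 * S3.Y r := by
  have a1 : n - (r + T) ∉ PP.lattice := by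
    intro h
    apply h2
    have h3 := neg_mem (add_mem (S3.mul_int_mem h 2) hT)
    rwa [show -(((2 : ℤ) : ℂ) * (n - (r + T)) + 2 * T) = 2 * (r - n) by push_cast; ring] at h3
  have a2 : n + (r + T) ∉ PP.lattice := by
    intro h
    apply h1
    have h3 := sub_mem (S3.mul_int_mem h 2) hT
    rwa [show ((2 : ℤ) : ℂ) * (n + (r + T)) - 2 * T = 2 * (r + n) by push_cast; ring] at h3
  have h3 := PhiE_pm (PhiE_add_half hr hT) hn a1 a2
  obtain ⟨h4, h5⟩ := PhiE_tr hT hT0 hX he hr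
  linear_combination -(S3.X r - e) ^ 2 * h3 - h5 +
    ((E1 (r + T + n) + E1 (r + T - n) - 2 * E1 (r + T)) / Om) * (S3.X r - e) * h4

theorem PhiE_four_a : 4 * Quarter_a ^ 3 = -1 := by linear_combination Quarter_a_eq

theorem PhiE_ha {e : ℂ} (he : 4 * e ^ 3 + 1 = 0) : 4 * (zt * e) ^ 3 + 1 = 0 := by
  linear_combination he + 4 * e ^ 3 * S3.zt_cube

/-- THE ADDITION FORMULA -/
theorem PhiE_add {r n : ℂ} (hr : 2 * r ∉ PP.lattice) (hn : 2 * (2 * n) ∉ PP.lattice)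
    (h1 : 2 * (r + n) ∉ PP.lattice) (h2 : 2 * (r - n) ∉ PP.lattice) :
    (FP 1 (r + n) + FP 1 (r - n)) / Om * (FP 1 n / Om) * (S3.X (2 * n) - S3.X (2 * r)) =
      -2 * (FP 1 r / Om) * S3.Y (2 * n) := by
  have hO := Om_ne_zero
  have hn2 : 2 * n ∉ PP.lattice := S3.notMem_of_two_mul hn
  have hn1 : n ∉ PP.lattice := S3.notMem_of_two_mul hn2
  have hr1 : r ∉ PP.lattice := S3.notMem_of_two_mul hr
  have ha := Quarter_a_eq
  have b1 : n - r ∉ PP.lattice := by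
    intro h
    apply h2
    have h3 := neg_mem (S3.mul_int_mem h 2)
    rwa [show -(((2 : ℤ) : ℂ) * (n - r)) = 2 * (r - n) by push_cast; ring] at h3
  have b2 : n + r ∉ PP.lattice := by
    intro h
    apply h1
    have h3 := S3.mul_int_mem h 2
    rwa [show ((2 : ℤ) : ℂ) * (n + r) = 2 * (r + n) by push_cast; ring] at h3
  have d0 := PhiE_pm hr hn1 b1 b2
  have d1 := PhiE_D PhiE_two_half Half_notMem (e := Quarter_a) rfl ha hr hn1 h1 h2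
  have d2 := PhiE_D PhiE_two_zt Quarter_zt_half Quarter_X1 (PhiE_ha ha) hr hn1 h1 h2
  have d3 := PhiE_D PhiE_two_zt2 Quarter_zt2_half (e := zt ^ 2 * Quarter_a) Quarter_X2
    (by linear_combination ha + 4 * Quarter_a ^ 3 * (zt ^ 3 + 1) * S3.zt_cube) hr hn1 h1 h2
  have hYr := S3.Y_sq hr1
  have hYn := S3.Y_sq hn1
  have hPr := S3.X_two_mul hr
  have hPn := S3.X_two_mul hn2
  have hR : S3.Y (2 * n) * S3.Y n = -S3.Y n ^ 2 + 6 * S3.X n ^ 2 * (S3.X n - S3.X (2 * n)) := by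
    have t1 := Rq.third hn2 hn1 (by rwa [← two_mul])
    have t2 := Rq.dupl hn2
    rw [← two_mul] at t1
    linear_combination S3.Y n * t1 + 2 * (S3.X n - S3.X (2 * n)) * t2
  have e4 : (FP 1 (r + n) + FP 1 (r - n)) / Om = 2 * (FP 1 r / Om) +
      (E1 (r + n) + E1 (r - n) - 2 * E1 r) / Om +
      (E1 (r + 1 / 2 + n) + E1 (r + 1 / 2 - n) - 2 * E1 (r + 1 / 2)) / Om -
      (E1 (r + zt / 2 + n) + E1 (r + zt / 2 - n) - 2 * E1 (r + zt / 2)) / Om -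
      (E1 (r + (1 + zt) / 2 + n) + E1 (r + (1 + zt) / 2 - n) - 2 * E1 (r + (1 + zt) / 2)) / Om := by
    rw [PhiE_FP, PhiE_FP, PhiE_FP, show r + n + 1 / 2 = r + 1 / 2 + n by ring,
      show r - n + 1 / 2 = r + 1 / 2 - n by ring, show r + n + zt / 2 = r + zt / 2 + n by ring,
      show r - n + zt / 2 = r + zt / 2 - n by ring, show r + n + (1 + zt) / 2 = r + (1 + zt) / 2 + n by ring,
      show r - n + (1 + zt) / 2 = r + (1 + zt) / 2 - n by ring]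
    field_simp
    ring
  rw [e4]
  have hz3 := S3.zt_cube
  refine PhiE_core S3.zt_quad (a := Quarter_a) (x := S3.X r) (v := S3.X n) (y := S3.Y r) (V := S3.Y n)
    (by linear_combination hYr + ha) (by linear_combination hYn + ha) (Quarter_Y_ne hr) (Quarter_Y_ne hn2)
    (PhiE_U hr) (PhiE_U hn2) d0 d1 (by linear_combination d2) ?_ ?_ ?_ hR
  · linear_combination d3 + (3 * zt * Quarter_a ^ 2 * (S3.Y r +
      ((E1 (r + (1 + zt) / 2 + n) + E1 (r + (1 + zt) / 2 - n) - 2 * E1 (r + (1 + zt) / 2)) / Om) *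
        (S3.X r - zt ^ 2 * Quarter_a))) * hz3
  · linear_combination S3.X (2 * r) * hYr + hPr - 2 * S3.X r * ha
  · linear_combination S3.X (2 * n) * hYn + hPn - 2 * S3.X n * ha

/-! ### Multiplication by `√-3` -/

theorem PhiE_s3 {z : ℂ} (h2 : 2 * z ∉ PP.lattice) (hs : 2 * ((1 + 2 * zt) * z) ∉ PP.lattice) :
    (1 + 2 * zt) * S3.X z * (Rq.ev ((1 + 2 * zt) * z) + (1 + 2 * zt) * Rq.ev z) = S3.Y z ∧
      3 * S3.X z ^ 2 * S3.X ((1 + 2 * zt) * z) = -(S3.X z ^ 3 + 1) ∧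
      (1 + 2 * zt) * S3.X z * S3.Y ((1 + 2 * zt) * z) =
        -(S3.Y z * (S3.X z + 2 * S3.X ((1 + 2 * zt) * z))) := by
  have hz := S3.notMem_of_two_mul h2
  have hY := S3.Y_sq hz
  have a1 : 2 * (zt * z) ∉ PP.lattice := by
    intro h
    apply h2
    apply S3.zt_mul_mem.1
    rwa [show zt * (2 * z) = 2 * (zt * z) by ring]
  have a2 : 2 * -(zt * (zt * z)) ∉ PP.lattice := by
    intro h
    apply h2
    apply S3.zt_mul_mem.1
    apply S3.zt_mul_mem.1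
    have h1 := neg_mem h
    rwa [show -(2 * -(zt * (zt * z))) = zt * (zt * (2 * z)) by ring] at h1
  have a3 : zt * z - -(zt * (zt * z)) ∉ PP.lattice := by
    intro h
    apply hz
    have h1 := neg_mem h
    rwa [show -(zt * z - -(zt * (zt * z))) = z by linear_combination (-z) * S3.zt_quad] at h1
  have e4 : zt * z + -(zt * (zt * z)) = (1 + 2 * zt) * z := by
    linear_combination (-z) * S3.zt_quad
  have a4 : zt * z + -(zt * (zt * z)) ∉ PP.lattice := by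
    rw [e4]
    exact S3.notMem_of_two_mul hs
  have h3 := Rq.slope a1 a2 a3 a4
  have h4 := Rq.sq (S3.notMem_of_two_mul a1) (S3.notMem_of_two_mul a2) a4
  have h5 := Rq.third a1 (S3.notMem_of_two_mul a2) (by rwa [e4])
  rw [e4] at h3 h4 h5
  simp only [Rq.X_neg, Rq.X_zt, Rq.Y_neg, Rq.Y_zt, Rq.ev_neg, Rq.ev_zt] at h3 h4 h5
  set x := S3.X z with hx
  set y := S3.Y z with hy
  set e := Rq.ev z with he
  set e' := Rq.ev ((1 + 2 * zt) * z) with he'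
  set x' := S3.X ((1 + 2 * zt) * z) with hx'
  have hq := S3.zt_quad
  have hc := S3.zt_cube
  have hL : e' - zt ^ 2 * e - -(zt ^ 2 * (zt ^ 2 * e)) = e' + (1 + 2 * zt) * e := by
    linear_combination e * zt * hc - e * hq
  rw [hL] at h3 h4 h5
  have h6 : (1 + 2 * zt) * x * (e' + (1 + 2 * zt) * e) = y := by
    linear_combination (1 / 2) * h3 + x * (e' + (1 + 2 * zt) * e) * hq
  have h7 : -3 * x ^ 2 * (e' + (1 + 2 * zt) * e) ^ 2 = y ^ 2 := by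
    rw [← h6]
    linear_combination (-4) * x ^ 2 * (e' + (1 + 2 * zt) * e) ^ 2 * hq
  have h8 : (e' + (1 + 2 * zt) * e) ^ 2 = -x + x' := by
    linear_combination h4 + x * hq
  refine ⟨h6, ?_, ?_⟩
  · rw [h8] at h7
    linear_combination -h7 - hY
  · linear_combination (1 + 2 * zt) * x * h5 + 2 * (zt * x - x') * h6

theorem PhiE_core2 {w : ℂ} (hw : w ^ 2 + w + 1 = 0) {a x y U D0 D1 D2 D3 P : ℂ}
    (hy : y ^ 2 = 4 * (x ^ 3 - a ^ 3)) (hy0 : y ≠ 0)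
    (hU : U * y = 2 * (3 * a ^ 2 - (x - a) ^ 2)) (h0 : D0 * x = y)
    (h1 : D1 * ((x - a) * (x + 2 * a)) = -3 * a * y)
    (h2 : D2 * ((x - w * a) * (x + 2 * (w * a))) = -3 * (w * a) * y)
    (h3 : D3 * ((x - w ^ 2 * a) * (x + 2 * (w ^ 2 * a))) = -3 * (w ^ 2 * a) * y)
    (hP : P * y ^ 2 = x ^ 4 + 8 * a ^ 3 * x) :
    (3 * U + D0 + D1 - D2 - D3) * P = U * (P + 2 * a) := by
  have hf : y ^ 2 = 4 * ((x - a) * ((x - w * a) * (x - w ^ 2 * a))) := by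
    linear_combination hy + 4 * (x - a) * a * (x * 1 - a * (w - 1)) * hw
  have e1 : x - a ≠ 0 := by
    intro h
    rw [h] at hf
    exact pow_ne_zero 2 hy0 (by rw [hf]; ring)
  have e2 : x - w * a ≠ 0 := by
    intro h
    rw [h] at hf
    exact pow_ne_zero 2 hy0 (by rw [hf]; ring)
  have e3 : x - w ^ 2 * a ≠ 0 := by
    intro h
    rw [h] at hf
    exact pow_ne_zero 2 hy0 (by rw [hf]; ring)
  have k1 : y * D1 * (x + 2 * a) = -12 * a * ((x - w * a) * (x - w ^ 2 * a)) := by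
    apply mul_left_cancel₀ e1
    linear_combination y * h1 - 3 * a * hf
  have k2 : y * D2 * (x + 2 * (w * a)) = -12 * (w * a) * ((x - a) * (x - w ^ 2 * a)) := by
    apply mul_left_cancel₀ e2
    linear_combination y * h2 - 3 * (w * a) * hf
  have k3 : y * D3 * (x + 2 * (w ^ 2 * a)) = -12 * (w ^ 2 * a) * ((x - a) * (x - w * a)) := by
    apply mul_left_cancel₀ e3
    linear_combination y * h3 - 3 * (w ^ 2 * a) * hf
  have hxx : (x - w * a) * (x - w ^ 2 * a) = x ^ 2 + a * x + a ^ 2 := by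
    linear_combination (-a * x + a ^ 2 * (w - 1)) * hw
  have hPi : (x + 2 * (w * a)) * (x + 2 * (w ^ 2 * a)) = x ^ 2 - 2 * a * x + 4 * a ^ 2 := by
    linear_combination (4 * a ^ 2 * w + 2 * a * x - 4 * a ^ 2) * hw
  have hid : 6 * (3 * a ^ 2 - (x - a) ^ 2) * x * (x + 2 * a) * (x ^ 2 - 2 * a * x + 4 * a ^ 2) +
      4 * (x ^ 3 - a ^ 3) * (x + 2 * a) * (x ^ 2 - 2 * a * x + 4 * a ^ 2) -
      12 * a * (x ^ 2 + a * x + a ^ 2) * x * (x ^ 2 - 2 * a * x + 4 * a ^ 2) +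
      12 * (w * a) * ((x - a) * (x - w ^ 2 * a)) * x * (x + 2 * a) * (x + 2 * (w ^ 2 * a)) +
      12 * (w ^ 2 * a) * ((x - a) * (x - w * a)) * x * (x + 2 * a) * (x + 2 * (w * a)) =
      2 * (3 * a ^ 2 - (x - a) ^ 2) * (x ^ 4 + 8 * a ^ 3 * x + 8 * a * (x ^ 3 - a ^ 3)) := by
    linear_combination (-24*a^3*w^3*x^3 - 24*a^4*w^3*x^2 + 48*a^5*w^3*x + 24*a^2*w*x^4 + 48*a^3*w*x^3 -
      24*a^4*w*x^2 - 48*a^5*w*x + 12*a*x^5 - 12*a^2*x^4 - 72*a^3*x^3 + 24*a^4*x^2 + 48*a^5*x) * hw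
  have hS : y * (3 * U + D0 + D1 - D2 - D3) * (x * (x + 2 * a) * ((x + 2 * (w * a)) * (x + 2 * (w ^ 2 * a)))) =
      2 * (3 * a ^ 2 - (x - a) ^ 2) * (x ^ 4 + 8 * a ^ 3 * x + 8 * a * (x ^ 3 - a ^ 3)) := by
    rw [← hid]
    linear_combination 3 * (x * (x + 2 * a) * ((x + 2 * (w * a)) * (x + 2 * (w ^ 2 * a)))) * hU +
      y * ((x + 2 * a) * ((x + 2 * (w * a)) * (x + 2 * (w ^ 2 * a)))) * h0 +
      ((x + 2 * a) * ((x + 2 * (w * a)) * (x + 2 * (w ^ 2 * a)))) * hy +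
      x * ((x + 2 * (w * a)) * (x + 2 * (w ^ 2 * a))) * k1 -
      x * (x + 2 * a) * (x + 2 * (w ^ 2 * a)) * k2 - x * (x + 2 * a) * (x + 2 * (w * a)) * k3 +
      (6 * (3 * a ^ 2 - (x - a) ^ 2) * x * (x + 2 * a) + 4 * (x ^ 3 - a ^ 3) * (x + 2 * a) -
        12 * a * x * ((x - w * a) * (x - w ^ 2 * a))) * hPi -
      12 * a * x * (x ^ 2 - 2 * a * x + 4 * a ^ 2) * hxx
  have hP' : P * y ^ 2 = x * (x + 2 * a) * ((x + 2 * (w * a)) * (x + 2 * (w ^ 2 * a))) := by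
    rw [hPi, hP]
    ring
  apply mul_left_cancel₀ (mul_ne_zero hy0 (pow_ne_zero 2 hy0))
  rw [← hP'] at hS
  linear_combination hS - (P * y ^ 2 + 2 * a * y ^ 2) * hU - 2 * (3 * a ^ 2 - (x - a) ^ 2) * hP -
    4 * a * (3 * a ^ 2 - (x - a) ^ 2) * hy

theorem PhiE_s3_tr {z T e : ℂ} (hT : 2 * T ∈ PP.lattice) (hT0 : T ∉ PP.lattice) (hX : S3.X T = e)
    (he : 4 * e ^ 3 + 1 = 0) (hz : 2 * z ∉ PP.lattice) (hs : 2 * ((1 + 2 * zt) * z) ∉ PP.lattice) :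
    ((1 + 2 * zt) * (Rq.ev ((1 + 2 * zt) * (z + T)) + (1 + 2 * zt) * Rq.ev (z + T))) *
      ((S3.X z - e) * (S3.X z + 2 * e)) = -3 * e * S3.Y z := by
  have hz' := PhiE_add_half hz hT
  have hs' : 2 * ((1 + 2 * zt) * (z + T)) ∉ PP.lattice := by
    intro h
    apply hs
    have h1 := sub_mem h (add_mem hT (S3.mul_int_mem (S3.zt_mul_mem.2 hT) 2))
    rwa [show 2 * ((1 + 2 * zt) * (z + T)) - (2 * T + ((2 : ℤ) : ℂ) * (zt * (2 * T))) =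
      2 * ((1 + 2 * zt) * z) by push_cast; ring] at h1
  obtain ⟨h1, -, -⟩ := PhiE_s3 hz' hs'
  obtain ⟨h4, h5⟩ := PhiE_tr hT hT0 hX he hz
  have he0 : e ≠ 0 := by
    intro h
    rw [h] at he
    norm_num at he
  apply mul_left_cancel₀ he0
  generalize Rq.ev ((1 + 2 * zt) * (z + T)) + (1 + 2 * zt) * Rq.ev (z + T) = V at h1 ⊢
  linear_combination (S3.X z - e) ^ 2 * h1 + h5 - (1 + 2 * zt) * V * (S3.X z - e) * h4

/-- `FP 1` at `√-3 z` -/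
theorem PhiE_FP_s3 {z : ℂ} (hz : 2 * z ∉ PP.lattice) (hs : 2 * ((1 + 2 * zt) * z) ∉ PP.lattice) :
    (1 + 2 * zt) * (FP 1 ((1 + 2 * zt) * z) / Om) * S3.X (2 * z) =
      FP 1 z / Om * (S3.X (2 * z) + 2 * Quarter_a) := by
  have hO := Om_ne_zero
  have hz1 := S3.notMem_of_two_mul hz
  have ha := Quarter_a_eq
  have hq := S3.zt_quad
  obtain ⟨d0, -, -⟩ := PhiE_s3 hz hs
  have d1 := PhiE_s3_tr PhiE_two_half Half_notMem (e := Quarter_a) rfl ha hz hs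
  have d2 := PhiE_s3_tr PhiE_two_zt Quarter_zt_half Quarter_X1 (PhiE_ha ha) hz hs
  have d3 := PhiE_s3_tr PhiE_two_zt2 Quarter_zt2_half (e := zt ^ 2 * Quarter_a) Quarter_X2
    (by linear_combination ha + 4 * Quarter_a ^ 3 * (zt ^ 3 + 1) * S3.zt_cube) hz hs
  have hY := S3.Y_sq hz1
  have hP := S3.X_two_mul hz
  have g1 : Rq.ev ((1 + 2 * zt) * (z + 1 / 2)) = Rq.ev ((1 + 2 * zt) * z + 1 / 2) := by
    rw [show (1 + 2 * zt) * (z + 1 / 2) = (1 + 2 * zt) * z + 1 / 2 + zt by ring, Rq.ev_add S3.zt_mem]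
  have g2 : Rq.ev ((1 + 2 * zt) * (z + zt / 2)) = Rq.ev ((1 + 2 * zt) * z + zt / 2) := by
    rw [show (1 + 2 * zt) * (z + zt / 2) = (1 + 2 * zt) * z + zt / 2 + -(1 + zt) by
      linear_combination hq, Rq.ev_add (neg_mem (add_mem S3.one_mem S3.zt_mem))]
  have g3 : Rq.ev ((1 + 2 * zt) * (z + (1 + zt) / 2)) = Rq.ev ((1 + 2 * zt) * z + (1 + zt) / 2) := by
    rw [show (1 + 2 * zt) * (z + (1 + zt) / 2) = (1 + 2 * zt) * z + (1 + zt) / 2 + -1 by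
      linear_combination hq, Rq.ev_add (neg_mem S3.one_mem)]
  rw [g1] at d1
  rw [g2] at d2
  rw [g3] at d3
  have e5 : (1 + 2 * zt) * (FP 1 ((1 + 2 * zt) * z) / Om) = 3 * (FP 1 z / Om) +
      (1 + 2 * zt) * (Rq.ev ((1 + 2 * zt) * z) + (1 + 2 * zt) * Rq.ev z) +
      (1 + 2 * zt) * (Rq.ev ((1 + 2 * zt) * z + 1 / 2) + (1 + 2 * zt) * Rq.ev (z + 1 / 2)) -
      (1 + 2 * zt) * (Rq.ev ((1 + 2 * zt) * z + zt / 2) + (1 + 2 * zt) * Rq.ev (z + zt / 2)) -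
      (1 + 2 * zt) * (Rq.ev ((1 + 2 * zt) * z + (1 + zt) / 2) + (1 + 2 * zt) * Rq.ev (z + (1 + zt) / 2)) := by
    have f1 : FP 1 ((1 + 2 * zt) * z) / Om = Rq.ev ((1 + 2 * zt) * z) + Rq.ev ((1 + 2 * zt) * z + 1 / 2) -
        Rq.ev ((1 + 2 * zt) * z + zt / 2) - Rq.ev ((1 + 2 * zt) * z + (1 + zt) / 2) := by
      rw [PhiE_FP, Rq.ev, Rq.ev, Rq.ev, Rq.ev]
      ring
    have f2 : FP 1 z / Om = Rq.ev z + Rq.ev (z + 1 / 2) - Rq.ev (z + zt / 2) - Rq.ev (z + (1 + zt) / 2) := by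
      rw [PhiE_FP, Rq.ev, Rq.ev, Rq.ev, Rq.ev]
      ring
    rw [f1, f2]
    linear_combination (-4) * (Rq.ev z + Rq.ev (z + 1 / 2) - Rq.ev (z + zt / 2) - Rq.ev (z + (1 + zt) / 2)) * hq
  rw [e5]
  exact PhiE_core2 hq (a := Quarter_a) (x := S3.X z) (y := S3.Y z) (by linear_combination hY + ha)
    (Quarter_Y_ne hz) (PhiE_U hz) (by linear_combination d0) d1 d2 d3
    (by linear_combination S3.X (2 * z) * hY + hP - 2 * S3.X z * ha)

/-! ### The values at `1 / 8` and `√-3 / 8` -/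

theorem PhiE_y1 : (S3.X (1 / 4) - Quarter_a) ^ 2 = 3 * Quarter_a ^ 2 := by
  have h1 : 2 * (1 / 4 : ℂ) ∉ PP.lattice := by
    rw [show 2 * (1 / 4 : ℂ) = 1 / 2 by norm_num]
    exact Half_notMem
  have h := Quarter_add h1
  have e : S3.X (1 / 4 + 1 / 2) = S3.X (1 / 4) := by
    rw [show (1 / 4 + 1 / 2 : ℂ) = -(1 / 4) + 1 by norm_num, S3.X_add S3.one_mem, Quarter_X_neg]
  rw [e] at h
  rw [sq]
  exact h

theorem PhiE_y1_ne : S3.X (1 / 4) ≠ 0 := by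
  intro h
  have h1 := PhiE_y1
  rw [h] at h1
  have h2 : Quarter_a ^ 2 = 0 := by linear_combination (-1 / 2) * h1
  exact Quarter_a_ne (pow_eq_zero_iff two_ne_zero |>.1 h2)

theorem PhiE_s3_half : (1 + 2 * zt) / 2 ∉ PP.lattice := by
  intro h
  apply Half_notMem
  have h1 := sub_mem h S3.zt_mem
  rwa [show (1 + 2 * zt) / 2 - zt = 1 / 2 by ring] at h1

theorem PhiE_quarter : 2 * (1 / 4 : ℂ) ∉ PP.lattice := by
  rw [show 2 * (1 / 4 : ℂ) = 1 / 2 by norm_num]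
  exact Half_notMem

theorem PhiE_s3_quarter : 2 * ((1 + 2 * zt) / 4) ∉ PP.lattice := by
  rw [show 2 * ((1 + 2 * zt) / 4) = (1 + 2 * zt) / 2 by ring]
  exact PhiE_s3_half

theorem PhiE_y3 : S3.X ((1 + 2 * zt) / 4) = 2 * Quarter_a - S3.X (1 / 4) := by
  have h1 : 2 * ((1 + 2 * zt) * (1 / 4)) ∉ PP.lattice := by
    rw [show 2 * ((1 + 2 * zt) * (1 / 4)) = (1 + 2 * zt) / 2 by ring]
    exact PhiE_s3_half
  obtain ⟨-, h2, -⟩ := PhiE_s3 PhiE_quarter h1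
  rw [show (1 + 2 * zt) * (1 / 4) = (1 + 2 * zt) / 4 by ring] at h2
  have h3 := PhiE_y1
  have h4 := Quarter_a_eq
  apply mul_left_cancel₀ (mul_ne_zero (three_ne_zero (α := ℂ)) (pow_ne_zero 2 PhiE_y1_ne))
  linear_combination h2 + (2 * S3.X (1 / 4) - 2 * Quarter_a) * h3 - h4

theorem PhiE_f1_sq : (FP 1 (1 / 8) / Om) ^ 2 = 4 * (S3.X (1 / 4) - Quarter_a) := by
  have h1 : 2 * (1 / 8 : ℂ) ∉ PP.lattice := by
    apply S3.notMem_of_two_mul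
    rw [show 2 * (2 * (1 / 8 : ℂ)) = 1 / 2 by norm_num]
    exact Half_notMem
  have h := Quarter_FP_sq (c := 1) one_ne_zero h1
  rw [show 2 * (1 / 8 : ℂ) = 1 / 4 by norm_num, kae, if_pos rfl] at h
  exact h

theorem PhiE_s3_eighth : 2 * (2 * ((1 + 2 * zt) / 8)) ∉ PP.lattice := by
  rw [show 2 * (2 * ((1 + 2 * zt) / 8)) = (1 + 2 * zt) / 2 by ring]
  exact PhiE_s3_half

theorem PhiE_eighth : 2 * (2 * (1 / 8 : ℂ)) ∉ PP.lattice := by
  rw [show 2 * (2 * (1 / 8 : ℂ)) = 1 / 2 by norm_num]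
  exact Half_notMem

theorem PhiE_f3_sq : (FP 1 ((1 + 2 * zt) / 8) / Om) ^ 2 = 4 * (S3.X ((1 + 2 * zt) / 4) - Quarter_a) := by
  have h := Quarter_FP_sq (c := 1) one_ne_zero (S3.notMem_of_two_mul PhiE_s3_eighth)
  rw [show 2 * ((1 + 2 * zt) / 8) = (1 + 2 * zt) / 4 by ring, kae, if_pos rfl] at h
  exact h

theorem PhiE_f13 : (1 + 2 * zt) * (FP 1 ((1 + 2 * zt) / 8) / Om) * S3.X (1 / 4) =
    FP 1 (1 / 8) / Om * (S3.X (1 / 4) + 2 * Quarter_a) := by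
  have h1 : 2 * ((1 + 2 * zt) * (1 / 8)) ∉ PP.lattice := by
    rw [show 2 * ((1 + 2 * zt) * (1 / 8)) = 2 * ((1 + 2 * zt) / 8) by ring]
    exact S3.notMem_of_two_mul PhiE_s3_eighth
  have h := PhiE_FP_s3 (S3.notMem_of_two_mul PhiE_eighth) h1
  rw [show 2 * (1 / 8 : ℂ) = 1 / 4 by norm_num, show (1 + 2 * zt) * (1 / 8) = (1 + 2 * zt) / 8 by ring] at h
  exact h

theorem PhiE_k13 : (1 + 2 * zt) * S3.X (1 / 4) * S3.Y ((1 + 2 * zt) / 4) =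
    -(S3.Y (1 / 4) * (S3.X (1 / 4) + 2 * S3.X ((1 + 2 * zt) / 4))) := by
  have h1 : 2 * ((1 + 2 * zt) * (1 / 4)) ∉ PP.lattice := by
    rw [show 2 * ((1 + 2 * zt) * (1 / 4)) = (1 + 2 * zt) / 2 by ring]
    exact PhiE_s3_half
  obtain ⟨-, -, h2⟩ := PhiE_s3 PhiE_quarter h1
  rw [show (1 + 2 * zt) * (1 / 4) = (1 + 2 * zt) / 4 by ring] at h2
  exact h2

/-- `f1 f3` and `k1 k3` -/
theorem PhiE_ff : FP 1 (1 / 8) / Om * (FP 1 ((1 + 2 * zt) / 8) / Om) = -4 * (1 + 2 * zt) * Quarter_a := by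
  have h1 := PhiE_f1_sq
  have h2 := PhiE_f13
  have h3 := PhiE_y1
  have hq := S3.zt_quad
  generalize FP 1 (1 / 8) / Om = f at h1 h2 ⊢
  generalize FP 1 ((1 + 2 * zt) / 8) / Om = g at h2 ⊢
  have h4 : (1 + 2 * zt) * (f * g) = 12 * Quarter_a := by
    apply mul_left_cancel₀ PhiE_y1_ne
    linear_combination f * h2 + (S3.X (1 / 4) + 2 * Quarter_a) * h1 + 4 * h3
  linear_combination (-1 / 3) * (1 + 2 * zt) * h4 + (4 / 3) * (f * g) * hq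

theorem PhiE_kk : S3.Y (1 / 4) * S3.Y ((1 + 2 * zt) / 4) = -3 * (1 + 2 * zt) := by
  have h1 := S3.Y_sq (S3.notMem_of_two_mul PhiE_quarter)
  have h2 := PhiE_k13
  have h3 := PhiE_y1
  have h5 := PhiE_y3
  have ha := Quarter_a_eq
  have hq := S3.zt_quad
  rw [h5] at h2
  have h4 : (1 + 2 * zt) * (S3.Y (1 / 4) * S3.Y ((1 + 2 * zt) / 4)) = 9 := by
    apply mul_left_cancel₀ PhiE_y1_ne
    generalize S3.Y (1 / 4) = y at h1 h2 ⊢
    generalize S3.Y ((1 + 2 * zt) / 4) = y' at h2 ⊢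
    generalize S3.X (1 / 4) = x at h1 h2 h3 ⊢
    linear_combination y * h2 - (4 * Quarter_a - x) * h1 -
      (8 * Quarter_a * x + 8 * Quarter_a ^ 2 - 4 * x ^ 2) * h3 + (-(4 * Quarter_a - x) - 9 * x) * ha
  linear_combination (-1 / 3) * (1 + 2 * zt) * h4 +
    (4 / 3) * (S3.Y (1 / 4) * S3.Y ((1 + 2 * zt) / 4)) * hq

/-! ### The sums and the differences -/

theorem PhiE_Dx (x : ℂ) : (S3.X (1 / 4) - x) * (S3.X ((1 + 2 * zt) / 4) - x) =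
    x ^ 2 - 2 * Quarter_a * x - 2 * Quarter_a ^ 2 := by
  rw [PhiE_y3]
  linear_combination -PhiE_y1

theorem PhiE_odd_add {z c : ℂ} {n : ℕ} (hn : Odd n) (hnz : (n : ℂ) * (2 * z) ∈ PP.lattice)
    (hc : 4 * c ∈ PP.lattice) (hc2 : 2 * c ∉ PP.lattice) : 2 * z + c ∉ PP.lattice := by
  intro h
  apply hc2
  obtain ⟨j, hj⟩ := hn
  have h1 := S3.mul_int_mem h (2 * n)
  have h2 := S3.mul_int_mem hnz 2
  have h3 := S3.mul_int_mem hc j
  have h4 := sub_mem (sub_mem h1 h2) h3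
  have e : ((2 * n : ℤ) : ℂ) * (2 * z + c) - ((2 : ℤ) : ℂ) * ((n : ℂ) * (2 * z)) - ((j : ℤ) : ℂ) * (4 * c) =
      2 * c := by
    rw [hj]
    push_cast
    ring
  rwa [e] at h4

theorem PhiE_four {z : ℂ} {n : ℕ} (hn : Odd n) (hnz : (n : ℂ) * (2 * z) ∈ PP.lattice)
    (hz : 2 * z ∉ PP.lattice) : 2 * (2 * z) ∉ PP.lattice := by
  intro h
  apply hz
  obtain ⟨j, hj⟩ := hn
  have h1 := sub_mem hnz (S3.mul_int_mem h j)
  have e : (n : ℂ) * (2 * z) - ((j : ℤ) : ℂ) * (2 * (2 * z)) = 2 * z := by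
    rw [hj]
    push_cast
    ring
  rwa [e] at h1

/-- the closed form of the sums -/
theorem PhiE_sum_alg {s a y1 y3 x f g k l U S T t : ℂ} (hs : s ^ 2 = -3) (ha : 4 * a ^ 3 + 1 = 0) (ha0 : a ≠ 0)
    (hy : (y1 - a) ^ 2 = 3 * a ^ 2) (hy3 : y3 = 2 * a - y1) (hf : f ^ 2 = 4 * (y1 - a))
    (hg : g ^ 2 = 4 * (y3 - a)) (hfg : f * g = -4 * s * a) (hk : k ^ 2 = 4 * y1 ^ 3 + 1)
    (hl : l ^ 2 = 4 * y3 ^ 3 + 1) (hkl : k * l = -3 * s) (hU : U ^ 2 = 4 * (x - a))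
    (h1 : S * f * (y1 - x) = -2 * U * k) (h3 : T * g * (y3 - x) = -2 * U * l) (ht : t ^ 2 = 1) :
    (S + t * T) ^ 2 * (x ^ 2 - 2 * a * x - 2 * a ^ 2) ^ 2 =
      16 * (x - a) * (3 * a * ((y1 + a) * (y3 - x) ^ 2 + (y3 + a) * (y1 - x) ^ 2) -
        6 * t * a ^ 2 * (x ^ 2 - 2 * a * x - 2 * a ^ 2)) := by
  have hD : (y1 - x) * (y3 - x) = x ^ 2 - 2 * a * x - 2 * a ^ 2 := by
    rw [hy3]
    linear_combination -hy
  have hkg : k ^ 2 * g ^ 2 = -144 * a ^ 3 * (y1 + a) := by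
    rw [hk, hg, hy3]
    linear_combination (-16*a*y1 - 64*a^2 - 16*y1^2) * hy + 4 * (2 * a - y1 - a) * ha
  have hlf : l ^ 2 * f ^ 2 = -144 * a ^ 3 * (y3 + a) := by
    rw [hl, hf, hy3]
    linear_combination (80*a*y1 - 160*a^2 - 16*y1^2) * hy + 4 * (y1 - a) * ha
  have hkk : (k * l) * (f * g) = 144 * a ^ 4 := by
    rw [hkl, hfg]
    linear_combination 12 * a * hs - 36 * a * ha
  have hm : (S + t * T) * (f * g) * ((y1 - x) * (y3 - x)) =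
      -2 * U * (k * g * (y3 - x) + t * (l * f * (y1 - x))) := by
    linear_combination g * (y3 - x) * h1 + t * f * (y1 - x) * h3
  have hff : (f * g) ^ 2 = -48 * a ^ 2 := by
    rw [hfg]
    linear_combination 16 * a ^ 2 * hs
  have hsq : ((S + t * T) * (f * g) * ((y1 - x) * (y3 - x))) ^ 2 =
      (-2 * U * (k * g * (y3 - x) + t * (l * f * (y1 - x)))) ^ 2 := by rw [hm]
  rw [hD] at hsq
  have hne : (-48 : ℂ) * a ^ 2 ≠ 0 := mul_ne_zero (by norm_num) (pow_ne_zero 2 ha0)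
  apply mul_left_cancel₀ hne
  have hL : ((S + t * T) * (f * g) * (x ^ 2 - 2 * a * x - 2 * a ^ 2)) ^ 2 =
      -48 * a ^ 2 * ((S + t * T) ^ 2 * (x ^ 2 - 2 * a * x - 2 * a ^ 2) ^ 2) := by
    rw [mul_pow, mul_pow, hff]
    ring
  rw [← hL, hsq]
  have hR : (-2 * U * (k * g * (y3 - x) + t * (l * f * (y1 - x)))) ^ 2 =
      4 * U ^ 2 * (k ^ 2 * g ^ 2 * (y3 - x) ^ 2 + t ^ 2 * (l ^ 2 * f ^ 2) * (y1 - x) ^ 2 +
        2 * t * ((k * l) * (f * g)) * ((y1 - x) * (y3 - x))) := by ring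
  rw [hR, hU, hkg, hlf, hkk, hD, ht]
  ring

/-- the closed form of the differences -/
theorem PhiE_dif_alg {s a y1 y3 x f g U R S T t : ℂ}
    (hy : (y1 - a) ^ 2 = 3 * a ^ 2) (hy3 : y3 = 2 * a - y1) (hf : f ^ 2 = 4 * (y1 - a))
    (hg : g ^ 2 = 4 * (y3 - a)) (hfg : f * g = -4 * s * a) (hU : U ^ 2 = 4 * (x - a)) (hx : x - a ≠ 0)
    (hR : R ^ 2 = 4 * (x ^ 3 - a ^ 3))
    (h1 : S * U * (x - y1) = -2 * f * R) (h3 : T * U * (x - y3) = -2 * g * R) (ht : t ^ 2 = 1) :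
    (S + t * T) ^ 2 * (x ^ 2 - 2 * a * x - 2 * a ^ 2) ^ 2 =
      4 * (x ^ 2 + a * x + a ^ 2) * (48 * a ^ 2 * (x - a) - 8 * t * s * a * (x ^ 2 - 2 * a * x - 2 * a ^ 2)) := by
  have hD : (x - y1) * (x - y3) = x ^ 2 - 2 * a * x - 2 * a ^ 2 := by
    rw [hy3]
    linear_combination -hy
  have hm : (S + t * T) * U * ((x - y1) * (x - y3)) =
      -2 * R * (f * (x - y3) + t * (g * (x - y1))) := by
    linear_combination (x - y3) * h1 + t * (x - y1) * h3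
  have hsq : ((S + t * T) * U * ((x - y1) * (x - y3))) ^ 2 =
      (-2 * R * (f * (x - y3) + t * (g * (x - y1)))) ^ 2 := by rw [hm]
  rw [hD] at hsq
  have hne : (4 : ℂ) * (x - a) ≠ 0 := mul_ne_zero (by norm_num) hx
  apply mul_left_cancel₀ hne
  have hL : ((S + t * T) * U * (x ^ 2 - 2 * a * x - 2 * a ^ 2)) ^ 2 =
      4 * (x - a) * ((S + t * T) ^ 2 * (x ^ 2 - 2 * a * x - 2 * a ^ 2) ^ 2) := by
    rw [mul_pow, mul_pow, hU]
    ring
  rw [← hL, hsq]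
  have hR2 : (-2 * R * (f * (x - y3) + t * (g * (x - y1)))) ^ 2 =
      4 * R ^ 2 * (f ^ 2 * (x - y3) ^ 2 + t ^ 2 * (g ^ 2) * (x - y1) ^ 2 +
        2 * t * (f * g) * ((x - y1) * (x - y3))) := by ring
  have hE : 4 * (y1 - a) * (x - y3) ^ 2 + 4 * (y3 - a) * (x - y1) ^ 2 = 48 * a ^ 2 * (x - a) := by
    rw [hy3]
    linear_combination (-16 * a + 16 * x) * hy
  rw [hR2, hR, hf, hg, hfg, hD, ht]
  linear_combination 16 * (x ^ 3 - a ^ 3) * hE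

/-! ### The final statement -/

/-- `-2 / ep ^ 2` up to a factor: twice the abscissa of `1 / 2` -/
def vpE : ℂ := 2 * Quarter_a

/-- a lift of an element of `F4` to `ℂ` -/
def chE' (c : F4) : ℂ := if c = 0 then 0 else if c = 1 then 1 else if c = ⟨0, 1⟩ then zt else zt ^ 2

/-- the denominator -/
def DEe (x : ℂ) : ℂ := 1 - vpE ^ 2 * x + vpE * x ^ 2

/-- the unit -/
def uE (c : F4) (x : ℂ) : ℂ :=
  if F4.tr c = 0 then 1 + vpE ^ 2 * x else 1 - vpE ^ 2 * x + vpE ^ 4 * x ^ 2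

/-- the squares of the constants -/
def CEs (c : F4) : ℂ :=
  if c = 0 then 72 * Quarter_a ^ 2 else if c = 1 then 24 * Quarter_a ^ 2 else
    if c = ⟨0, 1⟩ then -2 * (1 + 2 * zt) / Quarter_a else 2 * (1 + 2 * zt) / Quarter_a

/-- the constants -/
def CE (c : F4) : ℂ := CEs c ^ (((2 : ℕ) : ℂ)⁻¹)

theorem CE_sq (c : F4) : CE c ^ 2 = CEs c := Complex.cpow_nat_inv_pow _ two_ne_zero

theorem PhiE_s_sq : (1 + 2 * zt) ^ 2 = -3 := by linear_combination 4 * S3.zt_quad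

theorem PhiE_s_ne : 1 + 2 * zt ≠ 0 := by
  intro h
  have h1 := PhiE_s_sq
  rw [h] at h1
  norm_num at h1

theorem CEs_ne (c : F4) : CEs c ≠ 0 := by
  rw [CEs]
  have h1 := Quarter_a_ne
  have h2 := PhiE_s_ne
  split_ifs
  · exact mul_ne_zero (by norm_num) (pow_ne_zero 2 h1)
  · exact mul_ne_zero (by norm_num) (pow_ne_zero 2 h1)
  · exact div_ne_zero (mul_ne_zero (by norm_num) h2) h1
  · exact div_ne_zero (mul_ne_zero (by norm_num) h2) h1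

theorem CE_ne (c : F4) : CE c ≠ 0 := by
  intro h
  have h1 := CE_sq c
  rw [h] at h1
  exact CEs_ne c (by rw [← h1]; norm_num)

/-- (E3) -/
theorem phiE_four (c : F4) {z : ℂ} {n : ℕ} (hn : Odd n) (hnz : (n : ℂ) * (2 * z) ∈ PP.lattice)
    (hz : 2 * z ∉ PP.lattice) :
    ((FP 1 (z + 1 / 8) + (sgz (F4.tr c) : ℂ) * FP 1 (z - 1 / 8) - (sgz (F4.tr (c * ⟨0, 1⟩)) : ℂ) *
      (FP 1 (z + (1 + 2 * zt) / 8) + (sgz (F4.tr c) : ℂ) * FP 1 (z - (1 + 2 * zt) / 8))) / (2 * Om)) ^ 2 *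
        DEe (S3.X (2 * z)) ^ 2 =
      CEs c * uE c (S3.X (2 * z)) * (S3.X (2 * z) + vpE * chE' c) ^ 2 := by
  have hO := Om_ne_zero
  have ha := Quarter_a_eq
  have ha0 := Quarter_a_ne
  have hq := S3.zt_quad
  have h4z := PhiE_four hn hnz hz
  have m4 : 4 * (1 / 4 : ℂ) ∈ PP.lattice := by
    rw [show 4 * (1 / 4 : ℂ) = 1 by norm_num]
    exact S3.one_mem
  have m4s : 4 * ((1 + 2 * zt) / 4) ∈ PP.lattice := by
    rw [show 4 * ((1 + 2 * zt) / 4) = 1 + ((2 : ℤ) : ℂ) * zt by push_cast; ring]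
    exact add_mem S3.one_mem (S3.mul_int_mem S3.zt_mem 2)
  have neg4 : ∀ {c : ℂ}, 4 * c ∈ PP.lattice → 4 * -c ∈ PP.lattice := by
    intro c h
    rw [show 4 * -c = -(4 * c) by ring]
    exact neg_mem h
  have neg2 : ∀ {c : ℂ}, 2 * c ∉ PP.lattice → 2 * -c ∉ PP.lattice := by
    intro c h h'
    apply h
    have h1 := neg_mem h'
    rwa [show -(2 * -c) = 2 * c by ring] at h1
  have p1 : 2 * (z + 1 / 8) ∉ PP.lattice := by
    have h := PhiE_odd_add hn hnz m4 PhiE_quarter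
    rwa [show 2 * z + 1 / 4 = 2 * (z + 1 / 8) by ring] at h
  have p2 : 2 * (z - 1 / 8) ∉ PP.lattice := by
    have h := PhiE_odd_add hn hnz (neg4 m4) (neg2 PhiE_quarter)
    rwa [show 2 * z + -(1 / 4) = 2 * (z - 1 / 8) by ring] at h
  have p3 : 2 * (z + (1 + 2 * zt) / 8) ∉ PP.lattice := by
    have h := PhiE_odd_add hn hnz m4s PhiE_s3_quarter
    rwa [show 2 * z + (1 + 2 * zt) / 4 = 2 * (z + (1 + 2 * zt) / 8) by ring] at h
  have p4 : 2 * (z - (1 + 2 * zt) / 8) ∉ PP.lattice := by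
    have h := PhiE_odd_add hn hnz (neg4 m4s) (neg2 PhiE_s3_quarter)
    rwa [show 2 * z + -((1 + 2 * zt) / 4) = 2 * (z - (1 + 2 * zt) / 8) by ring] at h
  have hU := Quarter_FP_sq (c := 1) one_ne_zero hz
  rw [kae, if_pos rfl] at hU
  have hf := PhiE_f1_sq
  have hg := PhiE_f3_sq
  have hfg := PhiE_ff
  have hkl := PhiE_kk
  have hk := S3.Y_sq (S3.notMem_of_two_mul PhiE_quarter)
  have hl := S3.Y_sq (S3.notMem_of_two_mul PhiE_s3_quarter)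
  have hy := PhiE_y1
  have hy3 := PhiE_y3
  have hR := S3.Y_sq hz
  have hR0 := Quarter_Y_ne h4z
  -- the four relations
  have s1 := PhiE_add hz PhiE_eighth p1 p2
  have s3 := PhiE_add hz PhiE_s3_eighth p3 p4
  have swap : ∀ c : ℂ, 2 * (z - c) ∉ PP.lattice → 2 * (c - z) ∉ PP.lattice := by
    intro c h h'
    apply h
    have h1 := neg_mem h'
    rwa [show -(2 * (c - z)) = 2 * (z - c) by ring] at h1
  have d1 := PhiE_add (S3.notMem_of_two_mul PhiE_eighth) h4z (by rwa [add_comm]) (swap _ p2)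
  have d3 := PhiE_add (S3.notMem_of_two_mul PhiE_s3_eighth) h4z (by rwa [add_comm]) (swap _ p4)
  rw [show 2 * (1 / 8 : ℂ) = 1 / 4 by norm_num] at s1 d1
  rw [show 2 * ((1 + 2 * zt) / 8) = (1 + 2 * zt) / 4 by ring] at s3 d3
  have w1 : FP 1 (1 / 8 + z) + FP 1 (1 / 8 - z) = FP 1 (z + 1 / 8) - FP 1 (z - 1 / 8) := by
    rw [show (1 / 8 - z) = -(z - 1 / 8) by ring, PhiE_neg, add_comm (1 / 8 : ℂ) z]
    ring
  have w3 : FP 1 ((1 + 2 * zt) / 8 + z) + FP 1 ((1 + 2 * zt) / 8 - z) =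
      FP 1 (z + (1 + 2 * zt) / 8) - FP 1 (z - (1 + 2 * zt) / 8) := by
    rw [show ((1 + 2 * zt) / 8 - z) = -(z - (1 + 2 * zt) / 8) by ring, PhiE_neg,
      add_comm ((1 + 2 * zt) / 8) z]
    ring
  rw [w1] at d1
  rw [w3] at d3
  have hxa : S3.X (2 * z) - Quarter_a ≠ 0 := by
    intro h
    apply hR0
    have h1 : S3.Y (2 * z) ^ 2 = 0 := by
      rw [hR]
      linear_combination 4 * (S3.X (2 * z) ^ 2 + S3.X (2 * z) * Quarter_a + Quarter_a ^ 2) * h + ha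
    exact pow_eq_zero_iff two_ne_zero |>.1 h1
  set x := S3.X (2 * z) with hx
  set a := Quarter_a with haa
  have hDE : -2 * a ^ 2 * DEe x = x ^ 2 - 2 * a * x - 2 * a ^ 2 := by
    rw [DEe, vpE, ← haa]
    linear_combination (2 * a * x - x ^ 2) * ha
  have hne : 16 * a ^ 4 ≠ 0 := mul_ne_zero (by norm_num) (pow_ne_zero 4 ha0)
  have key : ∀ Φ C u v : ℂ, (Φ / Om) ^ 2 * (x ^ 2 - 2 * a * x - 2 * a ^ 2) ^ 2 = 16 * a ^ 4 * (C * u * v ^ 2) →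
      (Φ / (2 * Om)) ^ 2 * DEe x ^ 2 = C * u * v ^ 2 := by
    intro Φ C u v h
    apply mul_left_cancel₀ hne
    rw [← h, ← hDE]
    field_simp
    ring
  have hcc : c = 0 ∨ c = 1 ∨ c = ⟨0, 1⟩ ∨ c = ⟨1, 1⟩ := by
    clear * -
    revert c
    decide
  have hsum : ∀ t : ℂ, t ^ 2 = 1 →
      ((FP 1 (z + 1 / 8) + FP 1 (z - 1 / 8)) / Om +
        t * ((FP 1 (z + (1 + 2 * zt) / 8) + FP 1 (z - (1 + 2 * zt) / 8)) / Om)) ^ 2 *
          (x ^ 2 - 2 * a * x - 2 * a ^ 2) ^ 2 =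
      16 * (x - a) * (3 * a * ((S3.X (1 / 4) + a) * (S3.X ((1 + 2 * zt) / 4) - x) ^ 2 +
        (S3.X ((1 + 2 * zt) / 4) + a) * (S3.X (1 / 4) - x) ^ 2) -
        6 * t * a ^ 2 * (x ^ 2 - 2 * a * x - 2 * a ^ 2)) := by
    intro t ht
    exact PhiE_sum_alg PhiE_s_sq ha ha0 hy hy3 hf hg hfg hk hl hkl hU s1 s3 ht
  have hdif : ∀ t : ℂ, t ^ 2 = 1 →
      ((FP 1 (z + 1 / 8) - FP 1 (z - 1 / 8)) / Om +
        t * ((FP 1 (z + (1 + 2 * zt) / 8) - FP 1 (z - (1 + 2 * zt) / 8)) / Om)) ^ 2 *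
          (x ^ 2 - 2 * a * x - 2 * a ^ 2) ^ 2 =
      4 * (x ^ 2 + a * x + a ^ 2) * (48 * a ^ 2 * (x - a) -
        8 * t * (1 + 2 * zt) * a * (x ^ 2 - 2 * a * x - 2 * a ^ 2)) := by
    intro t ht
    exact PhiE_dif_alg hy hy3 hf hg hfg hU hxa (by linear_combination hR + ha) d1 d3 ht
  rcases hcc with rfl | rfl | rfl | rfl
  · have s0 : sgz (F4.tr (0 : F4)) = 1 := by decide
    have s1 : sgz (F4.tr ((0 : F4) * ⟨0, 1⟩)) = 1 := by decide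
    have h := hsum (-1) (by norm_num)
    rw [s0, s1]
    apply key
    rw [CEs, uE, chE', if_pos rfl, if_pos (by decide), if_pos rfl, ← haa]
    have e : (FP 1 (z + 1 / 8) + ((1 : ℤ) : ℂ) * FP 1 (z - 1 / 8) - ((1 : ℤ) : ℂ) *
        (FP 1 (z + (1 + 2 * zt) / 8) + ((1 : ℤ) : ℂ) * FP 1 (z - (1 + 2 * zt) / 8))) / Om =
        (FP 1 (z + 1 / 8) + FP 1 (z - 1 / 8)) / Om +
        -1 * ((FP 1 (z + (1 + 2 * zt) / 8) + FP 1 (z - (1 + 2 * zt) / 8)) / Om) := by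
      push_cast
      ring
    rw [e, h, hy3, vpE, ← haa]
    linear_combination 16 * (x - a) * (12 * a * x) * hy +
      (288 * a ^ 2 * x ^ 2 * (x * (1 - 4 * a ^ 3) - a)) * ha
  · have s0 : sgz (F4.tr (1 : F4)) = 1 := by decide
    have s1 : sgz (F4.tr ((1 : F4) * ⟨0, 1⟩)) = -1 := by decide
    have h := hsum 1 (by norm_num)
    rw [s0, s1]
    apply key
    rw [CEs, uE, chE', if_neg (by decide), if_pos rfl, if_pos (by decide), if_neg (by decide), if_pos rfl, ← haa]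
    have e : (FP 1 (z + 1 / 8) + ((1 : ℤ) : ℂ) * FP 1 (z - 1 / 8) - ((-1 : ℤ) : ℂ) *
        (FP 1 (z + (1 + 2 * zt) / 8) + ((1 : ℤ) : ℂ) * FP 1 (z - (1 + 2 * zt) / 8))) / Om =
        (FP 1 (z + 1 / 8) + FP 1 (z - 1 / 8)) / Om +
        1 * ((FP 1 (z + (1 + 2 * zt) / 8) + FP 1 (z - (1 + 2 * zt) / 8)) / Om) := by
      push_cast
      ring
    rw [e, h, hy3, vpE, ← haa]
    linear_combination 16 * (x - a) * (12 * a * x) * hy +
      (96 * a ^ 2 * (x + 2 * a) ^ 2 * (x * (1 - 4 * a ^ 3) - a)) * ha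
  · have s0 : sgz (F4.tr (⟨0, 1⟩ : F4)) = -1 := by decide
    have s1 : sgz (F4.tr ((⟨0, 1⟩ : F4) * ⟨0, 1⟩)) = -1 := by decide
    have h := hdif 1 (by norm_num)
    rw [s0, s1]
    apply key
    rw [CEs, uE, chE', if_neg (by decide), if_neg (by decide), if_pos rfl, if_neg (by decide),
      if_neg (by decide), if_neg (by decide), if_pos rfl, ← haa]
    have e : (FP 1 (z + 1 / 8) + ((-1 : ℤ) : ℂ) * FP 1 (z - 1 / 8) - ((-1 : ℤ) : ℂ) *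
        (FP 1 (z + (1 + 2 * zt) / 8) + ((-1 : ℤ) : ℂ) * FP 1 (z - (1 + 2 * zt) / 8))) / Om =
        (FP 1 (z + 1 / 8) - FP 1 (z - 1 / 8)) / Om +
        1 * ((FP 1 (z + (1 + 2 * zt) / 8) - FP 1 (z - (1 + 2 * zt) / 8)) / Om) := by
      push_cast
      ring
    have e2 : 16 * a ^ 4 * (-2 * (1 + 2 * zt) / a * (1 - vpE ^ 2 * x + vpE ^ 4 * x ^ 2) *
        (x + vpE * zt) ^ 2) = -32 * a ^ 3 * (1 + 2 * zt) * (1 - 4 * a ^ 2 * x + 16 * a ^ 4 * x ^ 2) *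
          (x + 2 * a * zt) ^ 2 := by
      rw [vpE, ← haa]
      field_simp
      ring
    rw [e, h, e2]
    linear_combination 4 * (x ^ 2 + a * x + a ^ 2) * (64 * a ^ 3 * zt + 64 * a ^ 2 * x - 32 * a ^ 3) * hq -
      32 * (1 + 2 * zt) * a * (x + 2 * a * zt) ^ 2 * (x ^ 2 * (1 - 4 * a ^ 3) + a * x) * ha
  · have s0 : sgz (F4.tr (⟨1, 1⟩ : F4)) = -1 := by decide
    have s1 : sgz (F4.tr ((⟨1, 1⟩ : F4) * ⟨0, 1⟩)) = 1 := by decide
    have h := hdif (-1) (by norm_num)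
    rw [s0, s1]
    apply key
    rw [CEs, uE, chE', if_neg (by decide), if_neg (by decide), if_neg (by decide), if_neg (by decide),
      if_neg (by decide), if_neg (by decide), if_neg (by decide), ← haa]
    have e : (FP 1 (z + 1 / 8) + ((-1 : ℤ) : ℂ) * FP 1 (z - 1 / 8) - ((1 : ℤ) : ℂ) *
        (FP 1 (z + (1 + 2 * zt) / 8) + ((-1 : ℤ) : ℂ) * FP 1 (z - (1 + 2 * zt) / 8))) / Om =
        (FP 1 (z + 1 / 8) - FP 1 (z - 1 / 8)) / Om +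
        -1 * ((FP 1 (z + (1 + 2 * zt) / 8) - FP 1 (z - (1 + 2 * zt) / 8)) / Om) := by
      push_cast
      ring
    have e2 : 16 * a ^ 4 * (2 * (1 + 2 * zt) / a * (1 - vpE ^ 2 * x + vpE ^ 4 * x ^ 2) *
        (x + vpE * zt ^ 2) ^ 2) = 32 * a ^ 3 * (1 + 2 * zt) * (1 - 4 * a ^ 2 * x + 16 * a ^ 4 * x ^ 2) *
          (x + 2 * a * zt ^ 2) ^ 2 := by
      rw [vpE, ← haa]
      field_simp
      ring
    rw [e, h, e2]
    linear_combination 4 * (x ^ 2 + a * x + a ^ 2) * (-64*a^3*zt^3 + 32*a^3*zt^2 - 64*a^2*zt*x + 32*a^3*zt +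
      32*a^2*x - 64*a^3) * hq +
      32 * (1 + 2 * zt) * a * (x + 2 * a * zt ^ 2) ^ 2 * (x ^ 2 * (1 - 4 * a ^ 3) + a * x) * ha

end

end Pool.Agent.Lib.MP_1a91b9_ntE
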