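import Pool.Agent.Lib.MP_1a91b9_ntE.A.Em
import Pool.Agent.Lib.MP_1a91b9_ntH.A.RatA
import Pool.Agent.Lib.MP_1a91b9_ntT.Rq.Act

/-!
# Phase E (`2 ∣ δ`), part A, file PntE: the sum of `x ^ (3/2) + x ^ 3` (step E6)

`yy = (Y - 1) / 2`. At a place of `ℂ` above `2` multiplication by `-2` is the Frobenius map of degree `4`
on the points of odd order: `yy (- 2 z) = yy z ^ 4`.
-/

set_option autoImplicit false

namespace Pool.Agent.Lib.MP_1a91b9_ntE

open NumberField Pool.Agent.Lib.MP_1a91b9_ntT Pool.Agent.Lib.MP_1a91b9_ntH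

noncomputable section

/-- `(Y - 1) / 2` -/
def yy (z : ℂ) : ℂ := (S3.Y z - 1) / 2

/-- the weight: `1` if all `(x / q)` are equal to `e q`, `0` otherwise -/
def WE (e : Pq → ℤ) (D : Finset Pq) (x : 𝓞 K) : ℂ := ∏ q ∈ D, ((1 + e q * qs q x : ℤ) : ℂ) / 2

/-- the symbol of `-2` -/
def e2 (q : Pq) : ℤ := qs q (-2)

/-! ### Congruences in a valuation ring -/

section Cg

variable {A : ValuationSubring ℂ}

/-- `a` and `b` are integral and congruent modulo the maximal ideal. -/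
def Cg (A : ValuationSubring ℂ) (a b : ℂ) : Prop := a ∈ A ∧ b ∈ A ∧ A.valuation (a - b) < 1

theorem vle {a : ℂ} (h : a ∈ A) : A.valuation a ≤ 1 := (A.valuation_le_one_iff _).2 h

theorem Cg.refl {a : ℂ} (h : a ∈ A) : Cg A a a := ⟨h, h, by
  rw [sub_self, map_zero]
  exact zero_lt_one⟩

theorem Cg.symm {a b : ℂ} (h : Cg A a b) : Cg A b a := ⟨h.2.1, h.1, by
  rw [← neg_sub, Valuation.map_neg]
  exact h.2.2⟩

theorem Cg.trans {a b c : ℂ} (h : Cg A a b) (h' : Cg A b c) : Cg A a c := ⟨h.1, h'.2.1, by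
  have := A.valuation.map_add_lt h.2.2 h'.2.2
  rwa [sub_add_sub_cancel] at this⟩

theorem Cg.add {a b a' b' : ℂ} (h : Cg A a b) (h' : Cg A a' b') : Cg A (a + a') (b + b') :=
  ⟨add_mem h.1 h'.1, add_mem h.2.1 h'.2.1, by
    have := A.valuation.map_add_lt h.2.2 h'.2.2
    rwa [show a + a' - (b + b') = a - b + (a' - b') by ring]⟩

theorem Cg.mul {a b a' b' : ℂ} (h : Cg A a b) (h' : Cg A a' b') : Cg A (a * a') (b * b') :=
  ⟨mul_mem h.1 h'.1, mul_mem h.2.1 h'.2.1, by
    rw [show a * a' - b * b' = (a - b) * a' + b * (a' - b') by ring]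
    refine A.valuation.map_add_lt ?_ ?_
    · rw [map_mul]
      exact mul_lt_one_of_lt_of_le h.2.2 (vle h'.1)
    · rw [map_mul, mul_comm]
      exact mul_lt_one_of_lt_of_le h'.2.2 (vle h.2.1)⟩

theorem Cg.pow {a b : ℂ} (h : Cg A a b) (n : ℕ) : Cg A (a ^ n) (b ^ n) := by
  induction n with
  | zero =>
    rw [pow_zero, pow_zero]
    exact Cg.refl (one_mem A)
  | succ n ih =>
    rw [pow_succ, pow_succ]
    exact ih.mul h

theorem Cg.sum {ι : Type*} (T : Finset ι) {a b : ι → ℂ} (h : ∀ i ∈ T, Cg A (a i) (b i)) :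
    Cg A (∑ i ∈ T, a i) (∑ i ∈ T, b i) := by
  classical
  induction T using Finset.induction_on with
  | empty =>
    rw [Finset.sum_empty, Finset.sum_empty]
    exact Cg.refl (zero_mem A)
  | insert i T hi ih =>
    rw [Finset.sum_insert hi, Finset.sum_insert hi]
    exact (h i (Finset.mem_insert_self i T)).add
      (ih fun j hj => h j (Finset.mem_insert_of_mem hj))

/-- elements which differ by a multiple of `2` are congruent -/
theorem Cg.two (hA : Two A) {a b c : ℂ} (ha : a ∈ A) (hc : c ∈ A) (h : b = a + 2 * c) :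
    Cg A a b := by
  have h2 : (2 : ℂ) ∈ A := S3.two_mem
  refine ⟨ha, by rw [h]; exact add_mem ha (mul_mem h2 hc), ?_⟩
  rw [h, show a - (a + 2 * c) = -(2 * c) by ring, Valuation.map_neg, map_mul]
  exact mul_lt_one_of_lt_of_le (S3.v_two_lt hA) (vle hc)

/-- the square of a sum -/
theorem Cg.sq_sum (hA : Two A) {ι : Type*} (T : Finset ι) {a : ι → ℂ} (h : ∀ i ∈ T, a i ∈ A) :
    Cg A ((∑ i ∈ T, a i) ^ 2) (∑ i ∈ T, a i ^ 2) := by
  classical
  induction T using Finset.induction_on with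
  | empty =>
    rw [Finset.sum_empty, Finset.sum_empty]
    norm_num
    exact Cg.refl (zero_mem A)
  | insert i T hi ih =>
    rw [Finset.sum_insert hi, Finset.sum_insert hi]
    have h1 := h i (Finset.mem_insert_self i T)
    have h2 : ∀ j ∈ T, a j ∈ A := fun j hj => h j (Finset.mem_insert_of_mem hj)
    have h3 : ∑ j ∈ T, a j ∈ A := sum_mem h2
    have h4 : Cg A (a i ^ 2 + (∑ j ∈ T, a j) ^ 2) ((a i + ∑ j ∈ T, a j) ^ 2) :=
      Cg.two hA (add_mem (pow_mem h1 2) (pow_mem h3 2)) (mul_mem h1 h3) (by ring)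
    exact h4.symm.trans ((Cg.refl (pow_mem h1 2)).add (ih h2))

theorem Cg.of_rs {z : ℂ} {x : 𝓞 K} (h : Rs A z (red x)) (hA : Two A) : Cg A z (em x) :=
  ⟨(A.valuation_le_one_iff _).1 h.le, (A.valuation_le_one_iff _).1 (em_le x), h.eq hA x rfl⟩

theorem Cg.rs {z : ℂ} {x : 𝓞 K} (h : Cg A z (em x)) : Rs A z (red x) := ⟨x, rfl, h.2.2⟩

/-- squaring is injective -/
theorem Cg.of_sq (hA : Two A) {a b : ℂ} (ha : a ∈ A) (hb : b ∈ A) (h : Cg A (a ^ 2) (b ^ 2)) :
    Cg A a b := by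
  refine ⟨ha, hb, ?_⟩
  have h1 : A.valuation ((a - b) ^ 2) < 1 := by
    have e : (a - b) ^ 2 = (a ^ 2 - b ^ 2) + 2 * (b * (b - a)) := by ring
    rw [e]
    refine A.valuation.map_add_lt h.2.2 ?_
    rw [map_mul]
    exact mul_lt_one_of_lt_of_le (S3.v_two_lt hA) (vle (mul_mem hb (sub_mem hb ha)))
  by_contra h2
  push Not at h2
  rw [map_pow] at h1
  exact absurd h1 (not_lt.2 (one_le_pow₀ h2))

theorem Cg.of_sq_iter (hA : Two A) {a b : ℂ} (ha : a ∈ A) (hb : b ∈ A) (n : ℕ)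
    (h : Cg A (a ^ 2 ^ n) (b ^ 2 ^ n)) : Cg A a b := by
  induction n with
  | zero => simpa using h
  | succ n ih =>
    apply ih
    apply Cg.of_sq hA (pow_mem ha _) (pow_mem hb _)
    rw [← pow_mul, ← pow_mul, ← pow_succ]
    exact h

end Cg

/-! ### Points of odd order -/

/-- a point of odd order -/
def Od (z : ℂ) : Prop := ∃ n : ℕ, Odd n ∧ (n : ℂ) * z ∈ PP.lattice

theorem Od.mul_int {z : ℂ} (h : Od z) (k : ℤ) : Od (k * z) := by
  obtain ⟨n, hn, hz⟩ := h
  refine ⟨n, hn, ?_⟩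
  rw [show (n : ℂ) * (k * z) = k * (n * z) by ring]
  exact S3.mul_int_mem hz k

theorem Od.two_notMem {z : ℂ} (h : Od z) (hz : z ∉ PP.lattice) : 2 * z ∉ PP.lattice := by
  obtain ⟨n, ⟨k, hk⟩, hnz⟩ := h
  intro h
  apply hz
  have h1 := sub_mem hnz (S3.mul_int_mem h k)
  have e : (n : ℂ) * z - ((k : ℤ) : ℂ) * (2 * z) = z := by
    rw [hk]
    push_cast
    ring
  rwa [e] at h1

theorem Od.congr {z z' : ℂ} (h : Od z) (hzz : z' - z ∈ PP.lattice) : Od z' := by
  obtain ⟨n, hn, hz⟩ := h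
  refine ⟨n, hn, ?_⟩
  rw [show (n : ℂ) * z' = n * (z' - z) + n * z by ring]
  exact add_mem (S3.mul_mem (S3.nat_mem n) hzz) hz

theorem yy_congr {z z' : ℂ} (h : z' - z ∈ PP.lattice) : yy z' = yy z := by
  have e : z' = z + (z' - z) := by ring
  rw [yy, yy, e, Rq.Y_add h]

theorem yy_neg (z : ℂ) : yy (-z) = -1 - yy z := by
  rw [yy, yy, Rq.Y_neg]
  ring

theorem yy_eq {z : ℂ} (hz : z ∉ PP.lattice) : yy z ^ 2 + yy z = S3.X z ^ 3 := by
  have h := S3.Y_sq hz
  rw [yy]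
  linear_combination (1 / 4) * h

section Val

variable {A : ValuationSubring ℂ}

theorem X_mem (hA : Two A) {z : ℂ} (h : Od z) (hz : z ∉ PP.lattice) : S3.X z ∈ A := by
  obtain ⟨n, hn, hnz⟩ := h
  exact S3.X_mem hA hn hnz hz

theorem yy_mem (hA : Two A) {z : ℂ} (h : Od z) (hz : z ∉ PP.lattice) : yy z ∈ A := by
  rw [← A.valuation_le_one_iff]
  by_contra hn
  push Not at hn
  have h3 : A.valuation (yy z + 1) = A.valuation (yy z) := by
    rw [A.valuation.map_add_eq_of_lt_left (by rw [map_one]; exact hn)]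
  have h4 : A.valuation (yy z * (yy z + 1)) ≤ 1 := by
    rw [show yy z * (yy z + 1) = yy z ^ 2 + yy z by ring, yy_eq hz, map_pow]
    exact pow_le_one' (vle (X_mem hA h hz)) 3
  rw [map_mul, h3, ← pow_two] at h4
  exact absurd (one_lt_pow₀ hn two_ne_zero) (not_lt.2 h4)

/-- **multiplication by `-2` is the Frobenius map** -/
theorem frob (hA : Two A) {z : ℂ} (h : Od z) (hz : z ∉ PP.lattice) :
    Cg A (yy z ^ 4) (yy (-2 * z)) := by
  have h2z := h.two_notMem hz
  have o2 : Od (2 * z) := by exact_mod_cast h.mul_int 2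
  have h4z := o2.two_notMem h2z
  have om : Od (-2 * z) := by exact_mod_cast h.mul_int (-2)
  have hm : -2 * z ∉ PP.lattice := by
    intro h
    apply h2z
    have := neg_mem h
    rwa [show -(-2 * z) = 2 * z by ring] at this
  have a1 := S3.X_two_mul h2z
  have a2 : S3.Y (z + z) = _ := Rq.third h2z hz (by rwa [← two_mul])
  have a3 := Rq.dupl h2z
  have a4 := yy_eq hz
  have m1 := X_mem hA h hz
  have m2 := X_mem hA o2 h2z
  have m3 := yy_mem hA h hz
  have m4 := yy_mem hA om hm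
  have e1 : yy (-2 * z) = (-S3.Y (z + z) - 1) / 2 := by
    rw [yy, show -2 * z = -(z + z) by ring, Rq.Y_neg]
  have e2 : S3.Y z = 1 + 2 * yy z := by
    rw [yy]
    ring
  rw [← two_mul] at a2 e1
  set x := S3.X z with hx
  set X2 := S3.X (2 * z) with hX2
  set y := yy z with hy
  set w := yy (-2 * z) with hw
  have b1 : (1 + 2 * y) * w = (1 + 2 * y) * y - 3 * x ^ 2 * (x - X2) := by
    rw [e1, a2, ← e2]
    rw [e2] at a3
    have a3' : (Rq.ev (2 * z) - 2 * Rq.ev z) * S3.Y z = 3 * x ^ 2 := by rw [e2]; exact a3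
    linear_combination (S3.Y z / 2) * e2 - (x - X2) * a3'
  have two := S3.two_mem (A := A)
  have n3 : (3 : ℂ) ∈ A := by exact_mod_cast S3.int_mem_A (A := A) 3
  have n4 : (4 : ℂ) ∈ A := by exact_mod_cast S3.int_mem_A (A := A) 4
  have n6 : (6 : ℂ) ∈ A := by exact_mod_cast S3.int_mem_A (A := A) 6
  refine Cg.two hA (c := -y * w - 4 * y - 2 * y ^ 2 + 3 * y ^ 3 + y ^ 4 - 6 * x ^ 5 * X2)
    (pow_mem m3 4) ?_ ?_
  · exact sub_mem (add_mem (add_mem (sub_mem (sub_mem (mul_mem (neg_mem m3) m4) (mul_mem n4 m3))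
      (mul_mem two (pow_mem m3 2))) (mul_mem n3 (pow_mem m3 3))) (pow_mem m3 4))
      (mul_mem (mul_mem n6 (pow_mem m1 5)) m2)
  · linear_combination b1 + 3 * x ^ 2 * a1 - (3 * (x ^ 3 + y ^ 2 + y) - 9) * a4

end Val

/-! ### The weights -/

theorem WE_congr (e : Pq → ℤ) {D : Finset Pq} {x y : 𝓞 K} (h : DD D ∣ x - y) :
    WE e D x = WE e D y := by
  rw [WE, WE]
  refine Finset.prod_congr rfl fun q hq => ?_
  rw [qs_congr (p := q) ((Finset.dvd_prod_of_mem (fun q : Pq => q.1) hq).trans h)]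

theorem WE_mul {e : Pq → ℤ} {D : Finset Pq} {u x : 𝓞 K} (hu : ∀ q ∈ D, ¬ q.1 ∣ u) :
    WE (fun q => e q * qs q u) D (u * x) = WE e D x := by
  rw [WE, WE]
  refine Finset.prod_congr rfl fun q hq => ?_
  have h1 : qs q u * qs q u = 1 := by
    rcases qs_one_or (hu q hq) with h | h <;> rw [h] <;> norm_num
  have h2 : e q * qs q u * qs q (u * x) = e q * qs q x := by
    rw [qs_mul]
    linear_combination (e q * qs q x) * h1
  rw [h2]

/-- the weights are `0` or `1` -/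
theorem WE_cases {e : Pq → ℤ} {D : Finset Pq} (he : ∀ q ∈ D, e q = 1 ∨ e q = -1) {x : 𝓞 K}
    (hx : ∀ q ∈ D, ¬ q.1 ∣ x) : WE e D x = 0 ∨ WE e D x = 1 := by
  classical
  rw [WE]
  induction D using Finset.induction_on with
  | empty =>
    rw [Finset.prod_empty]
    exact Or.inr rfl
  | insert q T hq ih =>
    rw [Finset.prod_insert hq]
    have h1 : (((1 + e q * qs q x : ℤ) : ℂ) / 2) = 0 ∨ (((1 + e q * qs q x : ℤ) : ℂ) / 2) = 1 := by
      rcases he q (Finset.mem_insert_self q T) with h | h <;>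
        rcases qs_one_or (hx q (Finset.mem_insert_self q T)) with h' | h' <;> rw [h, h'] <;> norm_num
    rcases h1 with h | h
    · rw [h, zero_mul]
      exact Or.inl rfl
    · rw [h, one_mul]
      exact ih (fun p hp => he p (Finset.mem_insert_of_mem hp))
        (fun p hp => hx p (Finset.mem_insert_of_mem hp))

/-! ### The theorem -/

theorem not_dvd_of_reps {D : Finset Pq} {ι : Type} {v : ι → 𝓞 K} (hv : Reps (6 * DD D) v) (i : ι)
    {q : Pq} (hq : q ∈ D) : ¬ q.1 ∣ v i := by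
  rw [← Pq_coprime]
  refine (hv.cop i).of_isCoprime_of_dvd_right ?_
  exact (Finset.dvd_prod_of_mem (fun q : Pq => q.1) hq).trans (dvd_mul_left _ _)

theorem two_not_dvd (q : Pq) : ¬ q.1 ∣ (-2 : 𝓞 K) := by
  intro h
  obtain ⟨d, hd⟩ : (2 : 𝓞 K) ∣ q.1 - 1 := (dvd_mul_right _ _).trans q.2.2
  have h1 : IsCoprime q.1 (-2 : 𝓞 K) := ⟨1, d, by linear_combination hd⟩
  exact q.2.1.not_isUnit (h1.isUnit_of_dvd' dvd_rfl h)

theorem e2_cases (q : Pq) : e2 q = 1 ∨ e2 q = -1 := qs_one_or (two_not_dvd q)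

/-- the permutation of the classes given by `3 D - 2` -/
theorem exists_perm {D : Finset Pq} {ι : Type} [Finite ι] {v : ι → 𝓞 K} (hv : Reps (6 * DD D) v) :
    ∃ σ : Equiv.Perm ι, ∀ i, WE e2 D (v (σ i)) = WE (fun _ => 1) D (v i) ∧
      em (v (σ i)) / em (3 * DD D) - -2 * (em (v i) / em (3 * DD D)) ∈ PP.lattice := by
  obtain ⟨d, hd⟩ := DD_two D
  have hu : IsCoprime (3 * DD D - 2) (6 * DD D) := by
    have h1 : IsCoprime (3 * DD D - 2) (3 * DD D) := by
      refine ⟨1 + 3 * d, -3 * d, ?_⟩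
      linear_combination 3 * hd
    have h2 : IsCoprime (3 * DD D - 2) (2 : 𝓞 K) := by
      refine ⟨1, -3 * d, ?_⟩
      linear_combination 3 * hd
    have e : (6 * DD D : 𝓞 K) = 2 * (3 * DD D) := by ring
    rw [e]
    exact h2.mul_right h1
  have huf : f0 ∣ 3 * DD D - 2 - 1 := by
    rw [f0]
    refine s3_odd.mul_dvd ?_ ?_
    · refine ⟨3 * d, ?_⟩
      linear_combination 3 * hd
    · have e : (3 * DD D - 2 - 1 : 𝓞 K) = 3 * (DD D - 1) := by ring
      rw [e]
      exact s3_dvd_three.mul_right _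
  obtain ⟨σ, hσ⟩ := hv.perm hu huf
  have h3D : (3 * DD D : 𝓞 K) ≠ 0 := mul_ne_zero (by norm_num) (DD_ne D)
  refine ⟨σ, fun i => ⟨?_, ?_⟩⟩
  · have h1 : DD D ∣ v (σ i) - -2 * v i := by
      have h2 : DD D ∣ (3 * DD D - 2) * v i - v (σ i) := (dvd_mul_left _ _).trans (hσ i)
      have h3 : DD D ∣ DD D * (3 * v i) := dvd_mul_right _ _
      have h4 := dvd_sub h3 h2
      rwa [show DD D * (3 * v i) - ((3 * DD D - 2) * v i - v (σ i)) = v (σ i) - -2 * v i by ring]
        at h4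
    rw [WE_congr e2 h1]
    have h2 := WE_mul (e := fun _ => 1) (D := D) (u := -2) (x := v i) (fun q _ => two_not_dvd q)
    rw [← h2, WE, WE]
    simp only [e2, one_mul]
  · have h1 : (3 * DD D : 𝓞 K) ∣ v (σ i) - -2 * v i := by
      have h2 : (3 * DD D : 𝓞 K) ∣ (3 * DD D - 2) * v i - v (σ i) :=
        Dvd.dvd.trans ⟨2, by ring⟩ (hσ i)
      have h3 : (3 * DD D : 𝓞 K) ∣ 3 * DD D * v i := dvd_mul_right _ _
      have h4 := dvd_sub h3 h2
      rwa [show 3 * DD D * v i - ((3 * DD D - 2) * v i - v (σ i)) = v (σ i) - -2 * v i by ring]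
        at h4
    have h2 := RatA_lat h3D h1
    have e : em (-2 * v i) = -2 * em (v i) := by
      have h5 : (-2 * v i : 𝓞 K) = ((-2 : ℤ) : 𝓞 K) * v i := by push_cast; ring
      rw [h5, Res_em_mul, Res_em_int]
      push_cast
      ring
    rw [e, mul_div_assoc] at h2
    exact h2

/-- **step E6** -/
theorem pntE {A : ValuationSubring ℂ} (hA : Two A) {D : Finset Pq} {ι : Type} [Fintype ι]
    {v : ι → 𝓞 K} (hv : Reps (6 * DD D) v) {P r : ι → ℂ}
    (hP : ∀ i, ∃ n : ℕ, Odd n ∧ (n : ℂ) * P i ∈ PP.lattice)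
    (hP4 : ∀ i, 4 * P i - em (v i) / em (3 * DD D) ∈ PP.lattice)
    (hr : ∀ i, A.valuation (r i ^ 2 - S3.X (P i)) < 1) {κ : F4}
    (hκ : Rs A (∑ i, (WE (fun _ => 1) D (v i) + WE e2 D (v i)) *
      yy (em (v i) / em (6 * DD D) - 1 / 2)) κ) :
    Rs A (∑ i, WE (fun _ => 1) D (v i) * (r i * S3.X (P i) + S3.X (P i) ^ 3)) (F4.cj κ) := by
  classical
  have h3D : (3 * DD D : 𝓞 K) ≠ 0 := mul_ne_zero (by norm_num) (DD_ne D)
  have hO : ∀ i, Od (P i) := hP
  -- the points `v i / (3 D)`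
  have hV : ∀ i, em (v i) / em (3 * DD D) ∉ PP.lattice := by
    intro i h
    have h2 := RatA_dvd h3D h
    apply s3_not_isUnit
    refine (hv.cop i).isUnit_of_dvd' ?_ ?_
    · exact (s3_dvd_three.mul_right _).trans h2
    · refine Dvd.dvd.mul_right ?_ _
      have e : (6 : 𝓞 K) = 3 * 2 := by norm_num
      rw [e]
      exact s3_dvd_three.mul_right _
  have hP0 : ∀ i, P i ∉ PP.lattice := by
    intro i h
    apply hV i
    have h1 := sub_mem (S3.mul_int_mem h 4) (hP4 i)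
    rwa [show ((4 : ℤ) : ℂ) * P i - (4 * P i - em (v i) / em (3 * DD D)) =
      em (v i) / em (3 * DD D) by push_cast; ring] at h1
  have hVO : ∀ i, Od (em (v i) / em (3 * DD D)) := by
    intro i
    have h1 : Od (4 * P i) := by exact_mod_cast (hO i).mul_int 4
    refine h1.congr ?_
    have := neg_mem (hP4 i)
    rwa [neg_sub] at this
  -- the points `v i / (6 D) - 1 / 2`
  have e6 : em (6 * DD D) = 2 * em (3 * DD D) := by
    have e : (6 * DD D : 𝓞 K) = ((2 : ℕ) : 𝓞 K) * (3 * DD D) := by push_cast; ring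
    rw [e, RatA_mul, RatA_ofNat]
    norm_num
  have h3D' := RatA_ne h3D
  have hQ0 : ∀ i, em (v i) / em (6 * DD D) - 1 / 2 ∉ PP.lattice := fun i h =>
    RatA_notMem (hv.cop i) (by exact_mod_cast S3.mul_int_mem h 2)
  have hQO : ∀ i, Od (em (v i) / em (6 * DD D) - 1 / 2) := by
    intro i
    obtain ⟨k, hk⟩ : (2 : 𝓞 K) ∣ v i - 1 := (dvd_mul_right _ _).trans (hv.fx i)
    obtain ⟨l, hl⟩ := DD_two D
    have hm : IsCoprime (3 * DD D : 𝓞 K) 2 := by
      refine IsCoprime.mul_left ⟨1, -1, by norm_num⟩ ⟨1, -l, by linear_combination hl⟩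
    obtain ⟨n, hn, hnz⟩ := Half_odd hm (z := em (v i) / em (6 * DD D) - 1 / 2) ⟨k - 3 * l - 1, by
      have e1 : v i = 3 * DD D + ((2 : ℕ) : 𝓞 K) * (k - 3 * l - 1) := by
        push_cast
        linear_combination hk - 3 * hl
      have e2 : em (v i) = em (3 * DD D) + 2 * em (k - 3 * l - 1) := by
        conv_lhs => rw [e1]
        rw [RatA_add, RatA_mul ((2 : ℕ) : 𝓞 K), RatA_ofNat]
        norm_num
      rw [e6, e2]
      field_simp
      ring⟩
    exact ⟨n, hn, hnz⟩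
  -- integrality
  have w1 : ∀ i, WE (fun _ => 1) D (v i) = 0 ∨ WE (fun _ => 1) D (v i) = 1 := fun i =>
    WE_cases (fun _ _ => Or.inl rfl) fun q hq => not_dvd_of_reps hv i hq
  have w2 : ∀ i, WE e2 D (v i) = 0 ∨ WE e2 D (v i) = 1 := fun i =>
    WE_cases (fun q _ => e2_cases q) fun q hq => not_dvd_of_reps hv i hq
  have w1m : ∀ i, WE (fun _ => 1) D (v i) ∈ A := fun i => by
    rcases w1 i with h | h <;> rw [h]
    · exact zero_mem A
    · exact one_mem A
  have w2m : ∀ i, WE e2 D (v i) ∈ A := fun i => by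
    rcases w2 i with h | h <;> rw [h]
    · exact zero_mem A
    · exact one_mem A
  have xm : ∀ i, S3.X (P i) ∈ A := fun i => X_mem hA (hO i) (hP0 i)
  have ym : ∀ i, yy (P i) ∈ A := fun i => yy_mem hA (hO i) (hP0 i)
  have vm : ∀ i, yy (em (v i) / em (3 * DD D)) ∈ A := fun i => yy_mem hA (hVO i) (hV i)
  have qm : ∀ i, yy (em (v i) / em (6 * DD D) - 1 / 2) ∈ A := fun i => yy_mem hA (hQO i) (hQ0 i)
  have rc : ∀ i, Cg A (r i ^ 2) (S3.X (P i)) := by
    intro i
    have h1 : r i ^ 2 ∈ A := by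
      rw [← A.valuation_le_one_iff, show r i ^ 2 = (r i ^ 2 - S3.X (P i)) + S3.X (P i) by ring]
      exact A.valuation.map_add_le (hr i).le (vle (xm i))
    exact ⟨h1, xm i, hr i⟩
  have rm : ∀ i, r i ∈ A := by
    intro i
    rw [← A.valuation_le_one_iff]
    by_contra h
    push Not at h
    have h1 := vle (rc i).1
    rw [map_pow] at h1
    exact absurd (one_lt_pow₀ h two_ne_zero) (not_lt.2 h1)
  -- abbreviations
  obtain ⟨σ, hσ⟩ := exists_perm hv
  have hsum : ∑ i, WE (fun _ => 1) D (v i) = ∑ i, WE e2 D (v i) := by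
    rw [← Equiv.sum_comp σ (fun i => WE e2 D (v i))]
    exact Finset.sum_congr rfl fun i _ => (hσ i).1.symm
  -- the square of the left side
  have s1 : Cg A ((∑ i, WE (fun _ => 1) D (v i) * (r i * S3.X (P i) + S3.X (P i) ^ 3)) ^ 2)
      (∑ i, WE (fun _ => 1) D (v i) * (yy (P i) + yy (P i) ^ 4)) := by
    refine (Cg.sq_sum hA _ fun i _ => mul_mem (w1m i) (add_mem (mul_mem (rm i) (xm i))
      (pow_mem (xm i) 3))).trans (Cg.sum _ fun i _ => ?_)
    have h1 : WE (fun _ => 1) D (v i) ^ 2 = WE (fun _ => 1) D (v i) := by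
      rcases w1 i with h | h <;> rw [h] <;> norm_num
    rw [mul_pow, h1]
    refine (Cg.refl (w1m i)).mul ?_
    have h2 : Cg A ((r i * S3.X (P i) + S3.X (P i) ^ 3) ^ 2)
        (r i ^ 2 * S3.X (P i) ^ 2 + S3.X (P i) ^ 6) := by
      refine (Cg.two hA (c := r i * S3.X (P i) * S3.X (P i) ^ 3) (add_mem (mul_mem (rc i).1
        (pow_mem (xm i) 2)) (pow_mem (xm i) 6)) (mul_mem (mul_mem (rm i) (xm i))
        (pow_mem (xm i) 3)) ?_).symm
      ring
    refine h2.trans ((((rc i).mul (Cg.refl (pow_mem (xm i) 2))).add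
      (Cg.refl (pow_mem (xm i) 6))).trans ?_)
    refine (Cg.two hA (c := yy (P i) ^ 2 + yy (P i) ^ 3) (add_mem (ym i) (pow_mem (ym i) 4))
      (add_mem (pow_mem (ym i) 2) (pow_mem (ym i) 3)) ?_).symm
    have h3 := yy_eq (hP0 i)
    linear_combination (-1 - S3.X (P i) ^ 3 - (yy (P i) ^ 2 + yy (P i))) * h3
  -- the fourth powers
  have f1 : ∀ i, Cg A (yy (P i) ^ 16) (yy (em (v i) / em (3 * DD D))) := by
    intro i
    have h1 := (frob hA (hO i) (hP0 i)).pow 4
    have o2 : Od (-2 * P i) := by exact_mod_cast (hO i).mul_int (-2)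
    have n2 : -2 * P i ∉ PP.lattice := by
      intro h
      apply (hO i).two_notMem (hP0 i)
      have := neg_mem h
      rwa [show -(-2 * P i) = 2 * P i by ring] at this
    have h2 := frob hA o2 n2
    have e1 : yy (-2 * (-2 * P i)) = yy (em (v i) / em (3 * DD D)) := by
      apply yy_congr
      rw [show -2 * (-2 * P i) = 4 * P i by ring]
      exact hP4 i
    rw [e1] at h2
    have h3 := h1.trans h2
    rwa [← pow_mul] at h3
  have f2 : ∀ i, Cg A (yy (P i) ^ 64) (yy (em (v (σ i)) / em (3 * DD D))) := by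
    intro i
    have h1 := (f1 i).pow 4
    have h2 := frob hA (hVO i) (hV i)
    have e1 : yy (-2 * (em (v i) / em (3 * DD D))) = yy (em (v (σ i)) / em (3 * DD D)) :=
      (yy_congr (hσ i).2).symm
    rw [e1] at h2
    have h3 := h1.trans h2
    rwa [← pow_mul] at h3
  have f3 : ∀ i, Cg A (yy (em (v i) / em (3 * DD D)))
      (1 + yy (em (v i) / em (6 * DD D) - 1 / 2) ^ 4) := by
    intro i
    have h2 := frob hA (hQO i) (hQ0 i)
    have e1 : yy (-2 * (em (v i) / em (6 * DD D) - 1 / 2)) = -1 - yy (em (v i) / em (3 * DD D)) := by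
      rw [← yy_neg]
      apply yy_congr
      have e : -2 * (em (v i) / em (6 * DD D) - 1 / 2) - -(em (v i) / em (3 * DD D)) = 1 := by
        rw [e6]
        field_simp
        ring
      rw [e]
      exact S3.one_mem
    rw [e1] at h2
    refine Cg.trans ?_ ((Cg.refl (one_mem A)).add h2.symm)
    refine Cg.two hA (c := -yy (em (v i) / em (3 * DD D))) (vm i) (neg_mem (vm i)) ?_
    ring
  -- the 32nd power
  have p4 : ∀ T : Finset ι, ∀ a : ι → ℂ, (∀ i ∈ T, a i ∈ A) →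
      Cg A ((∑ i ∈ T, a i) ^ 4) (∑ i ∈ T, a i ^ 4) := by
    intro T a ha
    have h1 := (Cg.sq_sum hA T ha).pow 2
    have h2 := Cg.sq_sum hA T (a := fun i => a i ^ 2) fun i hi => pow_mem (ha i hi) 2
    have h3 := h1.trans h2
    rw [← pow_mul] at h3
    simpa only [← pow_mul] using h3
  have s2 : Cg A ((∑ i, WE (fun _ => 1) D (v i) * (yy (P i) + yy (P i) ^ 4)) ^ 16)
      (∑ i, WE (fun _ => 1) D (v i) * (yy (P i) ^ 16 + yy (P i) ^ 64)) := by
    have a1 : ∀ i ∈ Finset.univ, WE (fun _ => 1) D (v i) * (yy (P i) + yy (P i) ^ 4) ∈ A :=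
      fun i _ => mul_mem (w1m i) (add_mem (ym i) (pow_mem (ym i) 4))
    have h1 := (p4 _ _ a1).pow 4
    have h2 := p4 Finset.univ (fun i => (WE (fun _ => 1) D (v i) * (yy (P i) + yy (P i) ^ 4)) ^ 4)
      fun i hi => pow_mem (a1 i hi) 4
    have h3 := h1.trans h2
    rw [← pow_mul] at h3
    refine h3.trans (Cg.sum _ fun i _ => ?_)
    have h4 : WE (fun _ => 1) D (v i) ^ 16 = WE (fun _ => 1) D (v i) := by
      rcases w1 i with h | h <;> rw [h] <;> norm_num
    rw [← pow_mul, mul_pow, h4]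
    refine (Cg.refl (w1m i)).mul ?_
    have b1 : ∀ a b : ℂ, a ∈ A → b ∈ A → Cg A ((a + b) ^ 2) (a ^ 2 + b ^ 2) := fun a b ha hb =>
      (Cg.two hA (c := a * b) (add_mem (pow_mem ha 2) (pow_mem hb 2)) (mul_mem ha hb)
        (by ring)).symm
    have b2 : ∀ a b : ℂ, a ∈ A → b ∈ A → Cg A ((a + b) ^ 4) (a ^ 4 + b ^ 4) := by
      intro a b ha hb
      have h5 := ((b1 a b ha hb).pow 2).trans (b1 _ _ (pow_mem ha 2) (pow_mem hb 2))
      rwa [← pow_mul, ← pow_mul, ← pow_mul] at h5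
    have h5 := ((b2 _ _ (ym i) (pow_mem (ym i) 4)).pow 4).trans
      (b2 _ _ (pow_mem (ym i) 4) (pow_mem (pow_mem (ym i) 4) 4))
    rwa [← pow_mul, ← pow_mul, ← pow_mul] at h5
  have s3 : Cg A (∑ i, WE (fun _ => 1) D (v i) * (yy (P i) ^ 16 + yy (P i) ^ 64))
      (∑ i, (WE (fun _ => 1) D (v i) + WE e2 D (v i)) * yy (em (v i) / em (3 * DD D))) := by
    have h1 : ∑ i, (WE (fun _ => 1) D (v i) + WE e2 D (v i)) * yy (em (v i) / em (3 * DD D)) =
        ∑ i, WE (fun _ => 1) D (v i) * (yy (em (v i) / em (3 * DD D)) +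
          yy (em (v (σ i)) / em (3 * DD D))) := by
      simp only [add_mul, mul_add, Finset.sum_add_distrib]
      congr 1
      rw [← Equiv.sum_comp σ]
      exact Finset.sum_congr rfl fun i _ => by rw [(hσ i).1]
    rw [h1]
    exact Cg.sum _ fun i _ => (Cg.refl (w1m i)).mul ((f1 i).add (f2 i))
  have s4 : Cg A (∑ i, (WE (fun _ => 1) D (v i) + WE e2 D (v i)) * yy (em (v i) / em (3 * DD D)))
      (∑ i, (WE (fun _ => 1) D (v i) + WE e2 D (v i)) *
        yy (em (v i) / em (6 * DD D) - 1 / 2) ^ 4) := by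
    have h1 := Cg.sum Finset.univ fun i _ =>
      (Cg.refl (add_mem (w1m i) (w2m i))).mul (f3 i)
    refine h1.trans ?_
    refine (Cg.two hA (c := ∑ i, WE (fun _ => 1) D (v i))
      (sum_mem fun i _ => mul_mem (add_mem (w1m i) (w2m i)) (pow_mem (qm i) 4))
      (sum_mem fun i _ => w1m i) ?_).symm
    have h2 : ∑ i, (WE (fun _ => 1) D (v i) + WE e2 D (v i)) *
        (1 + yy (em (v i) / em (6 * DD D) - 1 / 2) ^ 4) =
        (∑ i, WE (fun _ => 1) D (v i) + ∑ i, WE e2 D (v i)) +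
        ∑ i, (WE (fun _ => 1) D (v i) + WE e2 D (v i)) *
          yy (em (v i) / em (6 * DD D) - 1 / 2) ^ 4 := by
      simp only [mul_add, mul_one, Finset.sum_add_distrib]
    rw [h2, ← hsum]
    ring
  have s5 : Cg A ((∑ i, (WE (fun _ => 1) D (v i) + WE e2 D (v i)) *
        yy (em (v i) / em (6 * DD D) - 1 / 2)) ^ 4)
      (∑ i, (WE (fun _ => 1) D (v i) + WE e2 D (v i)) *
        yy (em (v i) / em (6 * DD D) - 1 / 2) ^ 4) := by
    refine (p4 _ _ fun i _ => mul_mem (add_mem (w1m i) (w2m i)) (qm i)).trans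
      (Cg.sum _ fun i _ => ?_)
    rw [mul_pow]
    refine Cg.mul ?_ (Cg.refl (pow_mem (qm i) 4))
    rcases w1 i with h | h <;> rcases w2 i with h' | h' <;> rw [h, h']
    · norm_num
      exact Cg.refl (zero_mem A)
    · norm_num
      exact Cg.refl (one_mem A)
    · norm_num
      exact Cg.refl (one_mem A)
    · refine Cg.two hA (c := -7) ?_ ?_ (by norm_num)
      · exact_mod_cast S3.int_mem_A (A := A) 16
      · exact_mod_cast S3.int_mem_A (A := A) (-7)
  -- the conclusion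
  obtain ⟨x, rfl⟩ : ∃ x : 𝓞 K, red x = κ := by
    obtain ⟨x, hx, -⟩ := hκ
    exact ⟨x, hx⟩
  have hκ' := Cg.of_rs hκ hA
  have g1 : Cg A ((∑ i, WE (fun _ => 1) D (v i) * (r i * S3.X (P i) + S3.X (P i) ^ 3)) ^ 32)
      (em x ^ 4) := by
    have h1 := s1.pow 16
    rw [← pow_mul] at h1
    exact h1.trans (s2.trans (s3.trans (s4.trans (s5.symm.trans (hκ'.pow 4)))))
  have hem : em x ∈ A := (A.valuation_le_one_iff _).1 (em_le x)
  have e64 : ∀ n : ℕ, Cg A (em x ^ (4 ^ n)) (em x) := by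
    have h1 : Cg A (em x ^ 4) (em x) := by
      have h2 : Rs A (em (x ^ 4)) (red x) := by
        have h3 : red (x ^ 4) = red x := by
          have h4 : ∀ y : F4, y ^ 4 = y := by decide
          rw [map_pow, h4]
        rw [← h3]
        exact Rs.of _
      have h3 := Cg.of_rs h2 hA
      have e : em (x ^ 4) = em x ^ 4 := by
        rw [pow_succ, pow_succ, pow_two, Res_em_mul, Res_em_mul, Res_em_mul]
        ring
      rwa [e] at h3
    intro n
    induction n with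
    | zero =>
      rw [pow_zero, pow_one]
      exact Cg.refl hem
    | succ n ih =>
      have h2 := (ih.pow 4).trans h1
      rwa [← pow_mul, ← pow_succ] at h2
  have hcj : F4.cj (red x) = red (x ^ 2) := by
    have h4 : ∀ y : F4, F4.cj y = y ^ 2 := by decide
    rw [map_pow, h4]
  have e2x : em (x ^ 2) = em x ^ 2 := by
    rw [pow_two, Res_em_mul]
    ring
  rw [hcj]
  apply Cg.rs
  rw [e2x]
  refine Cg.of_sq_iter hA ?_ (pow_mem hem 2) 5 ?_
  · exact sum_mem fun i _ => mul_mem (w1m i) (add_mem (mul_mem (rm i) (xm i)) (pow_mem (xm i) 3))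
  · have h1 := (e64 3).symm
    have h2 := (e64 1)
    norm_num at h1 h2
    norm_num
    rw [← pow_mul]
    exact g1.trans (h2.trans h1)

end

end Pool.Agent.Lib.MP_1a91b9_ntE
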