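import Pool.Agent.Lib.MP_1a91b9_ntH.A.Prim
import Pool.Agent.Lib.MP_1a91b9_ntE.A.EulE

/-!
# TwistDensity, even case, part A, file PrimE: the primitive L-series of the twist by `2 dlc c S` (the
Euler factor at `√-3`)
-/

set_option autoImplicit false

namespace Pool.Agent.Lib.MP_1a91b9_ntE

open NumberField IsDedekindDomain Pool.Agent.Lib.MP_1a91b9_ntT Pool.Agent.Lib.MP_1a91b9_ntG
  Pool.Agent.Lib.MP_1a91b9_ntH Pool.Agent.Lib.MP_1a91b9_ntH2
open Pool.Agent.Lib.MP_1a91b9_ntT.S4 (Lf)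

noncomputable section

/-- the primitive Hecke character in the case `√-3 ∣ dlc c S` -/
def PrimQ (c : F4) (S : Finset Pq) (I : Ideal (𝓞 K)) : ℂ :=
  (starRingEnd ℂ) (em (PrimGen I)) * (chie c S (PrimGen I) : ℂ)

theorem PrimQ_span {c : F4} {S : Finset Pq} (h : (qd.A S + c).b ≠ 0) {a : 𝓞 K}
    (ha : (2 : 𝓞 K) ∣ a - 1) :
    PrimQ c S (Ideal.span {a}) = (starRingEnd ℂ) (em a) * (chie c S a : ℂ) := by
  rw [PrimQ]
  rcases PrimGen_span ha with h1 | h1
  · rw [h1]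
  · rw [h1, Prim_em_neg, SumE_chie_neg h ha, map_neg]
    push_cast
    ring

theorem PrimQ_zero {c : F4} {S : Finset Pq} {I : Ideal (𝓞 K)}
    (h : ¬ ∃ a : 𝓞 K, (2 : 𝓞 K) ∣ a - 1 ∧ Ideal.span {a} = I) : PrimQ c S I = 0 := by
  rw [PrimQ, PrimGen_neg h, Prim_em_zero, map_zero, zero_mul]

theorem PrimQ_one {c : F4} {S : Finset Pq} (h : (qd.A S + c).b ≠ 0) : PrimQ c S 1 = 1 := by
  have h1 := PrimQ_span h (a := 1) (by simp)
  rw [Ideal.span_singleton_one, ← Ideal.one_eq_top] at h1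
  rw [h1, Prim_em_one, SumE_chie_one]
  simp

theorem PrimQ_mul {c : F4} {S : Finset Pq} (h : (qd.A S + c).b ≠ 0) (I J : Ideal (𝓞 K)) :
    PrimQ c S (I * J) = PrimQ c S I * PrimQ c S J := by
  by_cases hI : ∃ a : 𝓞 K, (2 : 𝓞 K) ∣ a - 1 ∧ Ideal.span {a} = I
  · by_cases hJ : ∃ a : 𝓞 K, (2 : 𝓞 K) ∣ a - 1 ∧ Ideal.span {a} = J
    · obtain ⟨a, ha, rfl⟩ := hI
      obtain ⟨b, hb, rfl⟩ := hJ
      rw [Ideal.span_singleton_mul_span_singleton, PrimQ_span h ha, PrimQ_span h hb, PrimQ_span h,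
        Prim_em_mul, SumE_chie_mul ha hb, map_mul]
      · push_cast
        ring
      · have e : a * b - 1 = (a - 1) * b + (b - 1) := by ring
        rw [e]
        exact dvd_add (ha.mul_right _) hb
    · rw [PrimQ_zero hJ, mul_zero, PrimQ_zero]
      intro hc
      exact hJ (PrimGen_exists (IsCoprime.of_mul_left_right (PrimGen_coprime hc)))
  · rw [PrimQ_zero hI, zero_mul, PrimQ_zero]
    intro hc
    exact hI (PrimGen_exists (IsCoprime.of_mul_left_left (PrimGen_coprime hc)))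

theorem PrimQ_le {c : F4} {S : Finset Pq} (h : (qd.A S + c).b ≠ 0) (I : Ideal (𝓞 K)) :
    ‖PrimQ c S I‖ ≤ (Ideal.absNorm I : ℝ) ^ (1 / 2 : ℝ) := by
  by_cases hI : ∃ a : 𝓞 K, (2 : 𝓞 K) ∣ a - 1 ∧ Ideal.span {a} = I
  · obtain ⟨a, ha, rfl⟩ := hI
    rw [PrimQ_span h ha, norm_mul, RCLike.norm_conj, Sum_absNorm, ← Real.sqrt_eq_rpow,
      Real.sqrt_sq (norm_nonneg _)]
    calc ‖em a‖ * ‖(chie c S a : ℂ)‖ ≤ ‖em a‖ * 1 :=
          mul_le_mul_of_nonneg_left (SumE_norm_chie c S a) (norm_nonneg _)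
      _ = _ := mul_one _
  · rw [PrimQ_zero hI, norm_zero]
    positivity

theorem PrimQ_place {c : F4} {S : Finset Pq} (h : (qd.A S + c).b ≠ 0)
    (v : HeightOneSpectrum (𝓞 K)) (hv : v ≠ p3) : PrimQ c S v.asIdeal = pXe c S v.asIdeal := by
  rcases Eul_place v with h1 | ⟨q, rfl⟩
  · rw [pXe_bad c S v h1]
    apply PrimQ_zero
    rintro ⟨a, ⟨d, hd⟩, h2⟩
    rcases v.isPrime.mem_or_mem h1 with h3 | h3
    · apply v.isPrime.ne_top
      rw [Ideal.eq_top_iff_one]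
      have h4 : a ∈ v.asIdeal := by
        rw [← h2]
        exact Ideal.mem_span_singleton_self a
      have e : (1 : 𝓞 K) = a - d * 2 := by linear_combination -hd
      rw [e]
      exact Ideal.sub_mem _ h4 (Ideal.mul_mem_left _ _ h3)
    · exact hv (eq_p3 v h3)
  · rw [pXe_plc]
    exact PrimQ_span h (SumC_two_of_f0 (f0_dvd q))

theorem PrimQ_p3 {c : F4} {S : Finset Pq} (h : (qd.A S + c).b ≠ 0) :
    (PrimQ c S p3.asIdeal) ^ 2 = -3 := by
  have h1 : PrimQ c S p3.asIdeal =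
      (starRingEnd ℂ) (em s3) * (chie c S s3 : ℂ) := PrimQ_span h Prim_s3_two
  rw [h1, mul_pow, ← map_pow, Prim_em_s3_sq]
  have h2 : chie c S s3 ≠ 0 := by
    intro h0
    obtain ⟨q, -, hd⟩ := SumE_chie_eq_zero.1 h0
    apply six_notMem q
    rw [mem_plc, six_eq]
    exact (hd.mul_left _).neg_right
  have h3 : ((chie c S s3 : ℤ) : ℂ) ^ 2 = 1 := by
    rcases SumE_chie_cases c S s3 with h4 | h4 | h4
    · exact absurd h4 h2
    · rw [h4]; norm_num
    · rw [h4]; norm_num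
  rw [h3, mul_one, map_neg, map_ofNat (starRingEnd ℂ) 3]

open Classical in
/-- `chie c S` restricted to the elements congruent to `1` modulo `2` -/
def PrimXe (c : F4) (S : Finset Pq) (a : 𝓞 K) : ℂ :=
  if (2 : 𝓞 K) ∣ a - 1 then (chie c S a : ℂ) else 0

theorem PrimXe_pos {c : F4} {S : Finset Pq} {a : 𝓞 K} (h : (2 : 𝓞 K) ∣ a - 1) :
    PrimXe c S a = (chie c S a : ℂ) := by
  unfold PrimXe
  exact if_pos h

theorem PrimXe_neg {c : F4} {S : Finset Pq} {a : 𝓞 K} (h : ¬ (2 : 𝓞 K) ∣ a - 1) :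
    PrimXe c S a = 0 := by
  unfold PrimXe
  exact if_neg h

theorem PrimXe_odd {c : F4} {S : Finset Pq} (h : (qd.A S + c).b ≠ 0) (a : 𝓞 K) :
    PrimXe c S (-a) = -PrimXe c S a := by
  by_cases ha : (2 : 𝓞 K) ∣ a - 1
  · rw [PrimXe_pos ha, PrimXe_pos (Prim_two_neg.2 ha), SumE_chie_neg h ha]
    push_cast
    ring
  · rw [PrimXe_neg ha, PrimXe_neg (fun hc => ha (Prim_two_neg.1 hc)), neg_zero]

theorem PrimQ_Lf {c : F4} {S : Finset Pq} (h : (qd.A S + c).b ≠ 0) {s : ℂ} (hs : 2 < s.re) :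
    2 * Lf (PrimQ c S) s = ∑' a, PrimXe c S a * PrimT s a := by
  classical
  have hsum : Summable fun a => PrimXe c S a * PrimT s a := by
    refine Summable.of_norm_bounded (PrimT_summable hs).norm fun a => ?_
    rw [norm_mul]
    have h1 : ‖PrimXe c S a‖ ≤ 1 := by
      by_cases ha : (2 : 𝓞 K) ∣ a - 1
      · rw [PrimXe_pos ha]
        exact SumE_norm_chie c S a
      · rw [PrimXe_neg ha, norm_zero]
        exact zero_le_one
    calc ‖PrimXe c S a‖ * ‖PrimT s a‖ ≤ 1 * ‖PrimT s a‖ :=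
          mul_le_mul_of_nonneg_right h1 (norm_nonneg _)
      _ = _ := one_mul _
  let F : 𝓞 K → ℂ := fun a =>
    if PrimGen (Ideal.span {a}) = a then PrimXe c S a * PrimT s a else 0
  have hF : Summable F := by
    refine Summable.of_norm_bounded hsum.norm fun a => ?_
    by_cases ha : PrimGen (Ideal.span {a}) = a
    · simp only [F, if_pos ha]
      exact le_rfl
    · simp only [F, if_neg ha, norm_zero]
      exact norm_nonneg _
  have h1 : Lf (PrimQ c S) s = ∑' a, F a := by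
    unfold S4.Lf
    refine Sum_gen PrimGen ?_ ?_ ?_
    · intro I hI
      by_cases hc : ∃ a : 𝓞 K, (2 : 𝓞 K) ∣ a - 1 ∧ Ideal.span {a} = I
      · exact (PrimGen_spec hc).2
      · exact absurd (by rw [PrimQ_zero hc, zero_mul]) hI
    · intro a ha
      by_contra hc
      exact ha (if_neg hc)
    · intro a ha
      have e : F a = PrimXe c S a * PrimT s a := if_pos ha
      rw [e]
      by_cases h2 : (2 : 𝓞 K) ∣ a - 1
      · rw [PrimXe_pos h2, PrimQ_span h h2, PrimT, Sum_norm]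
        ring
      · rw [PrimXe_neg h2, zero_mul]
        by_cases hc : ∃ b : 𝓞 K, (2 : 𝓞 K) ∣ b - 1 ∧ Ideal.span {b} = Ideal.span {a}
        · have h3 := (PrimGen_spec hc).1
          rw [ha] at h3
          exact absurd h3 h2
        · rw [PrimQ_zero hc, zero_mul]
  have h2 : ∀ a, PrimXe c S a * PrimT s a = F a + F (-a) := by
    intro a
    have e : Ideal.span {-a} = Ideal.span {a} := by
      rw [Ideal.span_singleton_neg]
    by_cases ha : (2 : 𝓞 K) ∣ a - 1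
    · have ha0 : a ≠ 0 := by
        rintro rfl
        exact Prim_not_two_zero ha
      have hna : -a ≠ a := by
        intro h3
        apply ha0
        have h4 : (2 : 𝓞 K) * a = 0 := by linear_combination -h3
        exact (mul_eq_zero.1 h4).resolve_left two_ne_zero
      rcases PrimGen_span ha with h3 | h3
      · have e1 : F a = PrimXe c S a * PrimT s a := if_pos h3
        have e2 : F (-a) = 0 := by
          refine if_neg ?_
          rw [e, h3]
          exact hna.symm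
        rw [e1, e2, add_zero]
      · have e1 : F (-a) = PrimXe c S (-a) * PrimT s (-a) := if_pos (by rw [e, h3])
        have e2 : F a = 0 := by
          refine if_neg ?_
          rw [h3]
          exact hna
        rw [e1, e2, zero_add, PrimXe_odd h, PrimT_neg]
        ring
    · have e1 : F a = 0 := by
        simp only [F]
        rw [PrimXe_neg ha, zero_mul, ite_self]
      have e2 : F (-a) = 0 := by
        simp only [F]
        rw [PrimXe_neg (fun hc => ha (Prim_two_neg.1 hc)), zero_mul, ite_self]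
      rw [e1, e2, PrimXe_neg ha]
      ring
  have h3 : Summable fun a => F (-a) := (Equiv.neg (𝓞 K)).summable_iff.2 hF
  have h4 : ∑' a, F (-a) = ∑' a, F a := (Equiv.neg (𝓞 K)).tsum_eq F
  rw [h1, tsum_congr h2, hF.tsum_add h3, h4]
  ring

theorem PrimQ_exists {c : F4} {S : Finset Pq} (h : (qd.A S + c).b ≠ 0) :
    ∃ L : ℂ → ℂ, Differentiable ℂ L ∧ ∀ s : ℂ, 2 < s.re → L s = Lf (PrimQ c S) s := by
  have h3 : (3 : 𝓞 K) ∣ 24 * DD S :=
    (show (3 : 𝓞 K) ∣ 24 from ⟨8, by norm_num⟩).trans (dvd_mul_right _ _)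
  have h4 : (8 : 𝓞 K) ∣ 24 * DD S :=
    (show (8 : 𝓞 K) ∣ 24 from ⟨3, by norm_num⟩).trans (dvd_mul_right _ _)
  have h2 : (2 : 𝓞 K) ∣ 24 * DD S := (show (2 : 𝓞 K) ∣ 8 from ⟨4, by norm_num⟩).trans h4
  have h0 : 24 * DD S ≠ 0 := mul_ne_zero (by norm_num) (DD_ne S)
  obtain ⟨A, hA, hA1⟩ := Prim_exists_cont h0 h3 (PrimXe c S) (fun a b hab => by
    by_cases hb : (2 : 𝓞 K) ∣ b - 1
    · have ha : (2 : 𝓞 K) ∣ a - 1 := by
        have e : a - 1 = (a - b) + (b - 1) := by ring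
        rw [e]
        exact dvd_add (h2.trans hab) hb
      rw [PrimXe_pos ha, PrimXe_pos hb,
        SumE_chie_congr ha (h4.trans hab) ((dvd_mul_left _ _).trans hab)]
    · have ha : ¬ (2 : 𝓞 K) ∣ a - 1 := by
        intro ha
        apply hb
        have e : b - 1 = (a - 1) - (a - b) := by ring
        rw [e]
        exact dvd_sub ha (h2.trans hab)
      rw [PrimXe_neg ha, PrimXe_neg hb]) (PrimXe_neg Prim_not_two_zero)
  refine ⟨fun s => 1 / 2 * A s, (differentiable_const _).mul hA, fun s hs => ?_⟩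
  change 1 / 2 * A s = _
  rw [hA1 s hs, ← PrimQ_Lf h hs]
  ring

/-- the primitive Hecke character in the case `√-3 ∣ dlc c S` -/
theorem exists_prime {c : F4} {S : Finset Pq} (h : (qd.A S + c).b ≠ 0) :
    ∃ p : Ideal (𝓞 K) → ℂ,
    p 1 = 1 ∧ (∀ I J, p (I * J) = p I * p J) ∧
    (∀ I, ‖p I‖ ≤ (Ideal.absNorm I : ℝ) ^ (1 / 2 : ℝ)) ∧
    (∀ v : HeightOneSpectrum (𝓞 K), v ≠ p3 → p v.asIdeal = pXe c S v.asIdeal) ∧
    (p p3.asIdeal) ^ 2 = -3 ∧
    ∃ L : ℂ → ℂ, Differentiable ℂ L ∧ ∀ s : ℂ, 2 < s.re → L s = Lf p s :=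
  ⟨PrimQ c S, PrimQ_one h, PrimQ_mul h, PrimQ_le h, PrimQ_place h, PrimQ_p3 h, PrimQ_exists h⟩

/-- the primitive L-series in all cases -/
theorem exists_fulle (c : F4) (S : Finset Pq) : ∃ (p : Ideal (𝓞 K) → ℂ) (L : ℂ → ℂ),
    p 1 = 1 ∧ (∀ I J, p (I * J) = p I * p J) ∧
    (∀ I, ‖p I‖ ≤ (Ideal.absNorm I : ℝ) ^ (1 / 2 : ℝ)) ∧
    (∀ v : HeightOneSpectrum (𝓞 K), v ≠ p3 → p v.asIdeal = pXe c S v.asIdeal) ∧
    ((qd.A S + c).b = 0 → p p3.asIdeal = 0) ∧ ((qd.A S + c).b ≠ 0 → (p p3.asIdeal) ^ 2 = -3) ∧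
    Differentiable ℂ L ∧ (∀ s : ℂ, 2 < s.re → L s = Lf p s) ∧
    L 1 * (1 - p p3.asIdeal / 3) = LSe c S 1 := by
  by_cases h : (qd.A S + c).b = 0
  · refine ⟨pXe c S, LSe c S, pXe_one c S, pXe_mul c S, pXe_le c S, fun v _ => rfl,
      fun _ => pXe_bad c S p3 Prim_f0_mem, fun h1 => absurd h h1, LSe_diff c S, LSe_eq c S, ?_⟩
    rw [pXe_bad c S p3 Prim_f0_mem]
    ring
  · obtain ⟨p, h1, h2, h3, h4, h5, L, h6, h7⟩ := exists_prime h
    refine ⟨p, L, h1, h2, h3, h4, fun h8 => absurd h8 h, fun _ => h5, h6, h7, ?_⟩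
    have e : LSe c S = fun s => L s * ∏ v ∈ ({p3} : Finset (HeightOneSpectrum (𝓞 K))),
        (1 - p v.asIdeal * (Ideal.absNorm v.asIdeal : ℂ) ^ (-s)) := by
      refine S4.entire_eq (LSe_diff c S) (h6.mul (Eul_diff _ _)) fun s hs => ?_
      have h8 := S4.compare_Lf p (pXe c S) h1 h2 h3 (pXe_one c S) (pXe_mul c S) (pXe_le c S) {p3}
        (fun v hv => h4 v (fun hc => hv (Finset.mem_singleton.2 hc))) s hs
      rw [h7 s hs, LSe_eq c S s hs, h8, Finset.prod_singleton, pXe_bad c S p3 Prim_f0_mem]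
      ring
    rw [e]
    change _ = L 1 * ∏ v ∈ ({p3} : Finset (HeightOneSpectrum (𝓞 K))),
        (1 - p v.asIdeal * (Ideal.absNorm v.asIdeal : ℂ) ^ (-(1 : ℂ)))
    rw [Finset.prod_singleton, norm_p3, Complex.cpow_neg_one]
    push_cast
    ring

end

end Pool.Agent.Lib.MP_1a91b9_ntE
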