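import Pool.Agent.Lib.MP_1a91b9_ntK.A.Rat3G
import Pool.Agent.Lib.MP_1a91b9_ntE.A.PhiE
import Pool.Agent.Lib.MP_1a91b9_ntH2.A.RatDc
import Pool.Agent.Lib.MP_1a91b9_ntH2.A.RatS

/-!
# MP_1a91b9_nt (TwistDensity), phase E, part A, file RatE: the rationality of the L-quotient

`ActE τ i χ M`: the action of an automorphism on the `M`-torsion is `χ / zt ^ i` with `χ = 1` modulo
`2 √-3`. The value of `PhE c` at a point of order `√-3` is the comparison number for `c ≠ 0`.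
-/

set_option autoImplicit false

namespace Pool.Agent.Lib.MP_1a91b9_ntE

open NumberField IsDedekindDomain Pool.Agent.Lib.MP_1a91b9_ntT Pool.Agent.Lib.MP_1a91b9_ntH
open Pool.Agent.Lib.MP_1a91b9_ntH2
open Pool.Agent.Lib.MP_1a91b9_ntT.Rq (ev Fix Rel)

noncomputable section

/-- The action of `τ` on the points of order `M`. -/
structure ActE (τ : ℂ ≃+* ℂ) (i : ℕ) (χ : 𝓞 K) (M : ℕ) : Prop where
  fx : f0 ∣ χ - 1
  cop : IsCoprime χ (M : 𝓞 K)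
  hX : MP_1a91b9_ntT.zt ^ i * τ (S3.X (1 / 2)) = S3.X (1 / 2)
  hev : ∀ a : 𝓞 K, τ (ev (em a / M)) = MP_1a91b9_ntT.zt ^ i * ev (em (χ * a) / M)
  hY : ∀ a : 𝓞 K, S3.Y (em (χ * a) / M) = τ (S3.Y (em a / M))

private theorem ratE_z3 : MP_1a91b9_ntT.zt ^ 3 = 1 := S3.zt_cube

private theorem ratE_em_w (i : ℕ) : em (wO ^ i) = MP_1a91b9_ntT.zt ^ i := by
  induction i with
  | zero => rw [pow_zero, pow_zero, RatA_one]
  | succ i ih => rw [pow_succ, pow_succ, RatA_mul, ih, RatA_wO]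

private theorem ratE_ev (i : ℕ) (z : ℂ) :
    ev z = MP_1a91b9_ntT.zt ^ i * ev (MP_1a91b9_ntT.zt ^ i * z) := by
  induction i with
  | zero => rw [pow_zero, one_mul, one_mul]
  | succ i ih =>
    have e : MP_1a91b9_ntT.zt ^ (i + 1) * z = MP_1a91b9_ntT.zt * (MP_1a91b9_ntT.zt ^ i * z) := by ring
    rw [e, Rq.ev_zt]
    conv_lhs => rw [ih]
    have h := ratE_z3
    rw [pow_succ]
    linear_combination (-(MP_1a91b9_ntT.zt ^ i * ev (MP_1a91b9_ntT.zt ^ i * z))) * h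

private theorem ratE_Y (i : ℕ) (z : ℂ) : S3.Y (MP_1a91b9_ntT.zt ^ i * z) = S3.Y z := by
  induction i with
  | zero => rw [pow_zero, one_mul]
  | succ i ih =>
    have e : MP_1a91b9_ntT.zt ^ (i + 1) * z = MP_1a91b9_ntT.zt * (MP_1a91b9_ntT.zt ^ i * z) := by ring
    rw [e, Rq.Y_zt, ih]

/-- The action of an automorphism on the torsion points. -/
theorem exists_actE {τ : ℂ ≃+* ℂ} (hτ : Fix τ) (M : ℕ) (hM : 0 < M) (h6 : 6 ∣ M) :
    ∃ (i : ℕ) (χ : 𝓞 K), ActE τ i χ M := by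
  obtain ⟨χ, h3, hc, hrel, hev⟩ := MP_1a91b9_ntK.Rat3.exists_act3 hτ M hM
    ((show 3 ∣ 6 from ⟨2, rfl⟩).trans h6)
  have hM0 : (M : ℂ) ≠ 0 := by exact_mod_cast hM.ne'
  -- the class modulo `2`
  obtain ⟨N, hN⟩ := h6
  have h2 : ¬ (2 : 𝓞 K) ∣ χ := by
    intro h
    have h1 : (2 : 𝓞 K) ∣ (M : 𝓞 K) := ⟨3 * N, by rw [hN]; push_cast; ring⟩
    have h4 := isUnit_iff_dvd_one.1 (hc.isUnit_of_dvd' h h1)
    have h5 := red_eq_zero.2 h4
    rw [map_one] at h5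
    exact absurd h5 (by decide)
  have hr : red χ ≠ 0 := fun h => h2 (red_eq_zero.1 h)
  have hdec : ∀ x : F4, x ≠ 0 → ∃ i : Fin 3, F4.w ^ (i : ℕ) * x = 1 := by decide
  obtain ⟨i, hi⟩ := hdec _ hr
  have hχ2 : (2 : 𝓞 K) ∣ wO ^ (i : ℕ) * χ - 1 := by
    rw [← red_eq_zero, map_sub, map_mul, map_pow, red_w, map_one, hi, sub_self]
  have hws : s3 ∣ wO - 1 := ⟨1 + wO, by rw [s3]; linear_combination -2 * wO_quad⟩
  have he : ∀ a : 𝓞 K, em (wO ^ (i : ℕ) * χ * a) / M =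
      MP_1a91b9_ntT.zt ^ (i : ℕ) * (em (χ * a) / M) := by
    intro a
    rw [mul_assoc, RatA_mul, ratE_em_w, mul_div_assoc]
  refine ⟨i, wO ^ (i : ℕ) * χ, ?_, ?_, ?_, ?_, ?_⟩
  · rw [f0]
    refine s3_odd.mul_dvd hχ2 ?_
    have h1 : s3 ∣ wO ^ (i : ℕ) - 1 := by
      have h2 : (wO - 1) ∣ wO ^ (i : ℕ) - 1 := by
        have := sub_dvd_pow_sub_pow wO 1 (i : ℕ)
        rwa [one_pow] at this
      exact hws.trans h2
    have e : wO ^ (i : ℕ) * χ - 1 = (wO ^ (i : ℕ) - 1) * χ + (χ - 1) := by ring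
    rw [e]
    exact dvd_add (h1.mul_right _) (s3_dvd_three.trans h3)
  · refine IsCoprime.mul_left ⟨(wO ^ 2) ^ (i : ℕ), 0, ?_⟩ hc
    rw [← mul_pow]
    have : wO ^ 2 * wO = 1 := by linear_combination (wO - 1) * wO_quad
    rw [this, one_pow, zero_mul, add_zero]
  · have h1 := hrel ((3 * N : ℕ) : 𝓞 K)
    have e1 : em ((3 * N : ℕ) : 𝓞 K) / (M : ℂ) = 1 / 2 := by
      rw [RatA_ofNat, hN]
      have h4 : (N : ℂ) ≠ 0 := by
        intro h4
        apply hM0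
        rw [hN]
        push_cast
        rw [h4, mul_zero]
      push_cast
      field_simp
      norm_num
    have e2 : em (χ * ((3 * N : ℕ) : 𝓞 K)) / (M : ℂ) = em χ / 2 := by
      rw [RatA_mul, mul_div_assoc, e1]
      ring
    rw [e1, e2] at h1
    have h2 : S3.X (em χ / 2) = τ (S3.X (1 / 2)) := by
      rcases h1 with ⟨h3, -⟩ | ⟨-, -, h3, -⟩
      · exact absurd h3 S3.half_notMem
      · exact h3
    obtain ⟨t, ht⟩ := hχ2
    have e3 : MP_1a91b9_ntT.zt ^ (i : ℕ) * (em χ / 2) = 1 / 2 + em t := by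
      have h4 : em (wO ^ (i : ℕ) * χ) = em (1 + ((2 : ℕ) : 𝓞 K) * t) := by
        congr 1
        push_cast
        linear_combination ht
      rw [RatA_mul, ratE_em_w, RatA_add, RatA_one, RatA_mul, RatA_ofNat] at h4
      push_cast at h4
      linear_combination h4 / 2
    rw [← h2, ← MP_1a91b9_ntK.Rat3.X_pow_zt, e3, S3.X_add (RatA_mem t)]
  · intro a
    rw [hev, he, ratE_ev (i : ℕ)]
  · intro a
    rw [he, ratE_Y]
    rcases hrel a with ⟨h1, h2⟩ | ⟨-, -, -, h2⟩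
    · rw [MP_1a91b9_ntK.Rat3.Y_half (by rw [two_mul]; exact add_mem h2 h2),
        MP_1a91b9_ntK.Rat3.Y_half (by rw [two_mul]; exact add_mem h1 h1), map_zero]
    · exact h2

/-! ### The function `PhE c` -/

theorem ratE_PhE (c : F4) (R : ℂ) : PhE c R / Om = ∑ p : F4 × F4,
    (sge c (1 + 2 * lft p.1 + 4 * lft p.2) : ℂ) *
      ev (R + em (1 + 2 * lft p.1 + 4 * lft p.2) / 8) := by
  rw [Fintype.sum_prod_type, PhE, Finset.sum_div]
  refine Finset.sum_congr rfl fun x _ => ?_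
  rw [FP, Finset.mul_sum, Finset.sum_div]
  refine Finset.sum_congr rfl fun y _ => ?_
  have h1 : (2 : 𝓞 K) ∣ 1 + 2 * lft x - 1 := ⟨lft x, by ring⟩
  have h4 : em (4 : 𝓞 K) = 4 := by
    have := RatA_ofNat 4
    push_cast at this
    exact this
  have e : R + em (1 + 2 * lft x + 4 * lft y) / 8 =
      R + em (1 + 2 * lft x) / 8 + em (lft y) / 2 := by
    rw [RatA_add, RatA_mul 4, h4]
    ring
  rw [Rho_sge_add h1, red_lft, e, one_mul, Rq.ev]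
  push_cast
  ring

/-- multiplication by an element congruent to `1` modulo `2` on the classes modulo `8` -/
theorem ratE_perm {χ : 𝓞 K} (h : (2 : 𝓞 K) ∣ χ - 1) : ∃ σ : Equiv.Perm (F4 × F4), ∀ p : F4 × F4,
    (8 : 𝓞 K) ∣ χ * (1 + 2 * lft p.1 + 4 * lft p.2) -
      (1 + 2 * lft (σ p).1 + 4 * lft (σ p).2) := by
  have hex : ∀ u : 𝓞 K, (2 : 𝓞 K) ∣ u - 1 → ∃ p : F4 × F4,
      (8 : 𝓞 K) ∣ u - (1 + 2 * lft p.1 + 4 * lft p.2) := by
    rintro u ⟨t, ht⟩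
    obtain ⟨s, hs⟩ := red_eq.1 (red_lft (red t)).symm
    obtain ⟨r, hr⟩ := red_eq.1 (red_lft (red s)).symm
    exact ⟨(red t, red s), r, by
      change u - (1 + 2 * lft (red t) + 4 * lft (red s)) = _
      linear_combination ht + 2 * hs + 4 * hr⟩
  have hinj0 : ∀ p q : F4 × F4, (8 : 𝓞 K) ∣ (1 + 2 * lft p.1 + 4 * lft p.2) -
      (1 + 2 * lft q.1 + 4 * lft q.2) → p = q := by
    rintro ⟨x, y⟩ ⟨x', y'⟩ ⟨t, ht⟩
    simp only at ht
    have e1 : lft x - lft x' = 2 * (2 * t - (lft y - lft y')) := by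
      apply mul_left_cancel₀ (two_ne_zero : (2 : 𝓞 K) ≠ 0)
      linear_combination ht
    have h1 : red (lft x) = red (lft x') := red_eq.2 ⟨_, e1⟩
    rw [red_lft, red_lft] at h1
    subst h1
    have e2 : lft y - lft y' = 2 * t := by
      apply mul_left_cancel₀ (show (4 : 𝓞 K) ≠ 0 by norm_num)
      linear_combination ht
    have h2 : red (lft y) = red (lft y') := red_eq.2 ⟨_, e2⟩
    rw [red_lft, red_lft] at h2
    rw [h2]
  have h1 : ∀ p : F4 × F4, ∃ q : F4 × F4, (8 : 𝓞 K) ∣ χ * (1 + 2 * lft p.1 + 4 * lft p.2) -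
      (1 + 2 * lft q.1 + 4 * lft q.2) := by
    intro p
    refine hex _ ?_
    obtain ⟨t, ht⟩ := h
    exact ⟨t * (1 + 2 * lft p.1 + 4 * lft p.2) + lft p.1 + 2 * lft p.2, by
      linear_combination (1 + 2 * lft p.1 + 4 * lft p.2) * ht⟩
  choose g hg using h1
  have hcop : IsCoprime χ (8 : 𝓞 K) := by
    obtain ⟨t, ht⟩ := h
    have h2 : IsCoprime χ (2 : 𝓞 K) := ⟨1, -t, by linear_combination ht⟩
    have e : (8 : 𝓞 K) = 2 * 2 * 2 := by norm_num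
    rw [e]
    exact (h2.mul_right h2).mul_right h2
  have hinj : Function.Injective g := by
    intro p q hpq
    apply hinj0
    have h2 : (8 : 𝓞 K) ∣ χ * ((1 + 2 * lft p.1 + 4 * lft p.2) -
        (1 + 2 * lft q.1 + 4 * lft q.2)) := by
      have h3 := dvd_sub (hg p) (hg q)
      rw [hpq] at h3
      have e : χ * ((1 + 2 * lft p.1 + 4 * lft p.2) - (1 + 2 * lft q.1 + 4 * lft q.2)) =
          χ * (1 + 2 * lft p.1 + 4 * lft p.2) - (1 + 2 * lft (g q).1 + 4 * lft (g q).2) -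
            (χ * (1 + 2 * lft q.1 + 4 * lft q.2) - (1 + 2 * lft (g q).1 + 4 * lft (g q).2)) := by
        ring
      rw [e]
      exact h3
    exact hcop.symm.dvd_of_dvd_mul_left h2
  exact ⟨Equiv.ofBijective g (Finite.injective_iff_bijective.1 hinj), hg⟩

/-- **The action on the values of `PhE c`.** -/
theorem ActE.PhE {τ : ℂ ≃+* ℂ} {i : ℕ} {χ : 𝓞 K} {M : ℕ} (h : ActE τ i χ M) (hM : 0 < M)
    (h8 : 8 ∣ M) (c : F4) {b : 𝓞 K} (hb : em ((χ - 1) * b) / M ∈ PP.lattice) :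
    τ (MP_1a91b9_ntE.PhE c (em b / M) / Om) =
      MP_1a91b9_ntT.zt ^ i * (sge c χ : ℂ) * (MP_1a91b9_ntE.PhE c (em b / M) / Om) := by
  obtain ⟨N, hN⟩ := h8
  have hM0 : (M : ℂ) ≠ 0 := by exact_mod_cast hM.ne'
  have h2 : (2 : 𝓞 K) ∣ χ - 1 := (dvd_mul_right _ _).trans h.fx
  obtain ⟨σ, hσ⟩ := ratE_perm h2
  rw [ratE_PhE, map_sum, Finset.mul_sum, ← Equiv.sum_comp σ (fun p : F4 × F4 =>
    MP_1a91b9_ntT.zt ^ i * (sge c χ : ℂ) * ((sge c (1 + 2 * lft p.1 + 4 * lft p.2) : ℂ) *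
      ev (em b / M + em (1 + 2 * lft p.1 + 4 * lft p.2) / 8)))]
  refine Finset.sum_congr rfl fun p _ => ?_
  obtain ⟨u, hu⟩ : ∃ u : 𝓞 K, u = 1 + 2 * lft p.1 + 4 * lft p.2 := ⟨_, rfl⟩
  obtain ⟨v, hv⟩ : ∃ v : 𝓞 K, v = 1 + 2 * lft (σ p).1 + 4 * lft (σ p).2 := ⟨_, rfl⟩
  have huv : (8 : 𝓞 K) ∣ χ * u - v := by
    rw [hu, hv]
    exact hσ p
  rw [← hu, ← hv]
  have hu2 : (2 : 𝓞 K) ∣ u - 1 := ⟨lft p.1 + 2 * lft p.2, by rw [hu]; ring⟩
  have hs : sge c v = sge c χ * sge c u := by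
    rw [← SumE_sge_mul h2 hu2]
    refine (SumE_sge_congr ?_ huv).symm
    obtain ⟨t, ht⟩ := h2
    obtain ⟨s, hs⟩ := hu2
    exact ⟨t * u + s, by linear_combination u * ht + hs⟩
  have e8 : ∀ x : 𝓞 K, em x / 8 = em (x * (N : 𝓞 K)) / M := by
    intro x
    rw [RatA_mul, RatA_ofNat, hN]
    have h0 : ((8 * N : ℕ) : ℂ) ≠ 0 := by rwa [← hN]
    have h1 : (N : ℂ) ≠ 0 := by
      intro h1
      apply h0
      push_cast
      rw [h1, mul_zero]
    push_cast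
    field_simp
  have e1 : em b / M + em u / 8 = em (b + u * (N : 𝓞 K)) / M := by
    rw [e8, RatA_add, add_div]
  obtain ⟨s, hs'⟩ := huv
  have e2 : em (χ * (b + u * (N : 𝓞 K))) / M =
      em b / M + em v / 8 + (em ((χ - 1) * b) / M + em s) := by
    have e3 : χ * (b + u * (N : 𝓞 K)) = b + v * (N : 𝓞 K) + ((χ - 1) * b + (M : 𝓞 K) * s) := by
      have e4 : (M : 𝓞 K) = 8 * (N : 𝓞 K) := by
        rw [hN]
        push_cast
        rfl
      rw [e4]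
      linear_combination (N : 𝓞 K) * hs'
    rw [e3, RatA_add, RatA_add, RatA_add, RatA_mul (M : 𝓞 K), RatA_ofNat, e8 v]
    field_simp
  have hl : em ((χ - 1) * b) / M + em s ∈ PP.lattice := add_mem hb (RatA_mem s)
  have h1 : τ (sge c u : ℂ) = (sge c u : ℂ) := map_intCast τ _
  have hq : (sge c χ : ℂ) * (sge c χ : ℂ) = 1 := by
    rcases SumE_sge_cases c χ with h | h <;> rw [h] <;> norm_num
  rw [map_mul, h1, e1, h.hev, e2, Rq.ev_add hl, hs]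
  push_cast
  linear_combination (-(MP_1a91b9_ntT.zt ^ i * (sge c u : ℂ) * ev (em b / M + em v / 8))) * hq

/-! ### The comparison number -/

private theorem ratE_em_two : em (2 : 𝓞 K) = 2 := by
  have := RatA_ofNat 2
  push_cast at this
  exact this

private theorem ratE_em_three : em (3 : 𝓞 K) = 3 := by
  have := RatA_ofNat 3
  push_cast at this
  exact this

private theorem ratE_three : (3 : 𝓞 K) = -(s3 * s3) := by
  rw [s3]
  linear_combination 4 * wO_quad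

/-- twice the point of order `√-3` -/
private theorem ratE_T : 2 * (em s3 / 3) ∉ PP.lattice := by
  intro h
  have e : 2 * (em s3 / 3) = em (2 * s3) / em 3 := by
    rw [RatA_mul, ratE_em_two, ratE_em_three]
    ring
  rw [e] at h
  obtain ⟨t, ht⟩ := RatA_dvd (by norm_num) h
  have e1 := ratE_three
  have h1 : s3 ∣ 1 := by
    have h2 : s3 * (2 + s3 * t) = 0 := by
      rw [e1] at ht
      linear_combination ht
    have h3 : (2 : 𝓞 K) + s3 * t = 0 := (mul_eq_zero.1 h2).resolve_left s3_ne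
    exact ⟨t - s3, by linear_combination e1 - h3⟩
  exact s3_not_isUnit (isUnit_of_dvd_one h1)

private theorem ratE_X : S3.X (2 * (em s3 / 3)) = 0 := by
  have h1 : MP_1a91b9_ntT.zt * (2 * (em s3 / 3)) = 2 * (em s3 / 3) +
      (-(((2 : ℤ) : ℂ) + ((2 : ℤ) : ℂ) * MP_1a91b9_ntT.zt)) := by
    rw [PhiE_em_s3]
    push_cast
    linear_combination (4 / 3) * S3.zt_quad
  have h2 : -(((2 : ℤ) : ℂ) + ((2 : ℤ) : ℂ) * MP_1a91b9_ntT.zt) ∈ PP.lattice :=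
    neg_mem (S3.mem_PP.2 ⟨2, 2, rfl⟩)
  have h3 := Rq.X_zt (2 * (em s3 / 3))
  rw [h1, S3.X_add h2] at h3
  have h4 : (1 - MP_1a91b9_ntT.zt) * S3.X (2 * (em s3 / 3)) = 0 := by linear_combination h3
  rcases mul_eq_zero.1 h4 with h | h
  · exact absurd (sub_eq_zero.1 h).symm (MP_1a91b9_ntT.zt_spec.ne_one (by norm_num))
  · exact h

private theorem ratE_a : 4 * ‖Quarter_a‖ ^ 3 = 1 := by
  have h := Quarter_a_eq
  have h1 : 4 * Quarter_a ^ 3 = -1 := by linear_combination h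
  have h2 := congrArg norm h1
  rw [norm_mul, norm_pow, norm_neg, norm_one] at h2
  norm_num at h2
  exact h2

private theorem ratE_aep : ‖Quarter_a‖ = ‖ep‖ ^ 2 := norm_X_half.1

/-- The absolute value at the point of order `√-3`. -/
theorem ratE_norm {c : F4} (hc : c ≠ 0) : ∃ r : ℚ, 0 < r ∧
    ‖MP_1a91b9_ntE.PhE c (em s3 / 3) / Om‖ ^ 2 =
      (r : ℝ) * √3 ^ (if c.b = 0 then 0 else 1) * ‖ep‖ ^ 2 := by
  have hm : ((3 : ℕ) : ℂ) * (2 * (em s3 / 3)) ∈ PP.lattice := by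
    have e : ((3 : ℕ) : ℂ) * (2 * (em s3 / 3)) = em (((2 : ℕ) : 𝓞 K) * s3) := by
      rw [RatA_mul, RatA_ofNat]
      push_cast
      ring
    rw [e]
    exact RatA_mem _
  have h := phiE_sq c (z := em s3 / 3) (n := 3) (by decide) hm ratE_T
  have hD : DEe 0 = 1 := by rw [DEe]; ring
  have hu : uE c 0 = 1 := by
    rw [uE]
    split_ifs <;> ring
  rw [ratE_X, hD, hu, one_pow, mul_one, mul_one, zero_add] at h
  have ha := ratE_a
  have ha0 : ‖Quarter_a‖ ≠ 0 := norm_ne_zero_iff.2 Quarter_a_ne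
  have hch : ‖chE' c‖ = 1 := by
    rw [chE', if_neg hc]
    split_ifs
    · exact norm_one
    · exact S3.norm_zt
    · rw [norm_pow, S3.norm_zt, one_pow]
  have h1 : ‖MP_1a91b9_ntE.PhE c (em s3 / 3) / Om‖ ^ 2 = 16 * ‖CEs c‖ * ‖Quarter_a‖ ^ 2 := by
    have h2 : (MP_1a91b9_ntE.PhE c (em s3 / 3) / Om) ^ 2 = 4 * (CEs c * (vpE * chE' c) ^ 2) := by
      rw [← h]
      have := Om_ne_zero
      field_simp
      ring
    have h3 := congrArg norm h2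
    have h4 : ‖(4 : ℂ)‖ = 4 := by norm_num
    have h5 : ‖(2 : ℂ)‖ = 2 := by norm_num
    rw [norm_pow, norm_mul, norm_mul, norm_pow, norm_mul, hch, mul_one, h4, vpE, norm_mul, h5] at h3
    rw [h3]
    ring
  have hs3 : ‖(1 : ℂ) + 2 * MP_1a91b9_ntT.zt‖ = √3 := by
    rw [← PhiE_em_s3]
    exact RatD_norm_s3
  rw [h1, ← ratE_aep]
  have hcc : c = 1 ∨ c = ⟨0, 1⟩ ∨ c = ⟨1, 1⟩ := by
    clear * - hc
    revert c
    decide
  rcases hcc with rfl | rfl | rfl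
  · refine ⟨96, by norm_num, ?_⟩
    have e : CEs (1 : F4) = 24 * Quarter_a ^ 2 := by
      rw [CEs, if_neg (by decide), if_pos rfl]
    have h24 : ‖(24 : ℂ)‖ = 24 := by norm_num
    rw [e, norm_mul, norm_pow, h24, if_pos (by decide)]
    push_cast
    linear_combination 96 * ‖Quarter_a‖ * ha
  · refine ⟨32, by norm_num, ?_⟩
    have e : CEs (⟨0, 1⟩ : F4) = -2 * (1 + 2 * MP_1a91b9_ntT.zt) / Quarter_a := by
      rw [CEs, if_neg (by decide), if_neg (by decide), if_pos rfl]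
    have h2 : ‖(-2 : ℂ)‖ = 2 := by norm_num
    rw [e, norm_div, norm_mul, h2, hs3, if_neg (by decide)]
    push_cast
    field_simp
    ring
  · refine ⟨32, by norm_num, ?_⟩
    have e : CEs (⟨1, 1⟩ : F4) = 2 * (1 + 2 * MP_1a91b9_ntT.zt) / Quarter_a := by
      rw [CEs, if_neg (by decide), if_neg (by decide), if_neg (by decide)]
    have h2 : ‖(2 : ℂ)‖ = 2 := by norm_num
    rw [e, norm_div, norm_mul, h2, hs3, if_neg (by decide)]
    push_cast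
    field_simp
    ring

theorem ratE_act {τ : ℂ ≃+* ℂ} {i : ℕ} {χ : 𝓞 K} {M : ℕ} (h : ActE τ i χ M) (hM : 0 < M)
    (h24 : 24 ∣ M) (c : F4) :
    τ (MP_1a91b9_ntE.PhE c (em s3 / 3) / Om) =
      MP_1a91b9_ntT.zt ^ i * (sge c χ : ℂ) * (MP_1a91b9_ntE.PhE c (em s3 / 3) / Om) := by
  obtain ⟨N, hN⟩ := h24
  have hM0 : (M : ℂ) ≠ 0 := by exact_mod_cast hM.ne'
  have hN0 : (N : ℂ) ≠ 0 := by
    intro h4
    apply hM0
    rw [hN]
    push_cast
    rw [h4, mul_zero]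
  have e1 : ∀ x : 𝓞 K, em (x * ((8 * N : ℕ) : 𝓞 K)) / (M : ℂ) = em x / 3 := by
    intro x
    rw [RatA_mul, RatA_ofNat, hN]
    push_cast
    field_simp
    ring
  have h1 := h.PhE hM ((show 8 ∣ 24 from ⟨3, rfl⟩).trans ⟨N, hN⟩) c
    (b := s3 * ((8 * N : ℕ) : 𝓞 K)) ?_
  · rw [e1] at h1
    exact h1
  · rw [← mul_assoc, e1]
    obtain ⟨t, ht⟩ := h.fx
    have e2 : (χ - 1) * s3 = ((3 : ℕ) : 𝓞 K) * (-(2 * t)) := by
      rw [ht, f0]
      push_cast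
      linear_combination (2 * t) * ratE_three
    rw [e2, RatA_mul, RatA_ofNat]
    push_cast
    rw [mul_div_cancel_left₀ _ (by norm_num)]
    exact RatA_mem _

/-- **The comparison number.** -/
theorem exists_unitE (c : F4) : ∃ B : ℂ, B ≠ 0 ∧
    (∃ r : ℚ, ‖B‖ ^ 2 = (r : ℝ) * √3 ^ (if c.b = 0 then 0 else 1) * ‖ep‖ ^ 2) ∧
    ∀ (τ : ℂ ≃+* ℂ) (i : ℕ) (χ : 𝓞 K) (M : ℕ), ActE τ i χ M → 0 < M → 24 ∣ M →
      τ B = MP_1a91b9_ntT.zt ^ i * (sge c χ : ℂ) * B := by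
  have hep : ‖ep‖ ≠ 0 := by
    intro h
    have := ratE_aep
    rw [h] at this
    exact Quarter_a_ne (norm_eq_zero.1 (by rw [this]; norm_num))
  have h3 : √3 ≠ 0 := by positivity
  have hne : ∀ c : F4, c ≠ 0 → MP_1a91b9_ntE.PhE c (em s3 / 3) / Om ≠ 0 := by
    intro c hc h0
    obtain ⟨r, hr, h1⟩ := ratE_norm hc
    rw [h0, norm_zero] at h1
    have h2 : (r : ℝ) ≠ 0 := by exact_mod_cast hr.ne'
    have h4 : (r : ℝ) * √3 ^ (if c.b = 0 then 0 else 1) * ‖ep‖ ^ 2 ≠ 0 :=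
      mul_ne_zero (mul_ne_zero h2 (pow_ne_zero _ h3)) (pow_ne_zero 2 hep)
    apply h4
    rw [← h1]
    norm_num
  by_cases hc : c = 0
  · subst hc
    have n1 := hne 1 (by decide)
    have n2 := hne ⟨0, 1⟩ (by decide)
    have n3 := hne ⟨1, 1⟩ (by decide)
    obtain ⟨r1, -, m1⟩ := ratE_norm (c := 1) (by decide)
    obtain ⟨r2, -, m2⟩ := ratE_norm (c := ⟨0, 1⟩) (by decide)
    obtain ⟨r3, -, m3⟩ := ratE_norm (c := ⟨1, 1⟩) (by decide)
    refine ⟨MP_1a91b9_ntE.PhE 1 (em s3 / 3) / Om * (MP_1a91b9_ntE.PhE ⟨0, 1⟩ (em s3 / 3) / Om) *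
      (MP_1a91b9_ntE.PhE ⟨1, 1⟩ (em s3 / 3) / Om) / S3.X (1 / 2), ?_, ?_, ?_⟩
    · exact div_ne_zero (mul_ne_zero (mul_ne_zero n1 n2) n3) X_half_ne
    · refine ⟨r1 * r2 * r3 * 3, ?_⟩
      have i0 : (if (0 : F4).b = 0 then 0 else 1 : ℕ) = 0 := if_pos (by decide)
      have i1 : (if (1 : F4).b = 0 then 0 else 1 : ℕ) = 0 := if_pos (by decide)
      have i2 : (if (⟨0, 1⟩ : F4).b = 0 then 0 else 1 : ℕ) = 1 := if_neg (by decide)
      rw [norm_div, norm_mul, norm_mul, div_pow, mul_pow, mul_pow, m1, m2, m3, norm_X_half.1,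
        i0, i1, i2]
      push_cast
      have h4 : √3 * √3 = 3 := Real.mul_self_sqrt (by norm_num)
      field_simp
      linear_combination (r1 * r2 * r3 : ℝ) * h4
    · intro τ i χ M h hM h24
      have t1 := ratE_act h hM h24 1
      have t2 := ratE_act h hM h24 ⟨0, 1⟩
      have t3 := ratE_act h hM h24 ⟨1, 1⟩
      have hX := h.hX
      have hX0 : τ (S3.X (1 / 2)) ≠ 0 := (map_ne_zero τ).2 X_half_ne
      have hz : MP_1a91b9_ntT.zt ^ i ≠ 0 := pow_ne_zero _ (MP_1a91b9_ntT.zt_spec.ne_zero (by norm_num))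
      have hz3 : (MP_1a91b9_ntT.zt ^ i) ^ 3 = 1 := by
        rw [← pow_mul, mul_comm, pow_mul, ratE_z3, one_pow]
      have hs : (sge 1 χ : ℂ) * (sge ⟨0, 1⟩ χ : ℂ) * (sge ⟨1, 1⟩ χ : ℂ) = (sge 0 χ : ℂ) := by
        have h5 : ∀ x : F4, sgz (F4.tr (1 * x)) * sgz (F4.tr (⟨0, 1⟩ * x)) *
            sgz (F4.tr (⟨1, 1⟩ * x)) = sgz (F4.tr (0 * x)) := by decide
        have h6 : ∀ t : ZMod 2, sgz t * sgz t = 1 := by decide
        have h7 : sge 1 χ * sge ⟨0, 1⟩ χ * sge ⟨1, 1⟩ χ = sge 0 χ := by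
          rw [sge, sge, sge, sge, sgc, sgc, sgc, sgc]
          have h8 := h5 (red (half χ))
          have h9 := h6 (tw2 χ)
          rw [← h8]
          linear_combination (sgz (F4.tr (1 * red (half χ))) * sgz (F4.tr (⟨0, 1⟩ * red (half χ))) *
            sgz (F4.tr (⟨1, 1⟩ * red (half χ))) * sgz (tw2 χ)) * h9
        exact_mod_cast h7
      rw [map_div₀, map_mul, map_mul, t1, t2, t3, div_eq_iff hX0, ← hs]
      have hX2 : S3.X (1 / 2) ≠ 0 := X_half_ne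
      generalize τ (S3.X (1 / 2)) = X' at *
      generalize S3.X (1 / 2) = X at *
      generalize MP_1a91b9_ntE.PhE 1 (em s3 / 3) / Om = B1 at *
      generalize MP_1a91b9_ntE.PhE ⟨0, 1⟩ (em s3 / 3) / Om = B2 at *
      generalize MP_1a91b9_ntE.PhE ⟨1, 1⟩ (em s3 / 3) / Om = B3 at *
      generalize MP_1a91b9_ntT.zt ^ i = Z at *
      generalize (sge 1 χ : ℂ) = u1 at *
      generalize (sge ⟨0, 1⟩ χ : ℂ) = u2 at *
      generalize (sge ⟨1, 1⟩ χ : ℂ) = u3 at *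
      have e1 : Z * (u1 * u2 * u3) * (B1 * B2 * B3 / X) * X' =
          (u1 * u2 * u3) * (B1 * B2 * B3) * (Z * X' / X) := by ring
      rw [e1, hX, div_self hX2]
      linear_combination (u1 * u2 * u3 * (B1 * B2 * B3)) * hz3
  · obtain ⟨r, -, h1⟩ := ratE_norm hc
    exact ⟨_, hne c hc, ⟨r, h1⟩, fun τ i χ M h hM h24 => ratE_act h hM h24 c⟩

/-! ### The L-value -/

theorem RatA_DD_ne (S : Finset Pq) : (24 * DD S : 𝓞 K) ≠ 0 := mul_ne_zero (by norm_num) (DD_ne S)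

/-- **The action on the L-value.** -/
theorem ActE.LSe {τ : ℂ ≃+* ℂ} {i : ℕ} {χ : 𝓞 K} {M : ℕ} (h : ActE τ i χ M) (hM : 0 < M)
    (c : F4) (S : Finset Pq) (hS : (24 * DD S : 𝓞 K) ∣ (M : 𝓞 K)) :
    τ (MP_1a91b9_ntE.LSe c S 1 * em (24 * DD S) / Om) = MP_1a91b9_ntT.zt ^ i * (chie c S χ : ℂ) *
      (MP_1a91b9_ntE.LSe c S 1 * em (24 * DD S) / Om) := by
  classical
  have hM0 : (M : ℂ) ≠ 0 := by exact_mod_cast hM.ne'
  have hν0 : (24 * DD S : 𝓞 K) ≠ 0 := RatA_DD_ne S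
  have hνe := RatA_ne hν0
  have hO := Om_ne_zero
  obtain ⟨κ, _, w, hr⟩ : ∃ (κ : Type) (_ : Fintype κ) (w : κ → 𝓞 K), Reps (24 * DD S) w := by
    obtain ⟨ι, _, v, hv, -⟩ := exists_reps S
    exact ⟨_, inferInstance, _, repsE (repsC hv)⟩
  obtain ⟨d, hd⟩ := hS
  have hdM : em (24 * DD S) * em d = M := by
    rw [← RatA_mul, ← hd, RatA_ofNat]
  have hd0 : em d ≠ 0 := right_ne_zero_of_mul (hdM ▸ hM0)
  have hf : ∀ a : 𝓞 K, em a / em (24 * DD S) = em (a * d) / M := by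
    intro a
    rw [← hdM, RatA_mul a d, mul_div_mul_right _ _ hd0]
  have hev2 : ∀ a : 𝓞 K, τ (ev (em a / em (24 * DD S))) =
      MP_1a91b9_ntT.zt ^ i * ev (em (χ * a) / em (24 * DD S)) := by
    intro a
    rw [hf, h.hev, hf, mul_assoc]
  have h1 := euler_ide_gen c (subset_refl S) hr
  rw [Finset.sdiff_self, Finset.prod_empty, mul_one] at h1
  have hL : MP_1a91b9_ntE.LSe c S 1 * em (24 * DD S) / Om =
      ∑ j, (chie c S (w j) : ℂ) * ev (em (w j) / em (24 * DD S)) := by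
    rw [h1, div_eq_iff hO, Finset.sum_mul, mul_comm _ (em (24 * DD S)), ← mul_assoc,
      mul_inv_cancel₀ hνe, one_mul]
    refine Finset.sum_congr rfl fun j _ => ?_
    rw [Rq.ev]
    field_simp
  have hχν : IsCoprime χ (24 * DD S) := IsCoprime.of_isCoprime_of_dvd_right h.cop ⟨d, hd⟩
  obtain ⟨σ, hσ⟩ := hr.perm hχν h.fx
  have h2 : (2 : 𝓞 K) ∣ χ - 1 := (dvd_mul_right _ _).trans h.fx
  rw [hL, map_sum, Finset.mul_sum, ← Equiv.sum_comp σ (fun j => MP_1a91b9_ntT.zt ^ i *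
    (chie c S χ : ℂ) * ((chie c S (w j) : ℂ) * ev (em (w j) / em (24 * DD S))))]
  refine Finset.sum_congr rfl fun j _ => ?_
  have hw2 : (2 : 𝓞 K) ∣ w j - 1 := (dvd_mul_right _ _).trans (hr.fx j)
  have h3 : chie c S (w (σ j)) = chie c S χ * chie c S (w j) := by
    rw [← SumE_chie_mul h2 hw2]
    refine (SumE_chie_congr ?_ ?_ ?_).symm
    · obtain ⟨t, ht⟩ := h2
      obtain ⟨s, hs⟩ := hw2
      exact ⟨t * w j + s, by linear_combination (w j) * ht + hs⟩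
    · exact (show (8 : 𝓞 K) ∣ 24 * DD S from ⟨3 * DD S, by ring⟩).trans (hσ j)
    · exact (dvd_mul_left _ _).trans (hσ j)
  have h4 : ev (em (χ * w j) / em (24 * DD S)) = ev (em (w (σ j)) / em (24 * DD S)) := by
    have h5 := RatA_lat hν0 (hσ j)
    have e : em (χ * w j) / em (24 * DD S) = em (w (σ j)) / em (24 * DD S) +
        (em (χ * w j) / em (24 * DD S) - em (w (σ j)) / em (24 * DD S)) := by ring
    rw [e, Rq.ev_add h5]
  have h6 : τ (chie c S (w j) : ℂ) = (chie c S (w j) : ℂ) := map_intCast τ _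
  have h7 : chie c S χ * chie c S χ = 1 := by
    rcases SumE_chie_cases c S χ with h | h | h
    · exact absurd (SumE_chie_coprime.1 h) (not_not.2 (hχν.of_isCoprime_of_dvd_right
        (dvd_mul_left _ _)))
    · rw [h]; norm_num
    · rw [h]; norm_num
  have h8 : (chie c S χ : ℂ) * (chie c S χ : ℂ) = 1 := by exact_mod_cast h7
  rw [map_mul, h6, hev2, h4, h3]
  push_cast
  linear_combination (-(MP_1a91b9_ntT.zt ^ i * (chie c S (w j) : ℂ) *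
    ev (em (w (σ j)) / em (24 * DD S)))) * h8

/-- **The rationality of the L-quotient**, for `δ = 2 * dlc c S`. -/
theorem crat_e (c : F4) (S : Finset Pq) :
    ∃ q : ℚ, ‖MP_1a91b9_ntE.LSe c S 1‖ ^ 2 * ‖em (2 * dlc c S)‖ =
      (q : ℝ) * (‖Om‖ * ‖ep‖) ^ 2 := by
  classical
  choose hh hh0 hhn hhτ using RatD_exists
  choose n hn hn' using hhn
  obtain ⟨B, hB0, ⟨r, hr⟩, hBτ⟩ := exists_unitE c
  have hO := Om_ne_zero
  have hν0 : (24 * DD S : 𝓞 K) ≠ 0 := RatA_DD_ne S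
  have hνe := RatA_ne hν0
  obtain ⟨H, hH⟩ : ∃ H : ℂ, H = MP_1a91b9_ntE.LSe c S 1 * em (24 * DD S) / Om := ⟨_, rfl⟩
  obtain ⟨P, hP⟩ : ∃ P : ℂ, P = ∏ q ∈ S, hh q := ⟨_, rfl⟩
  have hP0 : P ≠ 0 := by
    rw [hP]
    exact Finset.prod_ne_zero_iff.2 fun q _ => hh0 q
  -- the quotient is in `K`
  obtain ⟨x, hx⟩ : ∃ x : K, embK x = H / (P * B) := by
    refine Rg.mem_K fun τ hτ => ?_
    obtain ⟨M, hM⟩ : ∃ M : ℕ, M = 24 * Nz (DD S) := ⟨_, rfl⟩
    have hM0 : 0 < M := by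
      have := (RatD_Nz_odd S).pos
      omega
    have h24 : 24 ∣ M := ⟨_, hM⟩
    have hSM : (24 * DD S : 𝓞 K) ∣ (M : 𝓞 K) := by
      obtain ⟨d, hd⟩ := RatD_dvd_Nz (DD S)
      exact ⟨d, by rw [hM]; push_cast; rw [hd]; ring⟩
    obtain ⟨i, χ, h⟩ := exists_actE hτ M hM0 ((show 6 ∣ 24 from ⟨4, rfl⟩).trans h24)
    have h1 := h.LSe hM0 c S hSM
    rw [← hH] at h1
    have hdM : ∀ q ∈ S, q.1 ∣ (M : 𝓞 K) := by
      intro q hq
      have h2 : q.1 ∣ DD S := Finset.dvd_prod_of_mem _ hq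
      exact (h2.mul_left 24).trans hSM
    have hqχ : ∀ q ∈ S, ¬ q.1 ∣ χ := by
      intro q hq h2
      exact q.2.1.not_isUnit (h.cop.isUnit_of_dvd' h2 (hdM q hq))
    have h2 : τ P = (chi S χ : ℂ) * P := by
      rw [hP, map_prod, chi]
      push_cast
      rw [← Finset.prod_mul_distrib]
      exact Finset.prod_congr rfl fun q hq => hhτ q τ χ _ hM0.ne' (hdM q hq) h.hY (hqχ q hq)
    have h3 := hBτ τ i χ M h hM0 h24
    have h4 : (chi S χ : ℂ) ≠ 0 := by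
      rw [chi]
      push_cast
      refine Finset.prod_ne_zero_iff.2 fun q hq => ?_
      have h5 : qs q χ ≠ 0 := fun h5 => hqχ q hq (qs_eq_zero.1 h5)
      exact_mod_cast h5
    have h5 : (sge c χ : ℂ) ≠ 0 := by
      rcases SumE_sge_cases c χ with h | h <;> rw [h] <;> norm_num
    have hz : MP_1a91b9_ntT.zt ^ i ≠ 0 :=
      pow_ne_zero _ (MP_1a91b9_ntT.zt_spec.ne_zero (by norm_num))
    rw [map_div₀, map_mul, h1, h2, h3, SumE_chie_eq]
    push_cast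
    field_simp
  have hHn : ‖H‖ ^ 2 = ((Algebra.norm ℚ x : ℚ) : ℝ) * (‖P‖ ^ 2 * ‖B‖ ^ 2) := by
    have h1 : H = embK x * (P * B) := by
      rw [hx, div_mul_cancel₀ _ (mul_ne_zero hP0 hB0)]
    have h2 := norm_K x
    rw [Complex.mul_conj, Complex.normSq_eq_norm_sq] at h2
    have h3 : ((Algebra.norm ℚ x : ℚ) : ℝ) = ‖embK x‖ ^ 2 := by exact_mod_cast h2
    rw [h1, norm_mul, norm_mul, mul_pow, mul_pow, h3]
  have hPn : ‖P‖ ^ 2 * ‖em (DD S)‖ ^ 3 = √3 ^ (3 * ∑ q ∈ S, n q) := by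
    rw [hP, RatD_em_DD, norm_prod, norm_prod, ← Finset.prod_pow, ← Finset.prod_pow,
      ← Finset.prod_mul_distrib, Finset.mul_sum, ← Finset.prod_pow_eq_pow_sum]
    exact Finset.prod_congr rfl fun q _ => hn' q
  obtain ⟨m, hm⟩ := RatDc_parity c S n hn
  have hD0 : ‖em (DD S)‖ ≠ 0 := norm_ne_zero_iff.2 (RatA_ne (DD_ne S))
  have hν1 : ‖em (24 * DD S)‖ ≠ 0 := norm_ne_zero_iff.2 hνe
  have hL : ‖MP_1a91b9_ntE.LSe c S 1‖ ^ 2 = ‖H‖ ^ 2 * ‖Om‖ ^ 2 / ‖em (24 * DD S)‖ ^ 2 := by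
    have hO' : ‖Om‖ ≠ 0 := norm_ne_zero_iff.2 hO
    rw [hH, norm_div, norm_mul]
    field_simp
  refine ⟨2 * r * (Algebra.norm ℚ x) * 3 ^ m / ((Nz (24 * DD S) : ℕ) * (Nz (DD S) : ℕ)), ?_⟩
  have h1 : √3 ^ (3 * ∑ q ∈ S, n q) * √3 ^ (if (qd.A S + c).b = 0 then 0 else 1) *
      √3 ^ (if c.b = 0 then 0 else 1) = 3 ^ m := by
    rw [← pow_add, ← pow_add, hm, ← two_mul, pow_mul, Real.sq_sqrt (by norm_num)]
  have h2 : √3 ^ (if c.b = 0 then 0 else 1) * (‖P‖ ^ 2 * ‖em (dlc c S)‖) =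
      3 ^ m / ‖em (DD S)‖ ^ 2 := by
    rw [RatDc_dlc, eq_div_iff (pow_ne_zero 2 hD0), ← h1, ← hPn]
    ring
  have h3 : ‖em (2 * dlc c S)‖ = 2 * ‖em (dlc c S)‖ := by
    rw [RatA_mul, ratE_em_two, norm_mul]
    norm_num
  rw [hL, hHn, hr, h3]
  push_cast
  rw [RatD_Nz, RatD_Nz]
  have h4 : ((Algebra.norm ℚ x : ℚ) : ℝ) * (‖P‖ ^ 2 *
      ((r : ℝ) * √3 ^ (if c.b = 0 then 0 else 1) * ‖ep‖ ^ 2)) * ‖Om‖ ^ 2 /
        ‖em (24 * DD S)‖ ^ 2 * (2 * ‖em (dlc c S)‖) =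
      2 * (r : ℝ) * ((Algebra.norm ℚ x : ℚ) : ℝ) *
        (√3 ^ (if c.b = 0 then 0 else 1) * (‖P‖ ^ 2 * ‖em (dlc c S)‖)) /
        (‖em (24 * DD S)‖ ^ 2) * (‖Om‖ * ‖ep‖) ^ 2 := by
    field_simp
  rw [h4, h2]
  field_simp

end

end Pool.Agent.Lib.MP_1a91b9_ntE
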