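import Pool.Agent.Lib.MP_1a91b9_ntE.A.PntE

/-!
# Phase E (`2 ∣ δ`), part A, file ResE: the normalised sum (steps E4, E5)

If `z² (1 - ϖ² x + ϖ x²)² = C² u (x + ϖ c)²` with `ϖ³ = -2`, `x`, `c` integral and `u = 1 + ϖ² x` or
`u = 1 - ϖ² x + ϖ⁴ x²`, then `z / (C ϖ) = x / ϖ + (r x + x³ + c) + ϖ t` with `r² ≡ x` and `t` integral.
-/

set_option autoImplicit false

namespace Pool.Agent.Lib.MP_1a91b9_ntE

open NumberField Pool.Agent.Lib.MP_1a91b9_ntT Pool.Agent.Lib.MP_1a91b9_ntH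

noncomputable section

section pt

variable {A : ValuationSubring ℂ}

theorem vp_lt (hA : Two A) {vp : ℂ} (hvp : vp ^ 3 = -2) : A.valuation vp < 1 := by
  by_contra h
  push Not at h
  have h1 : A.valuation (vp ^ 3) < 1 := by
    rw [hvp, Valuation.map_neg]
    exact S3.v_two_lt hA
  rw [map_pow] at h1
  exact absurd h1 (not_lt.2 (one_le_pow₀ h))

private theorem r_mem {r b : ℂ} (hb : b ∈ A) (h : r ^ 2 - b * r ∈ A) : r ∈ A := by
  rw [← A.valuation_le_one_iff]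
  by_contra hn
  push Not at hn
  have h3 : A.valuation (r - b) = A.valuation r :=
    A.valuation.map_sub_eq_of_lt_left (lt_of_le_of_lt (vle hb) hn)
  have h4 := vle h
  rw [show r ^ 2 - b * r = r * (r - b) by ring, map_mul, h3, ← pow_two] at h4
  exact absurd (one_lt_pow₀ hn two_ne_zero) (not_lt.2 h4)

/-- the equation of `r` -/
private theorem r_eq {vp x u2 r : ℂ} (hvp : vp ^ 3 = -2)
    (hm : vp ∈ A) (hx : x ∈ A) (h0 : vp ≠ 0)
    (hu : u2 = 1 + vp ^ 2 * x ∨ u2 = 1 - vp ^ 2 * x + vp ^ 4 * x ^ 2)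
    (hr : (1 + vp * r) ^ 2 = u2) : r ∈ A ∧ ∃ e ∈ A, r ^ 2 - x = vp * e := by
  have h2 : vp ^ 2 ≠ 0 := pow_ne_zero 2 h0
  rcases hu with h | h
  · have h1 : r ^ 2 - vp ^ 2 * r = x := by
      apply mul_left_cancel₀ h2
      rw [h] at hr
      linear_combination hr - vp * r * hvp
    have hrA : r ∈ A := r_mem (pow_mem hm 2) (by rw [h1]; exact hx)
    exact ⟨hrA, vp * r, mul_mem hm hrA, by linear_combination h1⟩
  · have h1 : r ^ 2 - vp ^ 2 * r = -x + vp ^ 2 * x ^ 2 := by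
      apply mul_left_cancel₀ h2
      rw [h] at hr
      linear_combination hr - vp * r * hvp
    have hrA : r ∈ A := r_mem (pow_mem hm 2) (by
      rw [h1]
      exact add_mem (neg_mem hx) (mul_mem (pow_mem hm 2) (pow_mem hx 2)))
    refine ⟨hrA, vp * r + vp ^ 2 * x + vp * x ^ 2, add_mem (add_mem (mul_mem hm hrA)
      (mul_mem (pow_mem hm 2) hx)) (mul_mem hm (pow_mem hx 2)), ?_⟩
    linear_combination h1 - x * hvp

/-- **(E4)** -/
theorem resE_pt (hA : Two A) {vp x ch C z u2 : ℂ} (hvp : vp ^ 3 = -2) (hx : x ∈ A) (hch : ch ∈ A)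
    (hC : C ≠ 0) (hu : u2 = 1 + vp ^ 2 * x ∨ u2 = 1 - vp ^ 2 * x + vp ^ 4 * x ^ 2)
    (hz : z ^ 2 * (1 - vp ^ 2 * x + vp * x ^ 2) ^ 2 = C ^ 2 * u2 * (x + vp * ch) ^ 2) :
    ∃ r t : ℂ, t ∈ A ∧ A.valuation (r ^ 2 - x) < 1 ∧
      z / (C * vp) = x / vp + (r * x + x ^ 3 + ch) + vp * t := by
  have hlt := vp_lt hA hvp
  have hm : vp ∈ A := (A.valuation_le_one_iff _).1 hlt.le
  have h0 : vp ≠ 0 := by
    rintro rfl
    norm_num at hvp
  obtain ⟨u, hu'⟩ : ∃ u : ℂ, u ^ 2 = u2 := IsAlgClosed.exists_pow_nat_eq u2 two_pos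
  obtain ⟨r, hr⟩ : ∃ r : ℂ, u = 1 + vp * r := ⟨(u - 1) / vp, by
    field_simp
    ring⟩
  rw [hr] at hu'
  obtain ⟨hrA, e, he, hre⟩ := r_eq hvp hm hx h0 hu hu'
  -- the denominator
  obtain ⟨DE, hDE⟩ : ∃ DE, DE = 1 - vp ^ 2 * x + vp * x ^ 2 := ⟨_, rfl⟩
  have hDv : A.valuation DE = 1 := by
    have e1 : DE = 1 + vp * (x ^ 2 - vp * x) := by
      rw [hDE]
      ring
    rw [e1]
    have h1 : A.valuation (vp * (x ^ 2 - vp * x)) < 1 := by
      rw [map_mul]
      exact mul_lt_one_of_lt_of_le hlt (vle (sub_mem (pow_mem hx 2) (mul_mem hm hx)))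
    rw [A.valuation.map_add_eq_of_lt_left (by rw [map_one]; exact h1), map_one]
  have hD0 : DE ≠ 0 := by
    intro h
    rw [h, map_zero] at hDv
    exact zero_ne_one hDv
  have hDi : DE⁻¹ ∈ A := by
    rw [← A.valuation_le_one_iff, map_inv₀, hDv, inv_one]
  rw [← hDE] at hz
  -- the root
  obtain ⟨w0, hw0⟩ : ∃ w0, w0 = (1 + vp * r) * (x + vp * ch) * DE⁻¹ := ⟨_, rfl⟩
  have hw0A : w0 ∈ A := by
    rw [hw0]
    exact mul_mem (mul_mem (add_mem (one_mem A) (mul_mem hm hrA)) (add_mem hx (mul_mem hm hch))) hDi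
  obtain ⟨t, ht⟩ : ∃ t, t = (vp ^ 2 * x ^ 3 + r * ch + x ^ 2 + vp * x * (r * x + x ^ 3 + ch) -
      x ^ 2 * (r * x + x ^ 3 + ch)) * DE⁻¹ := ⟨_, rfl⟩
  have htA : t ∈ A := by
    have h1 : r * x + x ^ 3 + ch ∈ A := add_mem (add_mem (mul_mem hrA hx) (pow_mem hx 3)) hch
    rw [ht]
    exact mul_mem (sub_mem (add_mem (add_mem (add_mem (mul_mem (pow_mem hm 2) (pow_mem hx 3))
      (mul_mem hrA hch)) (pow_mem hx 2)) (mul_mem (mul_mem hm hx) h1))
      (mul_mem (pow_mem hx 2) h1)) hDi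
  have key : w0 / vp = x / vp + (r * x + x ^ 3 + ch) + vp * t := by
    rw [hw0, ht, div_eq_iff h0]
    have h1 : (1 + vp * r) * (x + vp * ch) = DE * (x + (r * x + x ^ 3 + ch) * vp) +
        vp ^ 2 * (vp ^ 2 * x ^ 3 + r * ch + x ^ 2 + vp * x * (r * x + x ^ 3 + ch) -
      x ^ 2 * (r * x + x ^ 3 + ch)) := by
      rw [hDE]
      linear_combination (-vp * x ^ 3) * hvp
    rw [h1]
    field_simp
  have hval : A.valuation (r ^ 2 - x) < 1 := by
    rw [hre, map_mul]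
    exact mul_lt_one_of_lt_of_le hlt (vle he)
  have hsq : (z * DE) ^ 2 = (C * (1 + vp * r) * (x + vp * ch)) ^ 2 := by
    rw [← hu'] at hz
    linear_combination hz
  rcases sq_eq_sq_iff_eq_or_eq_neg.1 hsq with h | h
  · refine ⟨r, t, htA, hval, ?_⟩
    have h1 : z = C * w0 := by
      rw [hw0]
      field_simp
      linear_combination h
    rw [← key, h1]
    field_simp
  · refine ⟨r, t + vp * w0, add_mem htA (mul_mem hm hw0A), hval, ?_⟩
    have h1 : z = -(C * w0) := by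
      rw [hw0]
      field_simp
      linear_combination h
    have h2 : z / (C * vp) = w0 / vp + vp * (vp * w0) := by
      rw [h1]
      field_simp
      linear_combination (-w0) * hvp
    rw [h2, key]
    ring

end pt

/-! ### The rotation -/

private theorem em_zt_mem {z : ℂ} (h : z ∈ PP.lattice) : zt * z ∈ PP.lattice :=
  S3.mul_mem (by rw [← RatA_wO]; exact RatA_mem wO) h

theorem Od.mem_of_four {z : ℂ} (h : Od z) (h4 : 4 * z ∈ PP.lattice) : z ∈ PP.lattice := by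
  by_contra hz
  have h2 := h.two_notMem hz
  have o2 : Od (2 * z) := by exact_mod_cast h.mul_int 2
  apply o2.two_notMem h2
  rwa [show 2 * (2 * z) = 4 * z by ring]

theorem Od.sub {z z' : ℂ} (h : Od z) (h' : Od z') : Od (z - z') := by
  obtain ⟨n, hn, hz⟩ := h
  obtain ⟨m, hm, hz'⟩ := h'
  refine ⟨n * m, hn.mul hm, ?_⟩
  have e : ((n * m : ℕ) : ℂ) * (z - z') = ((m : ℤ) : ℂ) * (n * z) - ((n : ℤ) : ℂ) * (m * z') := by
    push_cast
    ring
  rw [e]
  exact sub_mem (S3.mul_int_mem hz m) (S3.mul_int_mem hz' n)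

theorem Od.rot {z : ℂ} (h : Od z) : Od (zt * z) := by
  obtain ⟨n, hn, hz⟩ := h
  refine ⟨n, hn, ?_⟩
  have h1 := em_zt_mem hz
  rwa [show zt * ((n : ℂ) * z) = (n : ℂ) * (zt * z) by ring] at h1

theorem X_congr {z z' : ℂ} (h : z' - z ∈ PP.lattice) : S3.X z' = S3.X z := by
  have e : z' = z + (z' - z) := by ring
  rw [e, S3.X_add h]

theorem X_rot (z : ℂ) : S3.X (zt * z) = zt * S3.X z := by
  rw [S3.X, S3.X, S3.P_zt, mul_div_assoc]

private theorem resE_wO (q : Pq) : qs q wO = 1 := by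
  have h1 : qs q wO * qs q wO * qs q wO = 1 := by
    rw [← qs_mul, ← qs_mul, ← qs_one q]
    congr 1
    linear_combination (wO - 1) * wO_quad
  rcases (by
    by_contra h
    push Not at h
    have h2 : ¬ q.1 ∣ wO := by
      intro h3
      have h5 : wO * wO * wO = (1 : 𝓞 K) := by linear_combination (wO - 1) * wO_quad
      have h4 : q.1 ∣ wO * wO * wO := (h3.mul_right _).mul_right _
      have h6 : IsUnit (wO * wO * wO) := by
        rw [h5]
        exact isUnit_one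
      exact q.2.1.not_isUnit (isUnit_of_dvd_unit h4 h6)
    rcases qs_one_or h2 with h6 | h6
    · exact h.1 h6
    · exact h.2 h6 : qs q wO = 1 ∨ qs q wO = -1) with h | h
  · exact h
  · rw [h] at h1
    norm_num at h1

/-- **(E5)** the sum of the abscissas is zero. -/
theorem sum_X {D : Finset Pq} {ι : Type} [Fintype ι] {v : ι → 𝓞 K} (hv : Reps (6 * DD D) v)
    {P : ι → ℂ} (hP : ∀ i, Od (P i))
    (hP4 : ∀ i, 4 * P i - em (v i) / em (3 * DD D) ∈ PP.lattice) :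
    ∑ i, WE (fun _ => 1) D (v i) * S3.X (P i) = 0 := by
  obtain ⟨d, hd⟩ := DD_two D
  have hu : IsCoprime (wO + 3 * DD D * (1 - wO)) (6 * DD D) := by
    have h1 : IsCoprime (wO + 3 * DD D * (1 - wO)) (3 * DD D) := by
      refine ⟨wO ^ 2, 1 - wO ^ 2 * (1 - wO) - 1, ?_⟩
      linear_combination (wO - 1) * wO_quad
    have h2 : IsCoprime (wO + 3 * DD D * (1 - wO)) (2 : 𝓞 K) := by
      refine ⟨1, -(1 - wO) * (1 + 3 * d), ?_⟩
      linear_combination 3 * (1 - wO) * hd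
    have e : (6 * DD D : 𝓞 K) = 2 * (3 * DD D) := by ring
    rw [e]
    exact h2.mul_right h1
  have huf : f0 ∣ wO + 3 * DD D * (1 - wO) - 1 := by
    rw [f0]
    refine s3_odd.mul_dvd ?_ ?_
    · refine ⟨(1 - wO) * (1 + 3 * d), ?_⟩
      linear_combination 3 * (1 - wO) * hd
    · have h1 : s3 ∣ wO - 1 := ⟨1 + wO, by rw [s3]; linear_combination -2 * wO_quad⟩
      have e : wO + 3 * DD D * (1 - wO) - 1 = (wO - 1) * (1 - 3 * DD D) := by ring
      rw [e]
      exact h1.mul_right _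
  obtain ⟨σ, hσ⟩ := hv.perm hu huf
  have h3D : (3 * DD D : 𝓞 K) ≠ 0 := mul_ne_zero (by norm_num) (DD_ne D)
  -- the weights
  have hW : ∀ i, WE (fun _ => 1) D (v (σ i)) = WE (fun _ => 1) D (v i) := by
    intro i
    have h1 : DD D ∣ v (σ i) - wO * v i := by
      have h2 : DD D ∣ (wO + 3 * DD D * (1 - wO)) * v i - v (σ i) := (dvd_mul_left _ _).trans (hσ i)
      have h3 : DD D ∣ DD D * (3 * (1 - wO) * v i) := dvd_mul_right _ _
      have h4 := dvd_sub h3 h2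
      rwa [show DD D * (3 * (1 - wO) * v i) - ((wO + 3 * DD D * (1 - wO)) * v i - v (σ i)) =
        v (σ i) - wO * v i by ring] at h4
    rw [WE_congr _ h1, WE, WE]
    refine Finset.prod_congr rfl fun q _ => ?_
    rw [qs_mul, resE_wO, one_mul]
  -- the points
  have hX : ∀ i, S3.X (P (σ i)) = zt * S3.X (P i) := by
    intro i
    rw [← X_rot]
    apply X_congr
    refine ((hP (σ i)).sub (hP i).rot).mem_of_four ?_
    have h1 : (3 * DD D : 𝓞 K) ∣ v (σ i) - wO * v i := by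
      have h2 : (3 * DD D : 𝓞 K) ∣ (wO + 3 * DD D * (1 - wO)) * v i - v (σ i) :=
        Dvd.dvd.trans ⟨2, by ring⟩ (hσ i)
      have h3 : (3 * DD D : 𝓞 K) ∣ 3 * DD D * ((1 - wO) * v i) := dvd_mul_right _ _
      have h4 := dvd_sub h3 h2
      rwa [show 3 * DD D * ((1 - wO) * v i) - ((wO + 3 * DD D * (1 - wO)) * v i - v (σ i)) =
        v (σ i) - wO * v i by ring] at h4
    have h2 := RatA_lat h3D h1
    have h7 : em (wO * v i) = zt * em (v i) := by rw [RatA_mul, RatA_wO]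
    rw [h7, mul_div_assoc] at h2
    have h5 := em_zt_mem (hP4 i)
    have h6 := sub_mem (add_mem (hP4 (σ i)) h2) h5
    rwa [show 4 * P (σ i) - em (v (σ i)) / em (3 * DD D) + (em (v (σ i)) / em (3 * DD D) -
      zt * (em (v i) / em (3 * DD D))) - zt * (4 * P i - em (v i) / em (3 * DD D)) =
      4 * (P (σ i) - zt * P i) by ring] at h6
  have h1 : ∑ i, WE (fun _ => 1) D (v i) * S3.X (P i) =
      zt * ∑ i, WE (fun _ => 1) D (v i) * S3.X (P i) := by
    conv_lhs => rw [← Equiv.sum_comp σ]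
    rw [Finset.mul_sum]
    refine Finset.sum_congr rfl fun i _ => ?_
    rw [hW, hX]
    ring
  have h2 : (1 - zt) * ∑ i, WE (fun _ => 1) D (v i) * S3.X (P i) = 0 := by
    linear_combination h1
  exact (mul_eq_zero.1 h2).resolve_left (sub_ne_zero.2 S3.zt_ne_one.symm)

/-- **(E4), (E5)** the normalised sum. -/
theorem resE {A : ValuationSubring ℂ} (hA : Two A) {D : Finset Pq} {ι : Type} [Fintype ι]
    {v : ι → 𝓞 K} (hv : Reps (6 * DD D) v) {P z : ι → ℂ} (hP : ∀ i, Od (P i))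
    (hP4 : ∀ i, 4 * P i - em (v i) / em (3 * DD D) ∈ PP.lattice) {vp ch C : ℂ} {u2 : ι → ℂ}
    (hvp : vp ^ 3 = -2) (hch : ch ∈ A) (hC : C ≠ 0)
    (hu : ∀ i, u2 i = 1 + vp ^ 2 * S3.X (P i) ∨
      u2 i = 1 - vp ^ 2 * S3.X (P i) + vp ^ 4 * S3.X (P i) ^ 2)
    (hz : ∀ i, z i ^ 2 * (1 - vp ^ 2 * S3.X (P i) + vp * S3.X (P i) ^ 2) ^ 2 =
      C ^ 2 * u2 i * (S3.X (P i) + vp * ch) ^ 2) :
    ∃ r : ι → ℂ, (∀ i, A.valuation (r i ^ 2 - S3.X (P i)) < 1) ∧
      A.valuation (∑ i, WE (fun _ => 1) D (v i) * (z i / (C * vp)) -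
        (∑ i, WE (fun _ => 1) D (v i) * (r i * S3.X (P i) + S3.X (P i) ^ 3) +
          ch * ∑ i, WE (fun _ => 1) D (v i))) < 1 := by
  have h3D : (3 * DD D : 𝓞 K) ≠ 0 := mul_ne_zero (by norm_num) (DD_ne D)
  have hV : ∀ i, em (v i) / em (3 * DD D) ∉ PP.lattice := by
    intro i h
    have h2 := RatA_dvd h3D h
    apply s3_not_isUnit
    refine (hv.cop i).isUnit_of_dvd' ?_ ?_
    · exact (s3_dvd_three.mul_right _).trans h2
    · refine Dvd.dvd.mul_right ?_ _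
      have e : (6 : 𝓞 K) = 3 * 2 := by norm_num
      rw [e]
      exact s3_dvd_three.mul_right _
  have hP0 : ∀ i, P i ∉ PP.lattice := by
    intro i h
    apply hV i
    have h1 := sub_mem (S3.mul_int_mem h 4) (hP4 i)
    rwa [show ((4 : ℤ) : ℂ) * P i - (4 * P i - em (v i) / em (3 * DD D)) =
      em (v i) / em (3 * DD D) by push_cast; ring] at h1
  have h : ∀ i, ∃ r t : ℂ, t ∈ A ∧ A.valuation (r ^ 2 - S3.X (P i)) < 1 ∧
      z i / (C * vp) = S3.X (P i) / vp + (r * S3.X (P i) + S3.X (P i) ^ 3 + ch) + vp * t :=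
    fun i => resE_pt hA hvp (X_mem hA (hP i) (hP0 i)) hch hC (hu i) (hz i)
  choose r t ht hr he using h
  refine ⟨r, hr, ?_⟩
  have h0 : vp ≠ 0 := by
    rintro rfl
    norm_num at hvp
  have hW : ∀ i, WE (fun _ => 1) D (v i) ∈ A := fun i => by
    rcases WE_cases (e := fun _ => 1) (D := D) (fun _ _ => Or.inl rfl)
      (fun q hq => not_dvd_of_reps hv i hq) with h | h <;> rw [h]
    · exact zero_mem A
    · exact one_mem A
  have e : ∑ i, WE (fun _ => 1) D (v i) * (z i / (C * vp)) -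
        (∑ i, WE (fun _ => 1) D (v i) * (r i * S3.X (P i) + S3.X (P i) ^ 3) +
          ch * ∑ i, WE (fun _ => 1) D (v i)) =
      (∑ i, WE (fun _ => 1) D (v i) * S3.X (P i)) / vp +
        vp * ∑ i, WE (fun _ => 1) D (v i) * t i := by
    rw [Finset.sum_div, Finset.mul_sum, Finset.mul_sum, ← Finset.sum_add_distrib,
      ← Finset.sum_sub_distrib, ← Finset.sum_add_distrib]
    refine Finset.sum_congr rfl fun i _ => ?_
    rw [he i]
    ring
  rw [e, sum_X hv hP hP4, zero_div, zero_add, map_mul]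
  exact mul_lt_one_of_lt_of_le (vp_lt hA hvp) (vle (sum_mem fun i _ => mul_mem (hW i) (ht i)))

end

end Pool.Agent.Lib.MP_1a91b9_ntE
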