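import Pool.Agent.Lib.MP_1a91b9_ntE.A.RhoE
import Pool.Agent.Lib.MP_1a91b9_ntE.A.MatE
import Pool.Agent.Lib.MP_1a91b9_ntE.A.ResE
import Pool.Agent.Lib.MP_1a91b9_ntE.A.PhiE
import Pool.Agent.Lib.MP_1a91b9_ntE.A.OneE

/-!
# TwistDensity, even case, part A, file RhsE: the residue class of the right side of the averaging
identity
-/

set_option autoImplicit false

namespace Pool.Agent.Lib.MP_1a91b9_ntE

open NumberField IsDedekindDomain Pool.Agent.Lib.MP_1a91b9_ntT Pool.Agent.Lib.MP_1a91b9_ntG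
  Pool.Agent.Lib.MP_1a91b9_ntH Pool.Agent.Lib.MP_1a91b9_ntH2

noncomputable section

/-- the normalisation -/
def NNE (c : F4) : ℂ := 2 * Om * CE c * vpE

theorem vpE_cube : vpE ^ 3 = -2 := by
  have h := Quarter_a_eq
  rw [vpE]
  linear_combination 2 * h

theorem vpE_ne : vpE ≠ 0 := by
  intro h
  have h1 := vpE_cube
  rw [h] at h1
  norm_num at h1

theorem NNE_ne (c : F4) : NNE c ≠ 0 := by
  rw [NNE]
  exact mul_ne_zero (mul_ne_zero (mul_ne_zero two_ne_zero Om_ne_zero) (CE_ne c)) vpE_ne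

/-- two systems of representatives -/
theorem Reps_equiv {ν : 𝓞 K} {ι κ : Type} {v : ι → 𝓞 K} {r : κ → 𝓞 K} (hv : Reps ν v)
    (hr : Reps ν r) : ∃ e : ι ≃ κ, ∀ i, ν ∣ v i - r (e i) := by
  have h1 : ∀ i, ∃ j, ν ∣ v i - r j := fun i => hr.ex (v i) (hv.cop i) (hv.fx i)
  choose f hf using h1
  have hb : Function.Bijective f := by
    constructor
    · intro i j hij
      apply hv.inj
      have h2 := dvd_sub (hf i) (hf j)
      rwa [hij, show v i - r (f j) - (v j - r (f j)) = v i - v j by ring] at h2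
    · intro j
      obtain ⟨i, hi⟩ := hv.ex (r j) (hr.cop j) (hr.fx j)
      refine ⟨i, hr.inj _ _ ?_⟩
      have h2 := dvd_add (hf i) hi
      have h3 := (dvd_neg (a := ν)).2 h2
      rwa [show -(v i - r (f i) + (r j - v i)) = r (f i) - r j by ring] at h3
  exact ⟨Equiv.ofBijective f hb, hf⟩

/-- the sum of the weights -/
theorem sum_WE_res {A : ValuationSubring ℂ} {D : Finset Pq} {ι : Type} [Fintype ι]
    {v : ι → 𝓞 K} (hv : Reps (6 * DD D) v) :
    Rs A (∑ i, WE (fun _ => 1) D (v i)) (∏ q ∈ D, F4.of (F4.tr (qE.a q))) := by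
  obtain ⟨κ, _, r, hr, hsum⟩ := exists_reps D
  obtain ⟨e, he⟩ := Reps_equiv hv hr
  choose n hn1 hn2 using half_norm
  have h1 : ∑ i, WE (fun _ => 1) D (v i) = ((3 * ∏ q ∈ D, n q : ℤ) : ℂ) := by
    have e1 : ∑ i, WE (fun _ => 1) D (v i) = ∑ j, WE (fun _ => 1) D (r j) := by
      rw [← Equiv.sum_comp e]
      exact Finset.sum_congr rfl fun i _ => WE_congr _ ((dvd_mul_left _ _).trans (he i))
    have e2 : ∀ j, WE (fun _ => 1) D (r j) = ((∏ q ∈ D, (1 + qs q (r j)) : ℤ) : ℂ) / 2 ^ D.card := by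
      intro j
      rw [WE, Finset.prod_div_distrib, Finset.prod_const]
      congr 1
      push_cast
      exact Finset.prod_congr rfl fun q _ => by rw [one_mul]
    have e3 : (∏ q ∈ D, ((Nz q.1 : ℤ) - 1)) = 2 ^ D.card * ∏ q ∈ D, n q := by
      rw [Finset.prod_congr rfl (fun q _ => hn1 q), Finset.prod_mul_distrib, Finset.prod_const]
    have e4 : ((∑ j, ∏ q ∈ D, (1 + qs q (r j)) : ℤ) : ℂ) = 2 ^ D.card * ((3 * ∏ q ∈ D, n q : ℤ) : ℂ) := by
      rw [hsum, e3]
      push_cast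
      ring
    rw [e1, Finset.sum_congr rfl (fun j _ => e2 j), ← Finset.sum_div]
    have h2 : (2 : ℂ) ^ D.card ≠ 0 := pow_ne_zero _ two_ne_zero
    rw [div_eq_iff h2, mul_comm, ← e4]
    push_cast
    rfl
  rw [h1]
  have h2 := Rs.int (A := A) (3 * ∏ q ∈ D, n q)
  have e : ((3 * ∏ q ∈ D, n q : ℤ) : F4) = ∏ q ∈ D, F4.of (F4.tr (qE.a q)) := by
    push_cast
    have h3 : (3 : F4) = 1 := by decide
    rw [h3, one_mul]
    refine Finset.prod_congr rfl fun q _ => ?_
    rw [hn2 q]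
    exact F4.cj_add_self _
  rwa [e] at h2

theorem chE_res {A : ValuationSubring ℂ} (c : F4) : Rs A (chE' c) c := by
  have hz : em wO = MP_1a91b9_ntT.zt := RatA_wO
  have h0 := Rs.of (A := A) (0 : 𝓞 K)
  have h1 := Rs.of (A := A) (1 : 𝓞 K)
  have h2 := Rs.of (A := A) (wO : 𝓞 K)
  have h3 := Rs.of (A := A) (wO ^ 2 : 𝓞 K)
  rw [Res_em_zero, map_zero] at h0
  rw [Res_em_one, map_one] at h1
  rw [hz, red_w] at h2
  have e3 : em (wO ^ 2) = MP_1a91b9_ntT.zt ^ 2 := by
    rw [pow_two, RatA_mul, hz, pow_two]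
  rw [e3, map_pow, red_w] at h3
  unfold chE'
  have hc : c = 0 ∨ c = 1 ∨ c = ⟨0, 1⟩ ∨ c = ⟨1, 1⟩ := by
    revert c
    decide
  rcases hc with h | h | h | h
  · subst h
    rw [if_pos rfl]
    exact h0
  · subst h
    rw [if_neg (by decide), if_pos rfl]
    exact h1
  · subst h
    rw [if_neg (by decide), if_neg (by decide), if_pos rfl]
    exact h2
  · subst h
    rw [if_neg (by decide), if_neg (by decide), if_neg (by decide)]
    have e : F4.w ^ 2 = (⟨1, 1⟩ : F4) := by decide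
    rwa [e] at h3

theorem rhs_res {A : ValuationSubring ℂ} (hA : Two A) (c : F4) {D : Finset Pq} {ι : Type} [Fintype ι]
    {v : ι → 𝓞 K} (hv : Reps (6 * DD D) v) (_h8 : ∀ i, (8 : 𝓞 K) ∣ v i - 3 * DD D) :
    Rs A (∑ i, WE (fun _ => 1) D (v i) * (PhE c (rhoE D (v i)) / NNE c))
      (F4.cj (qE.KAP D) + c * ∏ q ∈ D, F4.of (F4.tr (qE.a q))) := by
  have hP : ∀ i, Od (2 * rhoE D (v i)) := fun i => by exact_mod_cast Od.mul_int (rhoE_odd D (v i)) 2
  have hP4 : ∀ i, 4 * (2 * rhoE D (v i)) - em (v i) / em (3 * DD D) ∈ PP.lattice := by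
    intro i
    have h := rhoE_eight D (v i)
    rw [show 4 * (2 * rhoE D (v i)) - em (v i) / em (3 * DD D) = -em (v i * xbE D) by
      linear_combination h]
    exact neg_mem (em_mem _)
  have hP0 : ∀ i, 2 * rhoE D (v i) ∉ PP.lattice := fun i => by
    have h := rhoE_two_pow D (hv.fx i) 1
    rwa [pow_one] at h
  have hch := chE_res (A := A) c
  obtain ⟨r, hr, hs⟩ := resE hA hv (P := fun i => 2 * rhoE D (v i))
    (z := fun i => PhE c (rhoE D (v i)) / (2 * Om)) hP hP4 (vp := vpE) (ch := chE' c) (C := CE c)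
    (u2 := fun i => uE c (S3.X (2 * rhoE D (v i)))) vpE_cube
    ((A.valuation_le_one_iff _).1 hch.le) (CE_ne c) (fun i => by
      unfold uE
      split_ifs
      · exact Or.inl rfl
      · exact Or.inr rfl) (fun i => by
      obtain ⟨n, hn, hnz⟩ := hP i
      have h := phiE_sq c hn hnz (hP0 i)
      rw [DEe] at h
      rw [CE_sq]
      exact h)
  have h1 := pntE hA hv hP hP4 hr (oneE_KAP hA hv)
  have h2 := (hch.mul (sum_WE_res (A := A) hv))
  refine (h1.add h2).congr ?_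
  have e : ∑ i, WE (fun _ => 1) D (v i) * (PhE c (rhoE D (v i)) / NNE c) =
      ∑ i, WE (fun _ => 1) D (v i) * (PhE c (rhoE D (v i)) / (2 * Om) / (CE c * vpE)) := by
    refine Finset.sum_congr rfl fun i _ => ?_
    rw [NNE, div_div, mul_assoc (2 * Om)]
  rw [e]
  exact hs

end

end Pool.Agent.Lib.MP_1a91b9_ntE
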