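import Pool.Agent.Lib.MP_1a91b9_ntE.A.PrimE
import Pool.Agent.Lib.MP_1a91b9_ntE.A.LocE
import Pool.Agent.Lib.MP_1a91b9_ntH.A.Ser

/-!
# TwistDensity, phase E, part A, file SerE: the L-series of `y² = x³ + δ³`, `δ = 2 dlc c S`
-/

set_option autoImplicit false

namespace Pool.Agent.Lib.MP_1a91b9_ntE

open NumberField IsDedekindDomain Polynomial WeierstrassCurve Filter Topology LSeries
  Pool.Agent.Lib.MP_1a91b9_nt Pool.Agent.Lib.MP_1a91b9_ntT Pool.Agent.Lib.MP_1a91b9_ntT.S7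
  Pool.Agent.Lib.MP_1a91b9_ntG Pool.Agent.Lib.MP_1a91b9_ntH Pool.Agent.Lib.MP_1a91b9_ntH2
open Pool.Agent.Lib.MP_1a91b9_ntT.S4 (Lf)

noncomputable section

private theorem SerE_sq {z : ℂ} (h : z ^ 2 = -3) :
    z + (starRingEnd ℂ) z = 0 ∧ z * (starRingEnd ℂ) z = 3 := by
  have hr := congrArg Complex.re h
  have hi := congrArg Complex.im h
  rw [pow_two] at hr hi
  simp only [Complex.mul_re, Complex.mul_im, Complex.neg_re, Complex.neg_im] at hr hi
  have h3r : (3 : ℂ).re = 3 := rfl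
  have h3i : (3 : ℂ).im = 0 := rfl
  rw [h3r] at hr
  rw [h3i] at hi
  have hz : z.re = 0 := by
    have h1 : z.re * z.im = 0 := by linarith
    rcases mul_eq_zero.1 h1 with h2 | h2
    · exact h2
    · exfalso
      rw [h2] at hr
      nlinarith [sq_nonneg z.re]
  rw [hz] at hr
  constructor
  · apply Complex.ext
    · rw [Complex.add_re, Complex.conj_re, hz]
      simp
    · rw [Complex.add_im, Complex.conj_im]
      simp
  · rw [Complex.mul_conj, Complex.normSq_apply, hz]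
    have h1 : (0 : ℝ) * 0 + z.im * z.im = 3 := by linarith
    rw [h1]
    norm_num

/-- the Euler factors of `WdE c S` -/
private theorem SerE_loc (c : F4) (S : Finset Pq) {p : Ideal (𝓞 K) → ℂ}
    (hp : ∀ v : HeightOneSpectrum (𝓞 K), v ≠ p3 → p v.asIdeal = pXe c S v.asIdeal)
    (hp0 : (qd.A S + c).b = 0 → p p3.asIdeal = 0)
    (hp1 : (qd.A S + c).b ≠ 0 → (p p3.asIdeal) ^ 2 = -3)
    (v : HeightOneSpectrum (𝓞 K)) (x : ℂ) :
    aeval x (locPoly (WdE c S) v) =
      (1 - p v.asIdeal * x) * (1 - (starRingEnd ℂ) (p v.asIdeal) * x) := by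
  by_cases h3 : s3 ∈ v.asIdeal
  · rw [eq_p3 v h3]
    by_cases hb : (qd.A S + c).b = 0
    · rw [loc_bade c S p3 (Or.inr (Or.inr ⟨by rw [mem_p3], hb⟩)), hp0 hb]
      simp
    · obtain ⟨e1, e2⟩ := SerE_sq (hp1 hb)
      rw [loc_threee c S p3 (by rw [mem_p3]) hb]
      linear_combination x * e1 - x ^ 2 * e2
  · have hv3 : v ≠ p3 := by
      rintro rfl
      exact h3 (by rw [mem_p3])
    rw [hp v hv3]
    by_cases h2 : (2 : 𝓞 K) ∈ v.asIdeal
    · rw [loc_bade c S v (Or.inl h2), pXe_bad c S v (v.asIdeal.mul_mem_right _ h2)]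
      simp
    · have h6 : (6 : 𝓞 K) ∉ v.asIdeal := by
        rw [six_eq, f0]
        intro h
        rcases v.isPrime.mem_or_mem ((neg_mem_iff).1 h) with h | h
        · rcases v.isPrime.mem_or_mem h with h | h
          · exact h2 h
          · exact h3 h
        · exact h3 h
      obtain ⟨q, rfl⟩ := exists_plc v h6
      rw [pXe_plc]
      by_cases hq : q ∈ S
      · have h0 : chie c S q.1 = 0 := SumE_chie_eq_zero.2 ⟨q, hq, dvd_rfl⟩
        rw [loc_bade c S (plc q) (Or.inr (Or.inl ⟨q, hq, rfl⟩)), h0]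
        simp
      · rw [loc_goode c S q hq]
        simp only [map_mul, Complex.conj_conj]
        have h1 : (starRingEnd ℂ) ((chie c S q.1 : ℤ) : ℂ) = ((chie c S q.1 : ℤ) : ℂ) := by simp
        rw [h1]
        ring

/-- **The L-series of `WdE c S`**: the continuation and the value at `1`. -/
theorem lser_maine (c : F4) (S : Finset Pq) : ∃ g : ℂ → ℂ, Differentiable ℂ g ∧
    (∀ s : ℂ, 3 / 2 < s.re → g s = (WdE c S).LSeries s) ∧
    g 1 * (if (qd.A S + c).b = 0 then 1 else 4 / 3) =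
      LSe c S 1 * (starRingEnd ℂ) (LSe c S 1) := by
  obtain ⟨p, L, p1, pmul, ple, hp, hp0, hp1, hL, hL2, hv⟩ := exists_fulle c S
  obtain ⟨g, hg, hg1, hg2⟩ := Ser_main p1 pmul ple (SerE_loc c S hp hp0 hp1) hL hL2
  refine ⟨g, hg, hg1, ?_⟩
  rw [hg2, ← hv, map_mul, map_sub, map_one, map_div₀]
  have h3 : (starRingEnd ℂ) (3 : ℂ) = 3 := map_ofNat _ 3
  rw [h3]
  by_cases hb : (qd.A S + c).b = 0
  · rw [if_pos hb, hp0 hb]
    simp
  · rw [if_neg hb]
    obtain ⟨e1, e2⟩ := SerE_sq (hp1 hb)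
    linear_combination (L 1 * (starRingEnd ℂ) (L 1)) * ((1 / 3) * e1 - (1 / 9) * e2)

end

end Pool.Agent.Lib.MP_1a91b9_ntE
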