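import Pool.Agent.Lib.MP_1a91b9_ntE.A.IndE
import Pool.Agent.Lib.MP_1a91b9_ntE.A.SerE

/-!
# TwistDensity, even case, part A, file TopE: the L-value of `y² = x³ + δ³`, `δ = 2 * dlc c S`
-/

set_option autoImplicit false

namespace Pool.Agent.Lib.MP_1a91b9_ntE

open NumberField IsDedekindDomain Pool.Agent.Lib.MP_1a91b9_ntT Pool.Agent.Lib.MP_1a91b9_ntG
  Pool.Agent.Lib.MP_1a91b9_nt Pool.Agent.Lib.MP_1a91b9_ntH Pool.Agent.Lib.MP_1a91b9_ntH2

noncomputable section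

/-- **Q1**, even classes: the L-value is not zero if the determinant is not zero. -/
theorem lvalue_maine (c : F4) (S : Finset Pq) (h : (qE.NE c S).det ≠ 0) :
    ∃ g : ℂ → ℂ, Differentiable ℂ g ∧
      (∀ s : ℂ, 3 / 2 < s.re → g s = (WdE c S).LSeries s) ∧ g 1 ≠ 0 := by
  obtain ⟨g, h1, h2, h3⟩ := lser_maine c S
  refine ⟨g, h1, h2, fun h0 => ?_⟩
  rw [h0, zero_mul] at h3
  have h4 := LSe_ne h
  exact mul_ne_zero h4 ((_root_.map_ne_zero _).2 h4) h3.symm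

end

end Pool.Agent.Lib.MP_1a91b9_ntE
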